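import Pool.Agent.Work.MP_e97a4d_nt.UP.VAlg

/-!
# VAlgF (S-M): the algebraic end game after a change of variables

`lmap f` extends to an automorphism `Θ` of `Qp k (d + 1)` (`IsFractionRing.ringEquivOfRingEquiv` or
`IsFractionRing.map`), which is the identity on the constants (`lmap_single` with
exponent `0`). Apply `alg_main` to `η = Spec.map Θ ≫ spt (𝒜.j b) φ`, i.e. to `Θ ∘ φ`: it is not in `V'`
(compose with `Spec.map` of the inverse automorphism). For a prime `p̂` let `p = (lmap f).symm p̂`,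
a prime; either `lmap f p = p̂` is associated to `lincl p'`, or there are `b', φ'` with
`φ' (x l) = a / c`, `p ∤ c`, so `Θ (φ' (x l)) = lmap f a / lmap f c` and `p̂ ∤ lmap f c`.
Conclusion for `x`: `Θ (φ x) = lincl a / lincl c`; if `φ x = n / m` then `Θ (φ x) = lmap f n / lmap f m`.
-/

set_option autoImplicit false

noncomputable section

namespace Pool.Agent.Work.MP_e97a4d_nt

open AlgebraicGeometry CategoryTheory IsDedekindDomain NumberField Pool.Agent.Work.UP

variable {F₀ : Type} [Field F₀] {V V' : Scheme.{0}}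

private theorem spt_comp {B : CommRingCat.{0}} (j : Spec B ⟶ V) {k k' : Type} [CommRing k]
    [CommRing k'] (P : B →+* k) (g : k →+* k') :
    Spec.map (CommRingCat.ofHom g) ≫ spt j P = spt j (g.comp P) := by
  unfold spt
  rw [← Category.assoc, ← Spec.map_comp]
  rfl

private theorem lincl_inj {k : Type} [Field k] {d : ℕ} :
    Function.Injective (lincl : Lp k d →+* Lp k (d + 1)) := by
  apply AddMonoidAlgebra.mapDomain_injective
  intro s t h
  funext i
  have := congrFun h (Fin.castSucc i)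
  simpa [sn] using this

theorem alg_end [NumberField F₀] (σ : F₀ →+* ℂ)
    (π : V ⟶ Spec (CommRingCat.of (𝓞 F₀))) (i : V' ⟶ V) [IsClosedImmersion i]
    (hGm : CondGm σ π i) (𝒜 : Atlas π) {k : Type} [Field k] [Algebra F₀ k]
    (hk : Cardinal.mk k ≤ Cardinal.continuum) {d : ℕ} (b : 𝒜.β)
    (φ : 𝒜.B b →+* Qp k (d + 1))
    (hstr : φ.comp (𝒜.ψ b) = strQ ((algebraMap F₀ k).comp (algebraMap (𝓞 F₀) F₀)) (d + 1))
    (hV' : ¬ ∃ p : Spec (CommRingCat.of (Qp k (d + 1))) ⟶ V', p ≫ i = spt (𝒜.j b) φ)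
    (f : (Fin (d + 1) → ℤ) ≃+ (Fin (d + 1) → ℤ))
    (hprime : ∀ p : Lp k (d + 1), Prime p → (∃ p' : Lp k d, Associated (lmap f p) (lincl p')) ∨
      ∃ (b' : 𝒜.β) (φ' : 𝒜.B b' →+* Qp k (d + 1)), spt (𝒜.j b') φ' = spt (𝒜.j b) φ ∧
        ∀ l, ∃ a c : Lp k (d + 1), ¬ p ∣ c ∧ φ' (𝒜.x b' l) =
          algebraMap (Lp k (d + 1)) (Qp k (d + 1)) a /
            algebraMap (Lp k (d + 1)) (Qp k (d + 1)) c) (x : 𝒜.B b) :
    ∃ a c : Lp k d, c ≠ 0 ∧ ∀ n m : Lp k (d + 1), m ≠ 0 →
      φ x = algebraMap (Lp k (d + 1)) (Qp k (d + 1)) n /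
        algebraMap (Lp k (d + 1)) (Qp k (d + 1)) m →
      lmap f n * lincl c = lmap f m * lincl a := by
  let Θ : Qp k (d + 1) ≃+* Qp k (d + 1) := IsFractionRing.ringEquivOfRingEquiv (lmap (k := k) f)
  have hΘ : ∀ a : Lp k (d + 1), Θ (algebraMap (Lp k (d + 1)) (Qp k (d + 1)) a) =
      algebraMap (Lp k (d + 1)) (Qp k (d + 1)) (lmap f a) := fun a =>
    IsFractionRing.ringEquivOfRingEquiv_algebraMap (lmap (k := k) f) a
  have hinj : Function.Injective (algebraMap (Lp k (d + 1)) (Qp k (d + 1))) :=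
    IsFractionRing.injective _ _
  set η := spt (𝒜.j b) ((Θ : Qp k (d + 1) →+* Qp k (d + 1)).comp φ) with hη
  have h1 : η ≫ π = Spec.map (CommRingCat.ofHom
      (strQ ((algebraMap F₀ k).comp (algebraMap (𝓞 F₀) F₀)) (d + 1))) := by
    rw [hη]
    unfold spt
    rw [Category.assoc, 𝒜.str b, ← Spec.map_comp]
    congr 1
    apply CommRingCat.hom_ext
    show (((Θ : Qp k (d + 1) →+* Qp k (d + 1)).comp φ).comp (𝒜.ψ b)) = _
    rw [RingHom.comp_assoc, hstr]
    ext r
    have h0 : ∀ z : k, lmap f (lC z : Lp k (d + 1)) = lC z := by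
      intro z
      show lmap f (AddMonoidAlgebra.single 0 z : Lp k (d + 1)) = AddMonoidAlgebra.single 0 z
      rw [lmap_single, map_zero]
    let w : k := (algebraMap F₀ k) ((algebraMap (𝓞 F₀) F₀) r)
    show Θ (algebraMap (Lp k (d + 1)) (Qp k (d + 1)) (lC w)) =
      algebraMap (Lp k (d + 1)) (Qp k (d + 1)) (lC w)
    rw [hΘ, h0]
  have h2 : ¬ ∃ p : Spec (CommRingCat.of (Qp k (d + 1))) ⟶ V', p ≫ i = η := by
    rintro ⟨p, hp⟩
    refine hV' ⟨Spec.map (CommRingCat.ofHom (Θ.symm : Qp k (d + 1) →+* Qp k (d + 1))) ≫ p, ?_⟩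
    rw [Category.assoc, hp, hη, spt_comp]
    congr 3
    ext y
    simp
  have h3 := alg_main σ π i hGm 𝒜 hk η h1 h2 (by
    intro p hp
    have hp' : Prime ((lmap f).symm p) := by
      rw [← MulEquiv.prime_iff (lmap f)]
      simpa using hp
    rcases hprime _ hp' with ⟨p', hh⟩ | ⟨b', φ', hb', hl⟩
    · left
      refine ⟨p', ?_⟩
      simpa using hh
    · right
      refine ⟨b', (Θ : Qp k (d + 1) →+* Qp k (d + 1)).comp φ', ?_, ?_⟩
      · rw [hη, ← spt_comp, hb', spt_comp]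
      · intro l
        obtain ⟨a, c, hc, hac⟩ := hl l
        refine ⟨lmap f a, lmap f c, ?_, ?_⟩
        · intro hdvd
          apply hc
          have := map_dvd (lmap f).symm hdvd
          simpa using this
        · show Θ (φ' (𝒜.x b' l)) = _
          rw [hac, map_div₀, hΘ, hΘ])
  obtain ⟨a, c, hc, hac⟩ := h3 b _ rfl x
  refine ⟨a, c, hc, ?_⟩
  intro n m hm hnm
  have h4 : Θ (φ x) = algebraMap (Lp k (d + 1)) (Qp k (d + 1)) (lincl a) /
        algebraMap (Lp k (d + 1)) (Qp k (d + 1)) (lincl c) := hac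
  rw [hnm, map_div₀, hΘ, hΘ] at h4
  have h5 : algebraMap (Lp k (d + 1)) (Qp k (d + 1)) (lmap f m) ≠ 0 := by
    intro h
    apply hm
    have h6 : lmap f m = 0 := hinj (by rw [h, map_zero])
    exact (lmap f).injective (by rw [h6, map_zero])
  have h6 : algebraMap (Lp k (d + 1)) (Qp k (d + 1)) (lincl c) ≠ 0 := by
    intro h
    apply hc
    exact lincl_inj (hinj (by rw [h, map_zero, map_zero]))
  rw [div_eq_div_iff h5 h6, ← map_mul, ← map_mul] at h4
  have h7 := hinj h4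
  rw [h7, mul_comm]

end Pool.Agent.Work.MP_e97a4d_nt
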