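import Pool.Agent.Work.MP_e97a4d_nt.UP.ACSpan
import Pool.Agent.Work.MP_e97a4d_nt.UP.VAlgF

/-!
# ACMain (M): finiteness of parametrised integral points

`par_step`. Suppose `Y = Par i 𝒜 F T b N D` is infinite; take `φ`, `f` from `ac_span`. `alg_end` (with
`k = F`, countable: `Cardinal.mk F ≤ ℵ₀ ≤ continuum`, a number field is algebraic over `ℚ`) gives for every
generator `x b l` elements `a l, c l : Lp F d`, `c l ≠ 0`, with
`lmap f (N l) * lincl (c l) = lmap f (D l) * lincl (a l)`. Let `y ∈ Y` with `ParAt 𝒜 b N D y u P`;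
`u' = uact f.symm u`, `u = uact f u'`, `u'' = u' ∘ castSucc` (units, `isUv_uact`). Evaluate at `u'`
(`ev_lmap`, `ev_lincl`): `evk u (N l) * evk u'' (c l) = evk u (D l) * evk u'' (a l)`. If
`evk u'' (c l) ≠ 0` for all `l` then `P (x b l) = evk u'' (a l) / evk u'' (c l)` and
`y ∈ Par i 𝒜 F T b a c`, finite by `IH`. Otherwise for some `l`
`0 = evk u'' (c l) = evk u (lmap f.symm (lincl (c l)))`, a nonzero Laurent polynomial (`lincl` and `lmap`
are injective); `unitEqL` gives a finite `E_l` which `u` does not avoid, and `par_rel_finite` (for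
the members of `E_l`) shows that there are finitely many such `y` (`𝒜.finι b`: finitely many `l`).
So `Y` is finite. `par_finite`: induction on `d` with `par_zero_finite`, `par_step`.
-/

set_option autoImplicit false

noncomputable section

namespace Pool.Agent.Work.MP_e97a4d_nt

open AlgebraicGeometry CategoryTheory IsDedekindDomain NumberField Pool.Agent.Work.UP

variable {F₀ : Type} [Field F₀] {V V' : Scheme.{0}}

private theorem lincl_inj1 {k : Type} [Field k] {d : ℕ} :
    Function.Injective (lincl : Lp k d →+* Lp k (d + 1)) := by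
  apply AddMonoidAlgebra.mapDomain_injective
  intro s t h
  funext i
  have := congrFun h (Fin.castSucc i)
  simpa [sn] using this

private theorem card_nf (F : Type) [Field F] [NumberField F] :
    Cardinal.mk F ≤ Cardinal.continuum := by
  have h1 : Countable F :=
    (Module.finBasis ℚ F).equivFun.injective.countable
  exact Cardinal.mk_le_aleph0.trans Cardinal.aleph0_le_continuum

theorem par_step [NumberField F₀] (σ : F₀ →+* ℂ) {π : V ⟶ Spec (CommRingCat.of (𝓞 F₀))}
    (i : V' ⟶ V) [IsClosedImmersion i] (hGm : CondGm σ π i) (𝒜 : Atlas π) (F : Type) [Field F]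
    [NumberField F] [Algebra F₀ F] (T : Finset (HeightOneSpectrum (𝓞 F))) {d : ℕ}
    (IH : ∀ (b : 𝒜.β) (N D : 𝒜.ι b → Lp F d), (Par i 𝒜 F T b N D).Finite)
    (b : 𝒜.β) (N D : 𝒜.ι b → Lp F (d + 1)) : (Par i 𝒜 F T b N D).Finite := by
  classical
  by_contra hcon
  have hinf : (Par i 𝒜 F T b N D).Infinite := hcon
  obtain ⟨φ, hstr, hval, hV', f, hprime⟩ := ac_span i 𝒜 F T IH b N D hinf
  have h1 := fun x => alg_end σ π i hGm 𝒜 (card_nf F) b φ hstr hV' f hprime x
  choose a c hc hac using fun l => h1 (𝒜.x b l)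
  have hrel : ∀ l, lmap f (N l) * lincl (c l) = lmap f (D l) * lincl (a l) := fun l =>
    hac l (N l) (D l) (hval l).1 (hval l).2
  have hB : ∀ l, lmap f.symm (lincl (c l)) ≠ 0 := by
    intro l h
    apply hc l
    apply lincl_inj1
    apply (lmap (k := F) f.symm).injective
    rw [h, map_zero, map_zero]
  choose E hE hEav using fun l => unitEqL F T _ (hB l)
  have hfin : Finite (𝒜.ι b) := 𝒜.finι b
  refine hinf (((IH b a c).union (Set.finite_iUnion fun l : 𝒜.ι b =>
    (hE l).biUnion (t := fun e => {y | e.1 ≠ 0 ∧ y ∈ Par i 𝒜 F T b N D ∧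
      ∃ u P, ParAt 𝒜 b N D y u P ∧ mon (cu u) e.1 = e.2}) fun e _ => ?_)).subset ?_)
  · by_cases he : e.1 = 0
    · have h2 : {y | e.1 ≠ 0 ∧ y ∈ Par i 𝒜 F T b N D ∧
          ∃ u P, ParAt 𝒜 b N D y u P ∧ mon (cu u) e.1 = e.2} = ∅ := by
        ext y
        simp [he]
      rw [h2]
      exact Set.finite_empty
    · exact (par_rel_finite i 𝒜 F T IH b N D e.1 he e.2).subset fun y hy => hy.2
  · intro y hy
    obtain ⟨hyint, ⟨u, P, hu, hgpt, hP⟩, hy'⟩ := hy
    have hev : ∀ l, evk u (lmap f.symm (lincl (c l))) =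
        evk (fun i : Fin d => uact f.symm u i.castSucc) (c l) := by
      intro l
      unfold evk
      rw [ev_lmap, ev_lincl]
    by_cases hall : ∀ l, evk (fun i : Fin d => uact f.symm u i.castSucc) (c l) ≠ 0
    · left
      refine ⟨hyint, ⟨fun i : Fin d => uact f.symm u i.castSucc, P, ?_, hgpt, ?_⟩, hy'⟩
      · intro i
        exact isUv_uact hu f.symm i.castSucc
      · intro l
        refine ⟨hall l, ?_⟩
        rw [(hP l).2, div_eq_div_iff (hP l).1 (hall l)]
        have h3 := congrArg (evk (uact f.symm u)) (hrel l)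
        unfold evk at h3
        rw [map_mul, map_mul, ev_lmap, ev_lmap, ev_lincl, ev_lincl, uact_uact_symm] at h3
        unfold evk
        rw [h3, mul_comm]
    · right
      push Not at hall
      obtain ⟨l, hl⟩ := hall
      have h3 : ¬ Avoid (E l) (cu u) := by
        intro h4
        exact hEav l u hu h4 (by
          have := hev l
          unfold evk at this
          rw [this]
          exact hl)
      unfold Avoid at h3
      push Not at h3
      obtain ⟨e, he, he0, hmon⟩ := h3
      simp only [Set.mem_iUnion, Set.mem_ofPred_eq]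
      exact ⟨l, e, he, he0, ⟨hyint, ⟨u, P, hu, hgpt, hP⟩, hy'⟩, u, P, ⟨hu, hgpt, hP⟩, hmon⟩

theorem par_finite [NumberField F₀] (σ : F₀ →+* ℂ) {π : V ⟶ Spec (CommRingCat.of (𝓞 F₀))}
    (i : V' ⟶ V) [IsClosedImmersion i] (hGm : CondGm σ π i) (𝒜 : Atlas π) (F : Type) [Field F]
    [NumberField F] [Algebra F₀ F] (T : Finset (HeightOneSpectrum (𝓞 F))) (d : ℕ)
    (b : 𝒜.β) (N D : 𝒜.ι b → Lp F d) : (Par i 𝒜 F T b N D).Finite := by
  induction d generalizing b with
  | zero => exact par_zero_finite i 𝒜 F T b N D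
  | succ d ih => exact par_step σ i hGm 𝒜 F T (fun b N D => ih b N D) b N D

end Pool.Agent.Work.MP_e97a4d_nt
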