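import Pool.Agent.Work.MP_e97a4d_nt.UP.Defs

/-!
# VUnit (S-M): `S`-units and sums of `S`-units

`mem_unit_iff`: membership in `Set.unit` is `v.valuation F x = 1` for all `v ∉ S`
(`Set.unit`, `mem_unit`...), and `FinitePlace.mk p x = 1` iff `p.valuation F x = 1`
(`FinitePlace.mk_apply`, `FinitePlace.norm_embedding`, `HeightOneSpectrum.adicAbv_def`,
strict monotonicity of `WithZeroMulInt.toNNReal`; compare `SUnit.mk_le_one` in
`Work/SUnit/NumberFieldData`).
`mem_integer_iff`: the same for `SInt F S` and `≤ 1`.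
`exists_param`: `d = card ι * m`, coordinates indexed by pairs `(l, r)` (`l : ι`, `r : Fin m`, through a
bijection with `Fin d`). Let `x l = ∑ r, u l r` with `u l r` zero or an `S`-unit; let
`J l = {r | u l r ≠ 0}`; put `v (l, r) = u l r` for `r ∈ J l`, `v (l, r) = 1` otherwise; then
`x l = ev v (∑ r ∈ J l, single (Pi.single (l, r) 1) 1)`. There are finitely many `J`.
-/

set_option autoImplicit false

noncomputable section

namespace Pool.Agent.Work.MP_e97a4d_nt

open IsDedekindDomain NumberField Pool.Agent.Work.UP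

private theorem mk_eq_nn {F : Type} [Field F] [NumberField F] (p : HeightOneSpectrum (𝓞 F))
    (x : F) : ∃ f : WithZero (Multiplicative ℤ) → NNReal, StrictMono f ∧ f 1 = 1 ∧
      FinitePlace.mk p x = f (p.valuation F x) := by
  have hb : 1 < (Ideal.absNorm p.asIdeal : NNReal) := by
    exact_mod_cast NumberField.HeightOneSpectrum.one_lt_absNorm_nnreal p
  refine ⟨_, WithZeroMulInt.toNNReal_strictMono hb, map_one _, ?_⟩
  rw [FinitePlace.mk_apply, FinitePlace.norm_embedding, NumberField.HeightOneSpectrum.adicAbv_def]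

private theorem mk_le_one_iff {F : Type} [Field F] [NumberField F] (p : HeightOneSpectrum (𝓞 F))
    (x : F) : FinitePlace.mk p x ≤ 1 ↔ p.valuation F x ≤ 1 := by
  obtain ⟨f, hf, h1, h2⟩ := mk_eq_nn p x
  rw [h2]
  constructor
  · intro h
    have h3 : f (p.valuation F x) ≤ f 1 := by
      rw [h1]
      exact_mod_cast h
    exact hf.le_iff_le.1 h3
  · intro h
    have h3 : f (p.valuation F x) ≤ f 1 := hf.le_iff_le.2 h
    rw [h1] at h3
    exact_mod_cast h3

private theorem mk_eq_one_iff {F : Type} [Field F] [NumberField F] (p : HeightOneSpectrum (𝓞 F))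
    (x : F) : FinitePlace.mk p x = 1 ↔ p.valuation F x = 1 := by
  obtain ⟨f, hf, h1, h2⟩ := mk_eq_nn p x
  rw [h2]
  constructor
  · intro h
    have h3 : f (p.valuation F x) = f 1 := by
      rw [h1]
      exact_mod_cast h
    exact hf.injective h3
  · intro h
    rw [h, h1]
    norm_num

theorem mem_unit_iff {F : Type} [Field F] [NumberField F] (S : Finset (HeightOneSpectrum (𝓞 F)))
    (v : Fˣ) : v ∈ (S : Set (HeightOneSpectrum (𝓞 F))).unit F ↔
      ∀ p : HeightOneSpectrum (𝓞 F), p ∉ S → FinitePlace.mk p (v : F) = 1 := by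
  constructor
  · intro h p hp
    rw [mk_eq_one_iff]
    exact h p (by simpa using hp)
  · intro h p hp
    have := h p (by simpa using hp)
    rwa [mk_eq_one_iff] at this

theorem mem_integer_iff {F : Type} [Field F] [NumberField F]
    (S : Finset (HeightOneSpectrum (𝓞 F))) (x : F) :
    x ∈ (S : Set (HeightOneSpectrum (𝓞 F))).integer F ↔
      ∀ p : HeightOneSpectrum (𝓞 F), p ∉ S → FinitePlace.mk p x ≤ 1 := by
  constructor
  · intro h p hp
    rw [mk_le_one_iff]
    exact h p (by simpa using hp)
  · intro h p hp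
    have := h p (by simpa using hp)
    rwa [mk_le_one_iff] at this

/-- Sums of `m` units are values of finitely many Laurent polynomials at unit points. -/
theorem exists_param {F : Type} [Field F] [NumberField F] (S : Finset (HeightOneSpectrum (𝓞 F)))
    (m : ℕ) (ι : Type) [Finite ι] : ∃ (d : ℕ) (𝒩 : Set (ι → Lp F d)), 𝒩.Finite ∧
      ∀ x : ι → F, (∀ l, IsUnitSum F S m (x l)) →
        ∃ n ∈ 𝒩, ∃ u : Fin d → Fˣ, IsUv S (cu u) ∧ ∀ l, x l = evk u (n l) := by
  classical
  have : Fintype ι := Fintype.ofFinite ι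
  let e : ι × Fin m ≃ Fin (Fintype.card (ι × Fin m)) := Fintype.equivFin _
  refine ⟨Fintype.card (ι × Fin m),
    Set.range (fun (J : ι → Finset (Fin m)) (l : ι) =>
      (∑ r ∈ J l, AddMonoidAlgebra.single (Pi.single (e (l, r)) (1 : ℤ)) (1 : F) :
        Lp F (Fintype.card (ι × Fin m)))), Set.finite_range _, ?_⟩
  intro x hx
  choose u hu hxu using hx
  refine ⟨_, ⟨fun l => Finset.univ.filter fun r => u l r ≠ 0, rfl⟩, ?_⟩
  let v : Fin (Fintype.card (ι × Fin m)) → Fˣ := fun i =>
    if h : u (e.symm i).1 (e.symm i).2 ≠ 0 then Units.mk0 _ h else 1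
  refine ⟨v, ?_, ?_⟩
  · intro i
    refine ⟨(v i).ne_zero, fun p hp => ?_⟩
    show FinitePlace.mk p ((v i : Fˣ) : F) = 1
    by_cases h : u (e.symm i).1 (e.symm i).2 ≠ 0
    · have h1 : v i = Units.mk0 _ h := by simp only [v]; rw [dif_pos h]
      rcases hu (e.symm i).1 (e.symm i).2 with h2 | ⟨w, hw, hw2⟩
      · exact absurd h2 h
      · have h3 : v i = w := by
          apply Units.ext
          rw [h1, Units.val_mk0, hw2]
        rw [h3]
        exact (mem_unit_iff S w).1 hw p hp
    · have h1 : v i = 1 := by simp only [v]; rw [dif_neg h]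
      rw [h1, Units.val_one, map_one]
  · intro l
    rw [hxu l]
    show _ = evk v (∑ r ∈ Finset.univ.filter (fun r => u l r ≠ 0),
      (AddMonoidAlgebra.single (Pi.single (e (l, r)) (1 : ℤ)) (1 : F) :
        Lp F (Fintype.card (ι × Fin m))))
    rw [map_sum, Finset.sum_filter]
    refine Finset.sum_congr rfl fun r _ => ?_
    by_cases h : u l r ≠ 0
    · rw [if_pos h, ev_single, mon_single_one, map_one, one_mul]
      have h1 : v (e (l, r)) = Units.mk0 (u l r) h := by
        have h2 : u (e.symm (e (l, r))).1 (e.symm (e (l, r))).2 ≠ 0 := by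
          rw [Equiv.symm_apply_apply]
          exact h
        simp only [v]
        rw [dif_pos h2]
        apply Units.ext
        simp
      show u l r = ((v (e (l, r)) : Fˣ) : F)
      rw [h1, Units.val_mk0]
    · rw [if_neg h]
      exact not_not.1 h

end Pool.Agent.Work.MP_e97a4d_nt
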