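import Pool.Agent.Work.MP_e97a4d_nt.UP.PBAtlas
import Pool.Agent.Work.MP_e97a4d_nt.UP.ACMain
import Pool.Agent.Work.MP_e97a4d_nt.UP.VUnit

/-!
# PBII (M): integral points when the complement of `V'` is locally immersed in a torus

Take the atlas of `exists_good_atlas`. Let `y` be an `S`-integral point outside `V'`. By `closed_of_gpt`,
`gpt y` does not factor through `V'`, so its point `v` is not in the range of `i` (a field valued point
whose image is in the range of a closed immersion factors through it: `exists_ideal_chart` in a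
chart; or `exists_ideal_factors'` in `SchemeLemmas`). So `v` is in a good chart `b`, and
`gpt y = spt (𝒜.j b) P` (`IsOpenImmersion.lift`, `Spec.map_surjective`). The elements
`w m = resT y (h m)` are units of `SInt F S` (`h m` is a unit), so `u m = w m` (in `F`) is an `S`-unit
(`mem_integer_iff` for `w` and its inverse, `IsUv`), and `P (resT (𝒜.j b) (h m)) = u m` (`resT_comp`,
both are `resT (gpt y) (h m)`). So `P (x b l) = a l (u) / c l (u)` with `c l (u) ≠ 0`, where the
coefficients are mapped to `F` (`str_of_gpt`). Hence `y ∈ Par i 𝒜 F S b N D` with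
`N l = toL (a l mapped to F)`, `D l = toL (c l mapped to F)` (`ev_toL`), finitely many `b`: choose
`a, c` for every good `b`. `par_finite`.
-/

set_option autoImplicit false

noncomputable section

namespace Pool.Agent.Work.MP_e97a4d_nt

open AlgebraicGeometry CategoryTheory IsDedekindDomain NumberField

variable {F₀ : Type} [Field F₀] {V V' : Scheme.{0}}

open Pool.Agent.Work.UP in
/-- Polynomials with integral coefficients as Laurent polynomials. -/
private def toLp {F : Type} [Field F] (τ : 𝓞 F₀ →+* F) (n : ℕ) :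
    MvPolynomial (Fin n) (𝓞 F₀) →+* Lp F n :=
  MvPolynomial.eval₂Hom ((lC : F →+* Lp F n).comp τ)
    (fun m => AddMonoidAlgebra.single (Pi.single m 1) 1)

open Pool.Agent.Work.UP in
private theorem evk_toLp {F : Type} [Field F] (τ : 𝓞 F₀ →+* F) {n : ℕ} (u : Fin n → Fˣ)
    (p : MvPolynomial (Fin n) (𝓞 F₀)) :
    evk u (toLp τ n p) = MvPolynomial.eval₂ τ (cu u) p := by
  have h : (evk u).comp (toLp τ n) = MvPolynomial.eval₂Hom τ (cu u) := by
    apply MvPolynomial.ringHom_ext
    · intro a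
      rw [RingHom.comp_apply, toLp, MvPolynomial.eval₂Hom_C, RingHom.comp_apply, ev_lC,
        MvPolynomial.eval₂Hom_C, RingHom.id_apply]
    · intro m
      rw [RingHom.comp_apply, toLp, MvPolynomial.eval₂Hom_X', MvPolynomial.eval₂Hom_X', ev_single,
        mon_single_one, map_one, one_mul]
  exact RingHom.congr_fun h p

/-- A point with values in a field whose image is in the range of a chart is given by a
homomorphism. -/
private theorem exists_spt {F : Type} [Field F] (y : Spec (CommRingCat.of F) ⟶ V)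
    {B : CommRingCat.{0}} (j : Spec B ⟶ V) [IsOpenImmersion j]
    (h : y (⊥ : PrimeSpectrum F) ∈ Set.range j) : ∃ P : B →+* F, y = spt j P := by
  have hr : Set.range y ⊆ Set.range j := by
    rintro _ ⟨x, rfl⟩
    have hx : x = (⊥ : PrimeSpectrum F) := Subsingleton.elim (α := PrimeSpectrum F) _ _
    rw [hx]
    exact h
  obtain ⟨P, hP⟩ := Spec.map_surjective (IsOpenImmersion.lift j y hr)
  refine ⟨P.hom, ?_⟩
  have h3 : CommRingCat.ofHom P.hom = P := rfl
  rw [spt, h3, hP, IsOpenImmersion.lift_fac]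

open Pool.Agent.Work.UP in
theorem condII_of_units [NumberField F₀] (σ : F₀ →+* ℂ)
    (π : V ⟶ Spec (CommRingCat.of (𝓞 F₀))) [LocallyOfFiniteType π] [QuasiCompact π]
    (i : V' ⟶ V) [IsClosedImmersion i] {n : ℕ} (h : Fin n → Γ(V, ⊤)) (hu : ∀ m, IsUnit (h m))
    (himm : SurjectiveOnStalks (toAff π i h)) (hGm : CondGm σ π i) : CondII π i := by
  classical
  intro F _ _ _ S
  obtain ⟨𝒜, h𝒜⟩ := exists_good_atlas π i h himm
  have hfin := 𝒜.fin
  set τ : 𝓞 F₀ →+* F := (algebraMap F₀ F).comp (algebraMap (𝓞 F₀) F₀) with hτ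
  -- numerators and denominators
  have hND : ∀ b : 𝒜.β, ∃ a c : 𝒜.ι b → MvPolynomial (Fin n) (𝓞 F₀), GoodChart 𝒜 h b → ∀ l,
      IsUnit (MvPolynomial.eval₂ (𝒜.ψ b) (fun m => resT (𝒜.j b) (h m)) (c l)) ∧
      𝒜.x b l * MvPolynomial.eval₂ (𝒜.ψ b) (fun m => resT (𝒜.j b) (h m)) (c l) =
        MvPolynomial.eval₂ (𝒜.ψ b) (fun m => resT (𝒜.j b) (h m)) (a l) := by
    intro b
    by_cases hg : GoodChart 𝒜 h b
    · obtain ⟨a, c, hac⟩ := hg
      exact ⟨a, c, fun _ => hac⟩
    · exact ⟨fun _ => 0, fun _ => 0, fun hg' => absurd hg' hg⟩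
  choose a c hac using hND
  refine Set.Finite.subset (Set.finite_iUnion fun b : 𝒜.β =>
    par_finite σ i hGm 𝒜 F S n b (fun l => toLp τ n (a b l)) (fun l => toLp τ n (c b l))) ?_
  rintro y ⟨hy, hyn⟩
  have h1 : ¬ ∃ p : Spec (CommRingCat.of F) ⟶ V', p ≫ i = gpt y :=
    fun hp => hyn (closed_of_gpt i y hp)
  rw [factors_iff_mem_range] at h1
  obtain ⟨b, hb, hg⟩ := h𝒜 _ h1
  have := 𝒜.oi b
  obtain ⟨P, hP⟩ := exists_spt (gpt y) (𝒜.j b) hb
  have hstr : P.comp (𝒜.ψ b) = τ := str_of_gpt hy (𝒜.str b) hP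
  -- the units
  have hw : ∀ m, IsUnit (resT y (h m)) := fun m => (hu m).map (resT y)
  have hwP : ∀ m, P (resT (𝒜.j b) (h m)) = ((resT y (h m) : SInt F S) : F) := by
    intro m
    have e1 : resT (gpt y) (h m) = algebraMap (SInt F S) F (resT y (h m)) :=
      resT_comp y (CommRingCat.ofHom (algebraMap (SInt F S) F)) (h m)
    have e2 : resT (spt (𝒜.j b) P) (h m) = P (resT (𝒜.j b) (h m)) :=
      resT_comp (𝒜.j b) (CommRingCat.ofHom P) (h m)
    rw [← e2, ← hP, e1]
    rfl
  let u : Fin n → Fˣ := fun m => Units.map (algebraMap (SInt F S) F : SInt F S →* F) (hw m).unit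
  have hu1 : ∀ m, (u m : F) = ((resT y (h m) : SInt F S) : F) := fun m => rfl
  have huv : IsUv S (cu u) := by
    intro m
    refine ⟨(u m).ne_zero, fun p hp => ?_⟩
    have e1 : FinitePlace.mk p (u m : F) ≤ 1 := (mem_integer_iff S _).1 (resT y (h m)).2 p hp
    have e2 : FinitePlace.mk p ((u m)⁻¹ : Fˣ).val ≤ 1 :=
      (mem_integer_iff S _).1 ((hw m).unit⁻¹ : (SInt F S)ˣ).val.2 p hp
    have e3 : FinitePlace.mk p (u m : F) * FinitePlace.mk p ((u m)⁻¹ : Fˣ).val = 1 := by
      rw [← map_mul, Units.mul_inv, map_one]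
    change FinitePlace.mk p (u m : F) = 1
    have e4 : (0 : ℝ) ≤ FinitePlace.mk p (u m : F) := apply_nonneg _ _
    refine le_antisymm e1 ?_
    rw [← e3]
    exact mul_le_of_le_one_right e4 e2
  have hev : ∀ q : MvPolynomial (Fin n) (𝓞 F₀),
      P (MvPolynomial.eval₂ (𝒜.ψ b) (fun m => resT (𝒜.j b) (h m)) q) = evk u (toLp τ n q) := by
    intro q
    rw [evk_toLp, MvPolynomial.eval₂_comp_left P (𝒜.ψ b), hstr]
    congr 1
    funext m
    exact hwP m
  rw [Set.mem_iUnion]
  refine ⟨b, hy, ⟨u, P, huv, hP, fun l => ?_⟩, hyn⟩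
  obtain ⟨e1, e2⟩ := hac b hg l
  have e3 : evk u (toLp τ n (c b l)) ≠ 0 := by
    rw [← hev]
    exact (e1.map P).ne_zero
  refine ⟨e3, ?_⟩
  rw [eq_div_iff e3, ← hev, ← hev, ← map_mul, e2]

end Pool.Agent.Work.MP_e97a4d_nt
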