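import Mathlib
import Pool.Agent.Work.MP_e97a4d_nt.SchemeLemmas
import Pool.Agent.Work.MP_e97a4d_nt.Defs
import Pool.Agent.Work.MP_e97a4d_nt.SIntDed
import Pool.Agent.Work.SUnit.NumberFieldData

/-!
# Block V-SCH: charts of morphisms from affine schemes

`loc`: near a prime where the value is in a chart, a morphism `Spec R ⟶ V` is given by a ring
homomorphism into a localization of `R`.
-/

set_option autoImplicit false

namespace Pool.Agent.Work.MP_e97a4d_nt.Up

open AlgebraicGeometry CategoryTheory CategoryTheory.Limits IsDedekindDomain NumberField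

/-- Morphisms into an open immersion, locally around a prime. -/
theorem loc {V : Scheme.{0}} {R : Type} [CommRing R] (y : Spec (CommRingCat.of R) ⟶ V)
    {B : CommRingCat.{0}} (j : Spec B ⟶ V) [IsOpenImmersion j] (q : PrimeSpectrum R)
    (hq : y q ∈ Set.range j) :
    ∃ (f : R) (θ : B →+* Localization.Away f), f ∉ q.asIdeal ∧
      Spec.map (CommRingCat.ofHom θ) ≫ j =
        Spec.map (CommRingCat.ofHom (algebraMap R (Localization.Away f))) ≫ y := by
  have h1 : q ∈ (y ⁻¹ᵁ j.opensRange : (Spec (CommRingCat.of R)).Opens) := hq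
  obtain ⟨_, ⟨f, rfl⟩, hqf, hfU⟩ :=
    PrimeSpectrum.isTopologicalBasis_basic_opens.exists_subset_of_mem_open
      h1 (y ⁻¹ᵁ j.opensRange).isOpen
  have hr : Set.range (Spec.map (CommRingCat.ofHom (algebraMap R (Localization.Away f))) ≫ y) ⊆
      Set.range j := by
    rintro _ ⟨v, rfl⟩
    have h2 : Spec.map (CommRingCat.ofHom (algebraMap R (Localization.Away f))) v ∈
        (PrimeSpectrum.basicOpen f : Set (PrimeSpectrum R)) := by
      intro (h : algebraMap R (Localization.Away f) f ∈ v.asIdeal)
      exact v.2.ne_top (Ideal.eq_top_of_isUnit_mem _ h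
        (IsLocalization.map_units (Localization.Away f)
          (⟨f, Submonoid.mem_powers f⟩ : Submonoid.powers f)))
    exact hfU h2
  obtain ⟨θ, hθ⟩ := Spec.map_surjective (IsOpenImmersion.lift j _ hr)
  refine ⟨f, θ.hom, hqf, ?_⟩
  have h3 : CommRingCat.ofHom θ.hom = θ := rfl
  rw [h3, hθ, IsOpenImmersion.lift_fac]

/-- Homomorphisms into a mono are determined by the composition. -/
theorem hom_inj {V : Scheme.{0}} {B : CommRingCat.{0}} (j : Spec B ⟶ V) [Mono j]
    {R : Type} [CommRing R] (φ ψ : B →+* R)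
    (h : Spec.map (CommRingCat.ofHom φ) ≫ j = Spec.map (CommRingCat.ofHom ψ) ≫ j) : φ = ψ := by
  rw [cancel_mono] at h
  exact congrArg CommRingCat.Hom.hom (Spec.map_injective h)

theorem map_comp {R S T : Type} [CommRing R] [CommRing S] [CommRing T] (f : R →+* S)
    (g : S →+* T) : Spec.map (CommRingCat.ofHom (g.comp f)) =
      Spec.map (CommRingCat.ofHom g) ≫ Spec.map (CommRingCat.ofHom f) := by
  rw [← Spec.map_comp, ← CommRingCat.ofHom_comp]

/-- Two morphisms from the spectrum of a domain `R` which agree over the fraction field agree near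
every prime at which both have values in a common affine chart. -/
theorem near {V : Scheme.{0}} {R : Type} [CommRing R] [IsDomain R] {K : Type} [Field K]
    [Algebra R K] [IsFractionRing R K] {B : CommRingCat.{0}}
    (j : Spec B ⟶ V) [IsOpenImmersion j]
    (y y' : Spec (CommRingCat.of R) ⟶ V)
    (hK : Spec.map (CommRingCat.ofHom (algebraMap R K)) ≫ y =
      Spec.map (CommRingCat.ofHom (algebraMap R K)) ≫ y')
    (q : PrimeSpectrum R) (hb : y q ∈ Set.range j) (hb' : y' q ∈ Set.range j) :
    ∃ f : R, f ∉ q.asIdeal ∧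
      Spec.map (CommRingCat.ofHom (algebraMap R (Localization.Away f))) ≫ y =
        Spec.map (CommRingCat.ofHom (algebraMap R (Localization.Away f))) ≫ y' := by
  classical
  obtain ⟨f, θ, hf, hθ⟩ := loc y j q hb
  obtain ⟨f', θ', hf', hθ'⟩ := loc y' j q hb'
  have hff : f * f' ∉ q.asIdeal := fun hh => (q.2.mem_or_mem hh).elim hf hf'
  refine ⟨f * f', hff, ?_⟩
  have hne : f * f' ≠ 0 := fun h0 => hff (by rw [h0]; exact zero_mem _)
  let R' := Localization.Away (f * f')
  have hu : IsUnit (algebraMap R R' f) := by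
    have h1 : IsUnit (algebraMap R R' (f * f')) :=
      IsLocalization.map_units R' (⟨f * f', Submonoid.mem_powers _⟩ : Submonoid.powers (f * f'))
    rw [map_mul] at h1
    exact isUnit_of_mul_isUnit_left h1
  have hu' : IsUnit (algebraMap R R' f') := by
    have h1 : IsUnit (algebraMap R R' (f * f')) :=
      IsLocalization.map_units R' (⟨f * f', Submonoid.mem_powers _⟩ : Submonoid.powers (f * f'))
    rw [map_mul] at h1
    exact isUnit_of_mul_isUnit_right h1
  let α : Localization.Away f →+* R' := IsLocalization.Away.lift f (g := algebraMap R R') hu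
  let α' : Localization.Away f' →+* R' := IsLocalization.Away.lift f' (g := algebraMap R R') hu'
  have hα : α.comp (algebraMap R _) = algebraMap R R' := IsLocalization.Away.lift_comp _ _
  have hα' : α'.comp (algebraMap R _) = algebraMap R R' := IsLocalization.Away.lift_comp _ _
  have e1 : Spec.map (CommRingCat.ofHom (algebraMap R R')) ≫ y =
      Spec.map (CommRingCat.ofHom (α.comp θ)) ≫ j := by
    rw [map_comp θ α, Category.assoc, hθ, ← Category.assoc, ← map_comp, hα]
  have e2 : Spec.map (CommRingCat.ofHom (algebraMap R R')) ≫ y' =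
      Spec.map (CommRingCat.ofHom (α'.comp θ')) ≫ j := by
    rw [map_comp θ' α', Category.assoc, hθ', ← Category.assoc, ← map_comp, hα']
  -- compare over the fraction field
  have hunit : IsUnit (algebraMap R K (f * f')) := by
    rw [isUnit_iff_ne_zero]
    exact fun h0 => hne ((IsFractionRing.injective R K) (by rw [h0, map_zero]))
  let κ : R' →+* K := IsLocalization.Away.lift (f * f') (g := algebraMap R K) hunit
  have hκ : κ.comp (algebraMap R R') = algebraMap R K := IsLocalization.Away.lift_comp _ _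
  have hκinj : Function.Injective κ := by
    rw [injective_iff_map_eq_zero]
    intro a ha
    obtain ⟨⟨r, s⟩, hrs⟩ := IsLocalization.surj (Submonoid.powers (f * f')) a
    have h1 := congrArg κ hrs
    rw [map_mul, ha, zero_mul] at h1
    have h2 : algebraMap R K r = 0 := by
      rw [← hκ]
      exact h1.symm
    have h3 : r = 0 := (IsFractionRing.injective R K) (by rw [h2, map_zero])
    simp only [h3, map_zero] at hrs
    have h4 : IsUnit (algebraMap R R' s.1) := IsLocalization.map_units R' s
    exact (h4.mul_left_eq_zero).1 hrs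
  have h5 : (κ.comp (α.comp θ)) = (κ.comp (α'.comp θ')) := by
    apply hom_inj j
    rw [map_comp (α.comp θ) κ, Category.assoc, ← e1, map_comp (α'.comp θ') κ, Category.assoc,
      ← e2, ← Category.assoc, ← Category.assoc, ← map_comp, hκ, hK]
  have h6 : α.comp θ = α'.comp θ' := by
    ext a
    exact hκinj (congrArg (fun t : B →+* K => t a) h5)
  rw [e1, e2, h6]

/-- A prime outside `f` is in the image of the spectrum of the localization. -/
theorem eq_of_away {V : Scheme.{0}} {R : Type} [CommRing R] (y y' : Spec (CommRingCat.of R) ⟶ V)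
    (q : PrimeSpectrum R) (f : R) (hf : f ∉ q.asIdeal)
    (h : Spec.map (CommRingCat.ofHom (algebraMap R (Localization.Away f))) ≫ y =
        Spec.map (CommRingCat.ofHom (algebraMap R (Localization.Away f))) ≫ y') : y q = y' q := by
  have h1 : q ∈ Set.range (PrimeSpectrum.comap (algebraMap R (Localization.Away f))) := by
    rw [PrimeSpectrum.localization_away_comap_range _ f]
    exact hf
  obtain ⟨v, hv⟩ := h1
  have h2 : Spec.map (CommRingCat.ofHom (algebraMap R (Localization.Away f))) v = q := hv
  have h3 := congrArg (fun t : Spec (CommRingCat.of (Localization.Away f)) ⟶ V => t v) h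
  simp only [Scheme.Hom.comp_apply] at h3
  rw [h2] at h3
  exact h3

/-- Two morphisms from the spectrum of a domain `R` which agree over the fraction field are equal
if at every prime both have values in a common affine chart. -/
theorem eq_of_charts {V : Scheme.{0}} {R : Type} [CommRing R] [IsDomain R] {K : Type} [Field K]
    [Algebra R K] [IsFractionRing R K] {β : Type} (B : β → CommRingCat.{0})
    (j : ∀ b, Spec (B b) ⟶ V) [∀ b, IsOpenImmersion (j b)]
    (y y' : Spec (CommRingCat.of R) ⟶ V)
    (hK : Spec.map (CommRingCat.ofHom (algebraMap R K)) ≫ y =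
      Spec.map (CommRingCat.ofHom (algebraMap R K)) ≫ y')
    (h : ∀ q : PrimeSpectrum R, ∃ b, y q ∈ Set.range (j b) ∧ y' q ∈ Set.range (j b)) : y = y' := by
  classical
  have key : ∀ q : PrimeSpectrum R, ∃ f : R, f ∉ q.asIdeal ∧
      Spec.map (CommRingCat.ofHom (algebraMap R (Localization.Away f))) ≫ y =
        Spec.map (CommRingCat.ofHom (algebraMap R (Localization.Away f))) ≫ y' := by
    intro q
    obtain ⟨b, hb, hb'⟩ := h q
    exact near (j b) y y' hK q hb hb'
  choose f hf hf' using key
  -- an affine open cover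
  have hspan : Ideal.span (Set.range f) = ⊤ := by
    by_contra hcon
    obtain ⟨m, hm, hle⟩ := Ideal.exists_le_maximal _ hcon
    exact hf ⟨m, hm.isPrime⟩ (hle (Ideal.subset_span ⟨⟨m, hm.isPrime⟩, rfl⟩))
  refine Scheme.Cover.hom_ext (Scheme.affineOpenCoverOfSpanRangeEqTop f hspan).openCover _ _ ?_
  intro q
  exact hf' q

/-- The value at the generic point. -/
theorem generic_mem {V : Scheme.{0}} {R : Type} [CommRing R] [IsDomain R]
    (y : Spec (CommRingCat.of R) ⟶ V) {B : CommRingCat.{0}} (j : Spec B ⟶ V) [IsOpenImmersion j]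
    (q : PrimeSpectrum R) (hq : y q ∈ Set.range j) : y (⊥ : PrimeSpectrum R) ∈ Set.range j := by
  have h1 : (⊥ : PrimeSpectrum R) ⤳ q := by
    rw [← PrimeSpectrum.le_iff_specializes]
    exact bot_le
  have h2 : (y (⊥ : PrimeSpectrum R)) ⤳ y q := h1.map y.continuous
  exact h2.mem_open j.opensRange.isOpen hq

/-- Only finitely many morphisms `Spec R ⟶ V`, `R` a Dedekind domain, extend a given point over the
fraction field (`V` need not be separated). -/
theorem finfib {V : Scheme.{0}} {R : Type} [CommRing R] [IsDedekindDomain R] {K : Type}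
    [Field K] [Algebra R K] [IsFractionRing R K] {β : Type} [Finite β] (B : β → CommRingCat.{0})
    (j : ∀ b, Spec (B b) ⟶ V) [∀ b, IsOpenImmersion (j b)]
    (hcov : ∀ v : V, ∃ b, v ∈ Set.range (j b)) (p : Spec (CommRingCat.of K) ⟶ V) :
    {y : Spec (CommRingCat.of R) ⟶ V |
      Spec.map (CommRingCat.ofHom (algebraMap R K)) ≫ y = p}.Finite := by
  classical
  by_cases hne : ∃ y₀ : Spec (CommRingCat.of R) ⟶ V,
      Spec.map (CommRingCat.ofHom (algebraMap R K)) ≫ y₀ = p
  swap
  · push Not at hne
    rw [show {y : Spec (CommRingCat.of R) ⟶ V |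
      Spec.map (CommRingCat.ofHom (algebraMap R K)) ≫ y = p} = ∅ from
        Set.eq_empty_iff_forall_notMem.2 (fun y hy => hne y hy)]
    exact Set.finite_empty
  obtain ⟨y₀, hy₀⟩ := hne
  have hgen : ∀ y : Spec (CommRingCat.of R) ⟶ V,
      Spec.map (CommRingCat.ofHom (algebraMap R K)) ≫ y = p →
      y (⊥ : PrimeSpectrum R) = y₀ (⊥ : PrimeSpectrum R) := by
    intro y hy
    have h1 : Spec.map (CommRingCat.ofHom (algebraMap R K)) (⊥ : PrimeSpectrum K) =
        (⊥ : PrimeSpectrum R) := by
      apply PrimeSpectrum.ext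
      change Ideal.comap (algebraMap R K) ⊥ = ⊥
      exact (RingHom.injective_iff_ker_eq_bot _).1 (IsFractionRing.injective R K)
    have h2 := congrArg (fun t : Spec (CommRingCat.of K) ⟶ V => t (⊥ : PrimeSpectrum K))
      (hy.trans hy₀.symm)
    simp only [Scheme.Hom.comp_apply] at h2
    rw [h1] at h2
    exact h2
  -- the bad primes
  let Z : Set (PrimeSpectrum R) := ⋃ b ∈ {b : β | y₀ (⊥ : PrimeSpectrum R) ∈ Set.range (j b)},
    {q | y₀ q ∉ Set.range (j b)}
  have hZ : Z.Finite := by
    refine Set.Finite.biUnion (Set.toFinite _) fun b hb => ?_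
    refine Vp.finite_of_isClosed _ ?_ (fun h => h hb)
    exact (y₀ ⁻¹ᵁ (j b).opensRange).isOpen.isClosed_compl
  choose idx hidx using fun v : V => hcov v
  have hfinZ : Finite Z := hZ
  let code : (Spec (CommRingCat.of R) ⟶ V) → (Z → β) := fun y q => idx (y q.1)
  refine Set.Finite.of_finite_image (f := code) (Set.toFinite _) ?_
  intro y hy y' hy' hcode
  have hyy : Spec.map (CommRingCat.ofHom (algebraMap R K)) ≫ y =
      Spec.map (CommRingCat.ofHom (algebraMap R K)) ≫ y' := hy.trans hy'.symm
  refine eq_of_charts B j y y' hyy fun q => ?_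
  by_cases hq : q ∈ Z
  · have h1 : idx (y q) = idx (y' q) := congrFun hcode ⟨q, hq⟩
    refine ⟨idx (y q), hidx _, ?_⟩
    rw [h1]
    exact hidx _
  · -- both agree with `y₀` at `q`
    have hval : ∀ x : Spec (CommRingCat.of R) ⟶ V,
        Spec.map (CommRingCat.ofHom (algebraMap R K)) ≫ x = p → x q = y₀ q := by
      intro x hx
      obtain ⟨b, hb⟩ := hcov (x q)
      have h1 := generic_mem x (j b) q hb
      rw [hgen x hx] at h1
      have h2 : y₀ q ∈ Set.range (j b) := by
        by_contra hcon
        exact hq (Set.mem_biUnion h1 hcon)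
      obtain ⟨f, hf, hff⟩ := near (j b) x y₀ (hx.trans hy₀.symm) q hb h2
      exact eq_of_away x y₀ q f hf hff
    refine ⟨idx (y q), hidx _, ?_⟩
    rw [hval y' hy', ← hval y hy]
    exact hidx _

/-- An `S`-integral point is, at a prime `q` outside `S`, given by a point of a chart with
`q`-integral coordinates. -/
theorem intq {V : Scheme.{0}} (F : Type) [Field F] [NumberField F]
    (S : Finset (HeightOneSpectrum (𝓞 F))) {β : Type} (B : β → CommRingCat.{0})
    (j : ∀ b, Spec (B b) ⟶ V) [∀ b, IsOpenImmersion (j b)]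
    (hcov : ∀ v : V, ∃ b, v ∈ Set.range (j b)) (y : Spec (CommRingCat.of (SInt F S)) ⟶ V)
    (q : HeightOneSpectrum (𝓞 F)) (hq : q ∉ S) :
    ∃ (b : β) (P : B b →+* F), Spec.map (CommRingCat.ofHom (algebraMap (SInt F S) F)) ≫ y =
      Spec.map (CommRingCat.ofHom P) ≫ j b ∧ ∀ z, FinitePlace.mk q (P z) ≤ 1 := by
  classical
  let v : AbsoluteValue F ℝ := (FinitePlace.mk q).1
  have hv1 : ∀ x : SInt F S, v (x : F) ≤ 1 := fun x => SUnit.mk_le_one x.2 hq
  have hna : ∀ a b : F, v (a + b) ≤ max (v a) (v b) := FinitePlace.add_le (FinitePlace.mk q)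
  let 𝔮 : Ideal (SInt F S) :=
    { carrier := {x | v (x : F) < 1}
      add_mem' := by
        intro a b ha hb
        exact lt_of_le_of_lt (hna _ _) (max_lt ha hb)
      zero_mem' := by
        show v ((0 : SInt F S) : F) < 1
        rw [ZeroMemClass.coe_zero, map_zero]
        exact one_pos
      smul_mem' := by
        intro c x hx
        show v ((c • x : SInt F S) : F) < 1
        rw [smul_eq_mul, MulMemClass.coe_mul, map_mul]
        calc v (c : F) * v (x : F) ≤ 1 * v (x : F) :=
              mul_le_mul_of_nonneg_right (hv1 c) (v.nonneg _)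
          _ < 1 := by rw [one_mul]; exact hx }
  have hprime : 𝔮.IsPrime := by
    refine ⟨?_, ?_⟩
    · intro h
      have h1 : (1 : SInt F S) ∈ 𝔮 := by rw [h]; trivial
      have h2 : v ((1 : SInt F S) : F) < 1 := h1
      rw [OneMemClass.coe_one, map_one] at h2
      exact lt_irrefl _ h2
    · intro a b hab
      by_contra hcon
      push Not at hcon
      have h1 : ¬ v (a : F) < 1 := hcon.1
      have h2 : ¬ v (b : F) < 1 := hcon.2
      have h3 : v ((a * b : SInt F S) : F) < 1 := hab
      rw [MulMemClass.coe_mul, map_mul, le_antisymm (hv1 a) (not_lt.1 h1),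
        le_antisymm (hv1 b) (not_lt.1 h2), one_mul] at h3
      exact lt_irrefl _ h3
  obtain ⟨b, hb⟩ := hcov (y (⟨𝔮, hprime⟩ : PrimeSpectrum (SInt F S)))
  obtain ⟨f, θ, hf, hθ⟩ := loc y (j b) ⟨𝔮, hprime⟩ hb
  have hf1 : v (f : F) = 1 := le_antisymm (hv1 f) (not_lt.1 (fun h => hf h))
  have hf0 : (f : F) ≠ 0 := by
    intro h0
    rw [h0, map_zero] at hf1
    exact zero_ne_one hf1
  have hunit : IsUnit (algebraMap (SInt F S) F f) := isUnit_iff_ne_zero.2 hf0
  let κ : Localization.Away f →+* F := IsLocalization.Away.lift f (g := algebraMap (SInt F S) F) hunit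
  have hκ : κ.comp (algebraMap (SInt F S) _) = algebraMap (SInt F S) F :=
    IsLocalization.Away.lift_comp _ _
  refine ⟨b, κ.comp θ, ?_, fun z => ?_⟩
  · rw [map_comp θ κ, Category.assoc, hθ, ← Category.assoc, ← map_comp, hκ]
  · obtain ⟨⟨r, s⟩, hrs⟩ := IsLocalization.surj (Submonoid.powers f) (θ z)
    obtain ⟨n, hn⟩ := s.2
    have h1 := congrArg κ hrs
    rw [map_mul] at h1
    have h2 : κ (algebraMap (SInt F S) _ s.1) = (f : F) ^ n := by
      rw [← hn]
      have : κ (algebraMap (SInt F S) (Localization.Away f) (f ^ n)) =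
        algebraMap (SInt F S) F (f ^ n) := congrArg (fun t : SInt F S →+* F => t (f ^ n)) hκ
      rw [map_pow (algebraMap (SInt F S) F)] at this
      exact this
    have h3 : κ (algebraMap (SInt F S) _ r) = (r : F) :=
      congrArg (fun t : SInt F S →+* F => t r) hκ
    rw [h2, h3] at h1
    have h4 : v (κ (θ z)) ≤ 1 := by
      have h5 := congrArg v h1
      rw [map_mul, map_pow, hf1, one_pow, mul_one] at h5
      rw [h5]
      exact hv1 r
    exact h4

/-- Schemes locally of finite type which are quasi-compact have a finite atlas. -/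
theorem exists_atlas {V : Scheme.{0}} {R : CommRingCat.{0}} (π : V ⟶ Spec R)
    [LocallyOfFiniteType π] [QuasiCompact π] :
    ∃ (n : ℕ) (B : Fin n → CommRingCat.{0}) (j : ∀ b, Spec (B b) ⟶ V) (ψ : ∀ b, R →+* B b),
      (∀ b, IsOpenImmersion (j b)) ∧ (∀ v : V, ∃ b, v ∈ Set.range (j b)) ∧
      (∀ b, j b ≫ π = Spec.map (CommRingCat.ofHom (ψ b))) ∧ ∀ b, (ψ b).FiniteType := by
  classical
  have hc : CompactSpace V := by
    have := QuasiCompact.isCompact_preimage (f := π) Set.univ isOpen_univ isCompact_univ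
    rw [Set.preimage_univ] at this
    exact ⟨this⟩
  have h1 : ∀ v : V, ∃ U : V.Opens, IsAffineOpen U ∧ v ∈ U := by
    intro v
    obtain ⟨U, hU, hv, -⟩ := exists_isAffineOpen_mem_and_subset (X := V) (x := v) (U := ⊤) trivial
    exact ⟨U, hU, hv⟩
  choose U hU hvU using h1
  obtain ⟨t, ht⟩ := isCompact_univ.elim_finite_subcover (fun v : V => (U v : Set V))
    (fun v => (U v).isOpen) (fun v _ => Set.mem_iUnion.2 ⟨v, hvU v⟩)
  let e := t.equivFin
  refine ⟨t.card, fun k => Γ(V, U (e.symm k).1), fun k => (hU (e.symm k).1).fromSpec,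
    fun k => (Spec.preimage ((hU (e.symm k).1).fromSpec ≫ π)).hom, fun k => inferInstance,
    fun v => ?_, fun k => ?_, fun k => ?_⟩
  · obtain ⟨w, hw, hvw⟩ := Set.mem_iUnion₂.1 (ht (Set.mem_univ v))
    refine ⟨e ⟨w, hw⟩, ?_⟩
    rw [(hU _).range_fromSpec, e.symm_apply_apply]
    exact hvw
  · have : CommRingCat.ofHom (Spec.preimage ((hU (e.symm k).1).fromSpec ≫ π)).hom =
      Spec.preimage ((hU (e.symm k).1).fromSpec ≫ π) := rfl
    rw [this, Spec.map_preimage]
  · have h2 : LocallyOfFiniteType (Spec.map (Spec.preimage ((hU (e.symm k).1).fromSpec ≫ π))) := by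
      rw [Spec.map_preimage]
      infer_instance
    exact (HasRingHomProperty.Spec_iff (P := @LocallyOfFiniteType)).1 h2

end Pool.Agent.Work.MP_e97a4d_nt.Up
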