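import Pool.Agent.Work.MP_e97a4d_nt.UP.Defs
import Pool.Agent.Work.MP_e97a4d_nt.UP.Sch

/-!
# VAtlas (M): existence of a finite atlas

`V` is quasi-compact, because `π` is quasi-compact and the target is affine
(`QuasiCompact`, `isCompact_univ`), so finitely many affine opens `U` cover `V`
(`Scheme.affineCover`/`affineOpens`, `CompactSpace.elim_finite_subcover`). Take `B = Γ(V, U)`,
`j = hU.fromSpec` (an open immersion with range `U`), `ψ` the ring homomorphism with
`j ≫ π = Spec.map ψ` (`Spec.map_surjective`). It is of finite type
(`LocallyOfFiniteType`: `j ≫ π` is locally of finite type, and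
`HasRingHomProperty.Spec_iff`/`LocallyOfFiniteType` for `Spec.map` is `RingHom.FiniteType`), so there
is a surjection `MvPolynomial (Fin n) (𝓞 F₀) → B` over `ψ`
(`Algebra.FiniteType.iff_quotient_mvPolynomial''` or `RingHom.FiniteType`), i.e. finitely many
generators.
-/

set_option autoImplicit false

noncomputable section

namespace Pool.Agent.Work.MP_e97a4d_nt

open AlgebraicGeometry CategoryTheory IsDedekindDomain NumberField

theorem nonempty_atlas {F₀ : Type} [Field F₀] {V : Scheme.{0}}
    (π : V ⟶ Spec (CommRingCat.of (𝓞 F₀))) [LocallyOfFiniteType π] [QuasiCompact π] :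
    Nonempty (Atlas π) := by
  classical
  obtain ⟨n, B, j, ψ, hoi, hcov, hstr, hft⟩ := Up.exists_atlas π
  have h1 : ∀ b, ∃ (m : ℕ) (t : Fin m → B b),
      Function.Surjective (MvPolynomial.eval₂Hom (ψ b) t) := by
    intro b
    let _ : Algebra (𝓞 F₀) (B b) := (ψ b).toAlgebra
    have hfin' : Algebra.FiniteType (𝓞 F₀) (B b) := hft b
    obtain ⟨m, f, hf⟩ := Algebra.FiniteType.iff_quotient_mvPolynomial''.1 hfin'
    refine ⟨m, fun k => f (MvPolynomial.X k), ?_⟩
    have h1 : (MvPolynomial.aeval (fun k : Fin m => f (MvPolynomial.X k)) :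
        MvPolynomial (Fin m) (𝓞 F₀) →ₐ[𝓞 F₀] B b) = f := by
      apply MvPolynomial.algHom_ext
      intro k
      simp
    have h2 : Function.Surjective (MvPolynomial.aeval (fun k : Fin m => f (MvPolynomial.X k)) :
        MvPolynomial (Fin m) (𝓞 F₀) →ₐ[𝓞 F₀] B b) := by rw [h1]; exact hf
    exact h2
  choose m t ht using h1
  exact ⟨{ β := Fin n
           fin := inferInstance
           B := B
           j := j
           oi := hoi
           cov := hcov
           ψ := ψ
           str := hstr
           ι := fun b => Fin (m b)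
           finι := fun b => inferInstance
           x := t
           gen := ht }⟩

end Pool.Agent.Work.MP_e97a4d_nt
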