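import Pool.Agent.Work.MP_e97a4d_nt.UP.CCMain
import Pool.Agent.Work.MP_e97a4d_nt.UP.VAtlas

/-!
# CCFin (M-L): if all images of the multiplicative group are in `V'`, so are all unit curves

`exists_units_of_unitRing`: every element of `unitRing` is a finite sum `∑ ε_r w_r z` with `w_r` entire
without zeros and `ε_r = ± 1` (`Subring.closure_induction`: these sums contain `0`, `1`, the generators,
and are closed under sums, negatives and products). Take for `u` the tuple of all the `w_r` which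
occur for the finitely many `p l`, and for `n l` the corresponding sum of variables with signs.
Main theorem: let `f, A, j, g, D` be as in `CondIunit`, `𝒜` an atlas (`nonempty_atlas`). The open preimages
under `j` of the ranges of the charts cover `Spec A`, which is quasi-compact, so finitely many basic
opens `D(a_s)`, each contained in the preimage of the range of a chart `b_s`, cover `Spec A`; on `D(a_s)`
the morphism `j` is given by `θ_s : 𝒜.B b_s →+* Localization.Away a_s` (`IsOpenImmersion.lift`,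
`Spec.map_surjective`), `θ_s (x b_s l) = a_{s,l} / a_s ^ e`. For the finitely many elements `a_s`,
`a_{s,l}` of `A` take `p, q ∈ unitRing`, `q ≠ 0`, with `g z a * q z = p z` on `D`; let `u`, `p̂`, `q̂` be
given by `exists_units_of_unitRing` for all these `p, q`. The `q` are nonzero entire functions, so
`D₁ = {z ∈ D | all q z ≠ 0}` is open and not empty; on `D₁` each `g z a = p z / q z` is continuous. Let
`z₁ ∈ D₁`. The prime `ker (g z₁)` is in some `D(a_s)`: `g z₁ a_s ≠ 0`.
`Ω = {z ∈ D₁ | g z a_s ≠ 0}` is open and contains `z₁`. For `z ∈ Ω`: `f z = spt (𝒜.j b_s) (g' z)` with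
`g' z = (awayLift (g z) a_s) ∘ θ_s`, and
`g' z (x b_s l) = g z a_{s,l} / (g z a_s) ^ e = (p_l q₀ ^ e) / (q_l p₀ ^ e)`, so `CurPar` holds with
`N l = p̂_l * q̂₀ ^ e`, `D l = q̂_l * p̂₀ ^ e`. `cc_main`.
-/

set_option autoImplicit false

noncomputable section

namespace Pool.Agent.Work.MP_e97a4d_nt

open AlgebraicGeometry CategoryTheory IsDedekindDomain NumberField Pool.Agent.Work.UP

variable {F₀ : Type} [Field F₀] {V V' : Scheme.{0}}

/-- The values of the Laurent polynomials at the entire units `u`. -/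
private def RR {d : ℕ} (u : Fin d → ℂ → ℂ) (hu : IsUC u) : Subring (ℂ → ℂ) :=
  (RingHom.pi fun z => (evk (uz u hu z) : Lp ℂ d →+* ℂ)).range

private theorem mem_RR {d : ℕ} {u : Fin d → ℂ → ℂ} {hu : IsUC u} {p : ℂ → ℂ} :
    p ∈ RR u hu ↔ ∃ n : Lp ℂ d, ∀ z, p z = evk (uz u hu z) n := by
  constructor
  · rintro ⟨n, rfl⟩
    exact ⟨n, fun z => rfl⟩
  · rintro ⟨n, hn⟩
    exact ⟨n, funext fun z => (hn z).symm⟩

/-- One more unit. -/
private theorem RR_snoc {d : ℕ} (u : Fin d → ℂ → ℂ) (hu : IsUC u) {w : ℂ → ℂ}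
    (hw : Differentiable ℂ w ∧ ∀ z, w z ≠ 0) :
    ∃ (d' : ℕ) (u' : Fin d' → ℂ → ℂ) (hu' : IsUC u'), RR u hu ≤ RR u' hu' ∧ w ∈ RR u' hu' := by
  have hu' : IsUC (Fin.snoc (α := fun _ => ℂ → ℂ) u w : Fin (d + 1) → ℂ → ℂ) := by
    intro i
    refine Fin.lastCases ?_ (fun i => ?_) i
    · rw [Fin.snoc_last]
      exact hw
    · rw [Fin.snoc_castSucc]
      exact hu i
  refine ⟨d + 1, _, hu', ?_, ?_⟩
  · intro p hp
    obtain ⟨n, hn⟩ := mem_RR.1 hp
    refine mem_RR.2 ⟨lincl n, fun z => ?_⟩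
    rw [hn, ev_lincl]
    congr 2
    funext i
    apply Units.ext
    simp [uz]
  · refine mem_RR.2 ⟨AddMonoidAlgebra.single (Pi.single (Fin.last d) 1) 1, fun z => ?_⟩
    rw [ev_single, mon_single_one, map_one, one_mul]
    simp [uz, cu]

private theorem RR_add {p : ℂ → ℂ} (hp : p ∈ unitRing) :
    ∀ {d : ℕ} (u : Fin d → ℂ → ℂ) (hu : IsUC u),
      ∃ (d' : ℕ) (u' : Fin d' → ℂ → ℂ) (hu' : IsUC u'), RR u hu ≤ RR u' hu' ∧ p ∈ RR u' hu' := by
  unfold unitRing at hp
  induction hp using Subring.closure_induction with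
  | mem w hw => exact fun u hu => RR_snoc u hu hw
  | zero => exact fun {d} u hu => ⟨d, u, hu, le_rfl, Subring.zero_mem _⟩
  | one => exact fun {d} u hu => ⟨d, u, hu, le_rfl, Subring.one_mem _⟩
  | add x y _ _ hx hy =>
    intro d u hu
    obtain ⟨d1, u1, hu1, h1, h1'⟩ := hx u hu
    obtain ⟨d2, u2, hu2, h2, h2'⟩ := hy u1 hu1
    exact ⟨d2, u2, hu2, h1.trans h2, Subring.add_mem _ (h2 h1') h2'⟩
  | neg x _ hx =>
    intro d u hu
    obtain ⟨d1, u1, hu1, h1, h1'⟩ := hx u hu
    exact ⟨d1, u1, hu1, h1, Subring.neg_mem _ h1'⟩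
  | mul x y _ _ hx hy =>
    intro d u hu
    obtain ⟨d1, u1, hu1, h1, h1'⟩ := hx u hu
    obtain ⟨d2, u2, hu2, h2, h2'⟩ := hy u1 hu1
    exact ⟨d2, u2, hu2, h1.trans h2, Subring.mul_mem _ (h2 h1') h2'⟩

/-- Finitely many elements of `unitRing` are values of Laurent polynomials at entire units. -/
theorem exists_units_of_unitRing (ι : Type) [Finite ι] (p : ι → ℂ → ℂ)
    (hp : ∀ l, p l ∈ unitRing) :
    ∃ (d : ℕ) (u : Fin d → ℂ → ℂ) (hu : IsUC u) (n : ι → Lp ℂ d),
      ∀ l z, p l z = evk (uz u hu z) (n l) := by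
  classical
  have := Fintype.ofFinite ι
  have key : ∀ s : Finset ι, ∃ (d : ℕ) (u : Fin d → ℂ → ℂ) (hu : IsUC u),
      ∀ l ∈ s, p l ∈ RR u hu := by
    intro s
    induction s using Finset.induction_on with
    | empty => exact ⟨0, Fin.elim0, fun i => i.elim0, fun l hl => absurd hl (Finset.notMem_empty l)⟩
    | insert a s _ ih =>
      obtain ⟨d, u, hu, h⟩ := ih
      obtain ⟨d', u', hu', h1, h2⟩ := RR_add (hp a) u hu
      refine ⟨d', u', hu', fun l hl => ?_⟩
      rcases Finset.mem_insert.1 hl with rfl | hl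
      · exact h2
      · exact h1 (h l hl)
  obtain ⟨d, u, hu, h⟩ := key Finset.univ
  choose n hn using fun l => mem_RR.1 (h l (Finset.mem_univ l))
  exact ⟨d, u, hu, n, hn⟩

private theorem unitRing_diff {p : ℂ → ℂ} (hp : p ∈ unitRing) : Differentiable ℂ p := by
  unfold unitRing at hp
  induction hp using Subring.closure_induction with
  | mem w hw => exact hw.1
  | zero => exact differentiable_const 0
  | one => exact differentiable_const 1
  | add x y _ _ hx hy => exact hx.add hy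
  | neg x _ hx => exact hx.neg
  | mul x y _ _ hx hy => exact hx.mul hy

/-- Finitely many nonzero entire functions have no zeros on a smaller open set. -/
private theorem exists_open_ne_zero {ι : Type} [Finite ι] (q : ι → ℂ → ℂ)
    (hq : ∀ l, Differentiable ℂ (q l)) (hq0 : ∀ l, q l ≠ 0) {D : Set ℂ} (hD : IsOpen D)
    (hne : D.Nonempty) : {z ∈ D | ∀ l, q l z ≠ 0}.Nonempty := by
  classical
  have := Fintype.ofFinite ι
  have key : ∀ s : Finset ι, {z ∈ D | ∀ l ∈ s, q l z ≠ 0}.Nonempty ∧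
      IsOpen {z ∈ D | ∀ l ∈ s, q l z ≠ 0} := by
    intro s
    induction s using Finset.induction_on with
    | empty => simpa using ⟨hne, hD⟩
    | insert a s _ ih =>
      obtain ⟨ih1, ih2⟩ := ih
      have e : {z ∈ D | ∀ l ∈ insert a s, q l z ≠ 0} =
          {z ∈ D | ∀ l ∈ s, q l z ≠ 0} ∩ {z | q a z ≠ 0} := by
        ext z
        simp only [Finset.mem_insert, forall_eq_or_imp, Set.mem_inter_iff, Set.mem_ofPred_eq]
        tauto
      rw [e]
      refine ⟨?_, ih2.inter (isOpen_ne_fun (hq a).continuous continuous_const)⟩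
      by_contra hcon
      rw [Set.not_nonempty_iff_eq_empty] at hcon
      obtain ⟨z₀, hz₀⟩ := ih1
      apply hq0 a
      have h1 : q a =ᶠ[nhds z₀] 0 := by
        filter_upwards [ih2.mem_nhds hz₀] with z hz
        by_contra h
        have : z ∈ {z ∈ D | ∀ l ∈ s, q l z ≠ 0} ∩ {z | q a z ≠ 0} := ⟨hz, h⟩
        rw [hcon] at this
        exact this
      have h2 : AnalyticOnNhd ℂ (q a) Set.univ := fun z _ => (hq a).analyticAt z
      exact h2.eq_of_eventuallyEq (fun z _ => analyticAt_const) h1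
  obtain ⟨z, hz, h⟩ := (key Finset.univ).1
  exact ⟨z, hz, fun l => h l (Finset.mem_univ l)⟩

/-- A finite cover of an affine scheme by basic opens on which a morphism is in a chart. -/
private theorem exists_cover {π : V ⟶ Spec (CommRingCat.of (𝓞 F₀))} (𝒜 : Atlas π)
    (A : CommRingCat.{0}) (j : Spec A ⟶ V) :
    ∃ T : Finset A, (∀ a ∈ T, ∃ (b : 𝒜.β) (θ : 𝒜.B b →+* Localization.Away a),
      Spec.map (CommRingCat.ofHom θ) ≫ 𝒜.j b =
        Spec.map (CommRingCat.ofHom (algebraMap A (Localization.Away a))) ≫ j) ∧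
      ∀ h : A →+* ℂ, ∃ a ∈ T, h a ≠ 0 := by
  set X : Set A := {a | ∃ (b : 𝒜.β) (θ : 𝒜.B b →+* Localization.Away a),
      Spec.map (CommRingCat.ofHom θ) ≫ 𝒜.j b =
        Spec.map (CommRingCat.ofHom (algebraMap A (Localization.Away a))) ≫ j} with hX
  have htop : Ideal.span X = ⊤ := by
    by_contra hne
    obtain ⟨M, hM, hle⟩ := Ideal.exists_le_maximal _ hne
    obtain ⟨b, hb⟩ := 𝒜.cov (j ⟨M, hM.isPrime⟩)
    have := 𝒜.oi b
    obtain ⟨a, θ, ha, hθ⟩ := Up.loc (R := A) j (𝒜.j b) ⟨M, hM.isPrime⟩ hb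
    exact ha (hle (Ideal.subset_span ⟨b, θ, hθ⟩))
  have h1 : (1 : A) ∈ Ideal.span X := by
    rw [htop]
    trivial
  obtain ⟨T, hTX, hT⟩ := Submodule.mem_span_finite_of_mem_span h1
  refine ⟨T, fun a ha => hTX ha, fun h => ?_⟩
  by_contra hcon
  push Not at hcon
  have h2 : Ideal.span (T : Set A) ≤ RingHom.ker h := Ideal.span_le.2 fun a ha => hcon a ha
  have h3 : h 1 = 0 := h2 hT
  rw [map_one] at h3
  exact one_ne_zero h3

theorem condIunit_of_condGm [NumberField F₀] (σ : F₀ →+* ℂ)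
    (π : V ⟶ Spec (CommRingCat.of (𝓞 F₀))) [LocallyOfFiniteType π] [QuasiCompact π]
    (i : V' ⟶ V) [IsClosedImmersion i] (hGm : CondGm σ π i) : CondIunit σ π i := by
  classical
  intro f hf A j g D hDo hDne hfg hpq z
  obtain ⟨𝒜⟩ := nonempty_atlas π
  obtain ⟨T, hT, hcov⟩ := exists_cover 𝒜 A j
  choose b θ hθ using hT
  have hfinι : ∀ a : T, Finite (𝒜.ι (b a.1 a.2)) := fun a => 𝒜.finι _
  -- numerators of the images of the generators
  have hnum : ∀ (a : T) (l : 𝒜.ι (b a.1 a.2)), ∃ (n : ℕ) (y : A),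
      θ a.1 a.2 (𝒜.x (b a.1 a.2) l) * algebraMap A (Localization.Away (a : A)) ((a : A) ^ n) =
        algebraMap A (Localization.Away (a : A)) y := by
    intro a l
    obtain ⟨n, y, h⟩ := IsLocalization.Away.surj (a : A) (θ a.1 a.2 (𝒜.x (b a.1 a.2) l))
    exact ⟨n, y, by rw [map_pow]; exact h⟩
  choose nn yy hyy using hnum
  -- the finitely many elements
  let el : (Σ a : T, Option (𝒜.ι (b a.1 a.2))) → A := fun e => match e with
    | ⟨a, none⟩ => (a : A)
    | ⟨a, some l⟩ => yy a l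
  choose p hp q hq hq0 hpqz using hpq
  obtain ⟨d, u, hu, n, hn⟩ := exists_units_of_unitRing ((Σ a : T, Option (𝒜.ι (b a.1 a.2))) ⊕
    (Σ a : T, Option (𝒜.ι (b a.1 a.2)))) (Sum.elim (fun e => p (el e)) (fun e => q (el e))) (by
      rintro (e | e)
      · exact hp _
      · exact hq _)
  have hnp : ∀ e z, p (el e) z = evk (uz u hu z) (n (Sum.inl e)) := fun e z => hn (Sum.inl e) z
  have hnq : ∀ e z, q (el e) z = evk (uz u hu z) (n (Sum.inr e)) := fun e z => hn (Sum.inr e) z
  obtain ⟨z₁, hz₁, hz₁q⟩ := exists_open_ne_zero (fun e => q (el e))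
    (fun e => unitRing_diff (hq _)) (fun e => hq0 _) hDo hDne
  obtain ⟨a, haT, ha⟩ := hcov (g z₁)
  set aT : T := ⟨a, haT⟩ with haT'
  -- the open set
  set Ω : Set ℂ := {z ∈ D | (∀ e, q (el e) z ≠ 0) ∧ p a z ≠ 0} with hΩ
  have hΩo : IsOpen Ω := by
    have e : Ω = D ∩ ((⋂ e, {z | q (el e) z ≠ 0}) ∩ {z | p a z ≠ 0}) := by
      ext z
      simp only [hΩ, Set.mem_ofPred_eq, Set.mem_inter_iff, Set.mem_iInter]
    rw [e]
    exact hDo.inter ((isOpen_iInter_of_finite fun e =>
      isOpen_ne_fun (unitRing_diff (hq _)).continuous continuous_const).inter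
      (isOpen_ne_fun (unitRing_diff (hp _)).continuous continuous_const))
  have hga : ∀ z ∈ Ω, g z a ≠ 0 := by
    rintro z ⟨hzD, hzq, hzp⟩ h
    have h1 := hpqz a z hzD
    rw [h, zero_mul] at h1
    exact hzp h1.symm
  have hz₁Ω : z₁ ∈ Ω := by
    refine ⟨hz₁, hz₁q, ?_⟩
    rw [← hpqz a z₁ hz₁]
    exact mul_ne_zero ha (hz₁q ⟨aT, none⟩)
  -- the points of the chart
  let g' : ℂ → (𝒜.B (b a haT) →+* ℂ) := fun z =>
    if h : IsUnit (g z a) then
      (IsLocalization.Away.lift (S := Localization.Away a) a h).comp (θ a haT)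
    else (IsLocalization.Away.lift (S := Localization.Away a) a (ha.isUnit)).comp (θ a haT)
  have hg' : ∀ z (h : IsUnit (g z a)),
      g' z = (IsLocalization.Away.lift (S := Localization.Away a) a h).comp (θ a haT) :=
    fun z h => dif_pos h
  have hmain : CurPar 𝒜 f (b a haT)
      (fun l => n (Sum.inl ⟨aT, some l⟩) * n (Sum.inr ⟨aT, none⟩) ^ nn aT l)
      (fun l => n (Sum.inr ⟨aT, some l⟩) * n (Sum.inl ⟨aT, none⟩) ^ nn aT l)
      u hu Ω g' := by
    refine ⟨hΩo, ⟨z₁, hz₁Ω⟩, fun z hz => ?_, fun z hz l => ?_⟩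
    · have hun : IsUnit (g z a) := (hga z hz).isUnit
      rw [hg' z hun, hfg z hz.1]
      have h1 : (IsLocalization.Away.lift (S := Localization.Away a) a hun).comp
          (algebraMap A (Localization.Away a)) = g z := IsLocalization.Away.lift_comp a hun
      have h2 : spt (𝒜.j (b a haT)) ((IsLocalization.Away.lift (S := Localization.Away a) a
          hun).comp (θ a haT)) = Spec.map (CommRingCat.ofHom
          (IsLocalization.Away.lift (S := Localization.Away a) a hun)) ≫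
          Spec.map (CommRingCat.ofHom (θ a haT)) ≫ 𝒜.j (b a haT) := by
        rw [spt, CommRingCat.ofHom_comp, Spec.map_comp, Category.assoc]
      rw [h2, hθ a haT, ← Category.assoc, ← Spec.map_comp, ← CommRingCat.ofHom_comp, h1]
    · have hun : IsUnit (g z a) := (hga z hz).isUnit
      obtain ⟨hzD, hzq, hzp⟩ := hz
      have e1 : evk (uz u hu z) (n (Sum.inl ⟨aT, some l⟩)) = p (yy aT l) z :=
        (hnp ⟨aT, some l⟩ z).symm
      have e2 : evk (uz u hu z) (n (Sum.inr ⟨aT, some l⟩)) = q (yy aT l) z :=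
        (hnq ⟨aT, some l⟩ z).symm
      have e3 : evk (uz u hu z) (n (Sum.inl ⟨aT, none⟩)) = p a z :=
        (hnp ⟨aT, none⟩ z).symm
      have e4 : evk (uz u hu z) (n (Sum.inr ⟨aT, none⟩)) = q a z :=
        (hnq ⟨aT, none⟩ z).symm
      have hq1 : q (yy aT l) z ≠ 0 := hzq ⟨aT, some l⟩
      have hq2 : q a z ≠ 0 := hzq ⟨aT, none⟩
      have h3 : g' z (𝒜.x (b a haT) l) * g z a ^ nn aT l = g z (yy aT l) := by
        rw [hg' z hun]
        have h4 := congrArg (IsLocalization.Away.lift (S := Localization.Away a) a hun)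
          (hyy aT l)
        rw [map_mul, IsLocalization.Away.lift_eq, IsLocalization.Away.lift_eq, map_pow] at h4
        exact h4
      have h5 := hpqz a z hzD
      have h6 := hpqz (yy aT l) z hzD
      simp only
      rw [map_mul, map_mul, map_pow, map_pow, e1, e2, e3, e4]
      refine ⟨mul_ne_zero hq1 (pow_ne_zero _ hzp), ?_⟩
      rw [eq_div_iff (mul_ne_zero hq1 (pow_ne_zero _ hzp)), ← h5, ← h6, ← h3, mul_pow]
      ring
  exact cc_main σ i hGm 𝒜 hf d (b a haT) _ _ u hu Ω g' hmain z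

end Pool.Agent.Work.MP_e97a4d_nt
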