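import Pool.Agent.Work.MP_e97a4d_nt.UP.Defs
import Pool.Agent.Work.MP_e97a4d_nt.CurveLemma

/-!
# GmOfI (S-M): unit curves include the images of the multiplicative group

Let `c : Gm ⟶ V` be as in `gmPoints`, not constant, `p = GmPt u ≫ c`. `f z = GmPt (expU z) ≫ c` is an
entire curve (as in `not_condI_of_curve` in `CurveLemma`), `f (log u) = p`. Apply `CondIunit` with
`A = LaurentPolynomial ℂ`, `j = c`, `g z = evL (expU z)`, `D = univ`: `g z a` is a Laurent polynomial in
`exp z`, an element of `unitRing` (sum of terms `a_n exp (n z)`, which are zero or entire without zeros),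
`q = 1`.
-/

set_option autoImplicit false

noncomputable section

namespace Pool.Agent.Work.MP_e97a4d_nt

open AlgebraicGeometry CategoryTheory IsDedekindDomain NumberField

variable {F₀ : Type} [Field F₀] {V V' : Scheme.{0}}

private theorem evL_expU_mem (X : LaurentPolynomial ℂ) :
    (fun z => evL (expU z) X) ∈ unitRing := by
  induction X using LaurentPolynomial.induction_on' with
  | add p q hp hq =>
    have h : (fun z => evL (expU z) (p + q)) =
        (fun z => evL (expU z) p) + (fun z => evL (expU z) q) := by
      funext z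
      rw [map_add]
      rfl
    rw [h]
    exact Subring.add_mem _ hp hq
  | C_mul_T n a =>
    have h : (fun z => evL (expU z) (LaurentPolynomial.C a * LaurentPolynomial.T n)) =
        fun z => a * Complex.exp (n * z) := by
      funext w
      rw [evL, LaurentPolynomial.eval₂_C_mul_T, Complex.exp_int_mul]
      simp [expU]
    rw [h]
    by_cases ha : a = 0
    · subst ha
      have h0 : (fun z : ℂ => (0 : ℂ) * Complex.exp (n * z)) = 0 := by
        funext z
        simp
      rw [h0]
      exact Subring.zero_mem _
    · apply Subring.subset_closure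
      refine ⟨by fun_prop, fun z => mul_ne_zero ha (Complex.exp_ne_zero _)⟩

theorem condGm_of_condIunit (σ : F₀ →+* ℂ)
    (π : V ⟶ Spec (CommRingCat.of (𝓞 F₀))) (i : V' ⟶ V)
    (h : CondIunit σ π i) : CondGm σ π i := by
  rintro p ⟨c, hc, ⟨w, rfl⟩, u, v, huv⟩
  have hexp : ∀ u : ℂˣ, expU (Complex.log u) = u := fun u =>
    Units.ext (Complex.exp_log u.ne_zero)
  let f : ℂ → (Spec (CommRingCat.of ℂ) ⟶ V) := fun z => GmPt (expU z) ≫ c
  have hf : IsEntireCurve σ π f := by
    refine ⟨⟨?_, ?_⟩, Complex.log u, Complex.log v, ?_⟩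
    · intro z
      show (GmPt (expU z) ≫ c) ≫ π = _
      rw [Category.assoc, hc, ← Category.assoc]
      have h1 : GmPt (expU z) ≫ GmStr = 𝟙 _ := by
        unfold GmPt GmStr
        rw [← Spec.map_comp, ← CommRingCat.ofHom_comp]
        have h2 : (evL (expU z)).comp (LaurentPolynomial.C : ℂ →+* LaurentPolynomial ℂ) =
            RingHom.id ℂ := by
          refine RingHom.ext fun r => ?_
          simp [evL]
        rw [h2, CommRingCat.ofHom_id, Spec.map_id]
      rw [h1, Category.id_comp]
    · intro z
      exact exists_chart_of_comp c _ differentiable_evL_expU z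
    · show GmPt (expU _) ≫ c ≠ GmPt (expU _) ≫ c
      rw [hexp, hexp]
      exact huv
  obtain ⟨p, hp⟩ := h f hf (CommRingCat.of (LaurentPolynomial ℂ)) c (fun z => evL (expU z))
    Set.univ isOpen_univ Set.univ_nonempty (fun z _ => rfl)
    (fun a => ⟨fun z => evL (expU z) a, evL_expU_mem a, 1, Subring.one_mem _, one_ne_zero,
      fun z _ => by simp⟩) (Complex.log w)
  refine ⟨p, ?_⟩
  rw [hp]
  show GmPt (expU _) ≫ c = _
  rw [hexp]

end Pool.Agent.Work.MP_e97a4d_nt
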