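import Pool.Agent.Work.MP_e97a4d_nt.UP.Defs
import Pool.Agent.Work.MP_e97a4d_nt.UP.Sch
import Pool.Agent.Work.MP_e97a4d_nt.Charts

/-!
# VClosed (S): elementary facts on integral points

`closed_of_gpt`: `exists_ideal_chart i y` gives an ideal `I` of `SInt F T` such that a
homomorphism `φ` satisfies `∃ p, p ≫ i = Spec.map φ ≫ y` iff `φ` vanishes on `I`. Apply it to the
(injective) homomorphism `SInt F T → F`: `I` is zero; so the identity vanishes on `I`.
`closed_iff`: the same for a chart. `str_of_gpt`: `gpt y ≫ π` is computed in two ways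
(`Spec.map_injective`). `hom_ext_gen`: compare `hom_ext_of_gen` in `RecurrenceThm`.
`spt_inj`: `Spec_map_comp_inj` in `Charts`.
-/

set_option autoImplicit false

noncomputable section

namespace Pool.Agent.Work.MP_e97a4d_nt

open AlgebraicGeometry CategoryTheory IsDedekindDomain NumberField

variable {F₀ : Type} [Field F₀] {V V' : Scheme.{0}}

theorem closed_of_gpt (i : V' ⟶ V) [IsClosedImmersion i] {F : Type} [Field F] [NumberField F]
    {T : Finset (HeightOneSpectrum (𝓞 F))} (y : Spec (CommRingCat.of (SInt F T)) ⟶ V)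
    (h : ∃ p : Spec (CommRingCat.of F) ⟶ V', p ≫ i = gpt y) :
    ∃ z : Spec (CommRingCat.of (SInt F T)) ⟶ V', z ≫ i = y :=
  factors_of_injective i y (CommRingCat.ofHom (algebraMap (SInt F T) F)) Subtype.val_injective h

theorem str_of_gpt {π : V ⟶ Spec (CommRingCat.of (𝓞 F₀))} {F : Type} [Field F] [NumberField F]
    [Algebra F₀ F] {T : Finset (HeightOneSpectrum (𝓞 F))}
    {y : Spec (CommRingCat.of (SInt F T)) ⟶ V} (hy : y ∈ integralPoints π F T)
    {B : CommRingCat.{0}} {j : Spec B ⟶ V} {ψ : 𝓞 F₀ →+* B}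
    (hj : j ≫ π = Spec.map (CommRingCat.ofHom ψ)) {P : B →+* F} (hP : gpt y = spt j P) :
    P.comp ψ = (algebraMap F₀ F).comp (algebraMap (𝓞 F₀) F₀) := by
  have h1 : gpt y ≫ π = Spec.map (CommRingCat.ofHom ((algebraMap (SInt F T) F).comp
      (structHom F₀ F T))) := by
    show (Spec.map (CommRingCat.ofHom (algebraMap (SInt F T) F)) ≫ y) ≫ π = _
    rw [Category.assoc, show y ≫ π = Spec.map (CommRingCat.ofHom (structHom F₀ F T)) from hy,
      ← Up.map_comp]
  have h2 : gpt y ≫ π = Spec.map (CommRingCat.ofHom (P.comp ψ)) := by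
    rw [hP]
    show (Spec.map (CommRingCat.ofHom P) ≫ j) ≫ π = _
    rw [Category.assoc, hj, ← Up.map_comp]
  have h3 : P.comp ψ = (algebraMap (SInt F T) F).comp (structHom F₀ F T) :=
    congrArg CommRingCat.Hom.hom (Spec.map_injective (h2.symm.trans h1))
  rw [h3]
  rfl

theorem spt_inj {B : CommRingCat.{0}} (j : Spec B ⟶ V) [IsOpenImmersion j] {k : Type} [CommRing k]
    {P P' : B →+* k} (h : spt j P = spt j P') : P = P' :=
  Up.hom_inj j P P' h

/-- A specialisation of a point of `V'` is in `V'`. -/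
theorem closed_spec (i : V' ⟶ V) [IsClosedImmersion i] {B : CommRingCat.{0}} (j : Spec B ⟶ V)
    {ψ : 𝓞 F₀ →+* B} {k : Type} [Field k] {τ : 𝓞 F₀ →+* k} {d : ℕ}
    {U : Set ((Fin d → kˣ) × (B →+* k))} {φ : B →+* Pool.Agent.Work.UP.Qp k d}
    (hφ : IsGen ψ τ U φ)
    (h : ∃ p : Spec (CommRingCat.of (Pool.Agent.Work.UP.Qp k d)) ⟶ V', p ≫ i = spt j φ) :
    ∀ e ∈ U, ∃ p : Spec (CommRingCat.of k) ⟶ V', p ≫ i = spt j e.2 := by
  intro e he
  obtain ⟨I, hI⟩ := exists_ideal_factors i j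
  have h1 := (hI _ (CommRingCat.ofHom φ)).1 h
  refine (hI _ (CommRingCat.ofHom e.2)).2 fun z hz => ?_
  have h2 : φ z = 0 := h1 hz
  obtain ⟨n, m, hm, h4, h5⟩ := hφ.spec z
  have hainj : Function.Injective (algebraMap (Pool.Agent.Work.UP.Lp k d)
      (Pool.Agent.Work.UP.Qp k d)) :=
    IsFractionRing.injective (Pool.Agent.Work.UP.Lp k d) (Pool.Agent.Work.UP.Qp k d)
  have h6 : n = 0 := by
    apply hainj
    rw [map_zero]
    rw [h2] at h4
    have h7 := h4.symm
    rw [div_eq_zero_iff] at h7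
    exact h7.resolve_right fun h8 => hm (hainj (by rw [h8, map_zero]))
  show e.2 z = 0
  rw [(h5 e he).2, h6, map_zero, zero_div]

end Pool.Agent.Work.MP_e97a4d_nt
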