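import Pool.Agent.Work.MP_e97a4d_nt.UP.VUnit
import Pool.Agent.Work.MP_e97a4d_nt.UP.VClosed
import Pool.Agent.Work.MP_e97a4d_nt.CurveLemma
import Pool.Agent.Work.MP_e97a4d_nt.Spread
import Pool.Agent.Work.MP_e97a4d_nt.RecurrenceThm
import Pool.Agent.Work.MP_e97a4d_nt.ExpCurve

/-!
# GmOfII (L): unit points detect the images of the multiplicative group

Compare `condGm_of_condIIrec` in `RecFamily.lean`, `exists_family_of_curve` in `CurveLemma.lean`; these assume
`IsSeparated π`. First read them: the theorem here is the same with sums of `m` `S`-units instead of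
linear recurrences, and without separatedness (which is only used to see that different points
of the family are different; instead use a chart, see below).
Suppose `c : Gm ⟶ V` is not constant (over `σ`) and `GmPt w ≫ c` is not in `V'`.
(1) Spreading out (`exists_factor_fg`, `R = 𝓞 F₀`, `B = LaurentPolynomial ℂ`; `LocallyOfFinitePresentation`
because `𝓞 F₀` is Noetherian): `c` factors through `c' : Spec B' ⟶ V`, `B'` a finitely generated
`𝓞 F₀`-subalgebra of `LaurentPolynomial ℂ`.
(2) In an affine chart: take an affine open `U` of `V` and `b ∈ B'`, `b ≠ 0`, such that `c'` maps `D(b)` into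
`U`, given by `θ : Γ(V, U) → Away b` (`exists_chart_data`), and such that some `x₀ ∈ Γ(V, U)` has
`θ x₀ = a₀ / b ^ n` not constant on `ℂˣ` (`c` is not constant; if all `θ x` were constant, all
`GmPt u ≫ c` with `b(u) ≠ 0` would be equal, to `p₀` say; do this for charts around two points with
different images, or choose the chart `U` around a general point and use that a
morphism from `Gm` which is constant on a nonempty open set is constant: near any other point use a
chart), and an element `q₁ ∈ B'`, `q₁ ≠ 0`, such that `c'` does not map `D(q₁)`-points into `V'`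
(from `exists_ideal_chart`: some element of the ideal of `V'` in the chart has nonzero image).
(3) Specialisation to a number field (`exists_specialization`, `exists_numberField_laurent` in
`LaurentPoints`: from `B' → LaurentPolynomial ℂ` to `ψ : B' →+* LaurentPolynomial F`, over `F₀`, keeping
`ψ b ≠ 0`, `ψ q₁ ≠ 0` and `ψ a₀ - κ ψ (b ^ n) ≠ 0` for all `κ ∈ F`).
(4) Points: `x_r = evL (2 ^ r) ∘ ψ : B' →+* F`, with values in `SInt F S` for a suitable `S`
(`exists_points`), gives `y_r = Spec (x_r) ≫ c' ∈ integralPoints π F S`. Enlarge `S` (`exists_points` for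
`S`; or choose `S` such that all nonzero coefficients of the `ψ (t k)`, `t k` generators of `B'`, and `2`
are `S`-units): `x_r (t k) = ∑ coefficients * 2 ^ (r s)` is a sum of at most `m` `S`-units, `m` = the maximal
number of terms (denominator `1`). So `CondIIunit` (with `A = B'`, `j = c'`) says: only finitely many
different `y_r` are outside `V'`.
(5) But for all but finitely many `r`: `evL (2 ^ r) (ψ q₁) ≠ 0`, so `y_r` is outside `V'`, and
`evL (2 ^ r) (ψ b) ≠ 0`, so `gpt y_r` is in the chart `U` with coordinate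
`x₀ ↦ evL (2 ^ r) (ψ a₀) / evL (2 ^ r) (ψ b) ^ n`, which takes every value `κ` finitely often. So
infinitely many different `y_r` are outside `V'`: contradiction.
-/

set_option autoImplicit false

noncomputable section

namespace Pool.Agent.Work.MP_e97a4d_nt

open AlgebraicGeometry CategoryTheory IsDedekindDomain NumberField

variable {F₀ : Type} [Field F₀] {V V' : Scheme.{0}}

/-! ### Sums of units -/

private theorem unitSum_add {F : Type} [Field F] [NumberField F]
    {S : Finset (HeightOneSpectrum (𝓞 F))} {m n : ℕ} {x y : F} (hx : IsUnitSum F S m x)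
    (hy : IsUnitSum F S n y) : IsUnitSum F S (m + n) (x + y) := by
  obtain ⟨u, hu, rfl⟩ := hx
  obtain ⟨v, hv, rfl⟩ := hy
  refine ⟨Fin.append u v, ?_, ?_⟩
  · intro l
    refine Fin.addCases (fun l => ?_) (fun l => ?_) l
    · rw [Fin.append_left]
      exact hu l
    · rw [Fin.append_right]
      exact hv l
  · rw [Fin.sum_univ_add]
    congr 1
    · exact Finset.sum_congr rfl fun l _ => (Fin.append_left u v l).symm
    · exact Finset.sum_congr rfl fun l _ => (Fin.append_right u v l).symm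

private theorem unitSum_zero {F : Type} [Field F] [NumberField F]
    {S : Finset (HeightOneSpectrum (𝓞 F))} (m : ℕ) : IsUnitSum F S m 0 :=
  ⟨fun _ => 0, fun _ => Or.inl rfl, by simp⟩

private theorem unitSum_mono {F : Type} [Field F] [NumberField F]
    {S : Finset (HeightOneSpectrum (𝓞 F))} {m n : ℕ} (hmn : m ≤ n) {x : F}
    (hx : IsUnitSum F S m x) : IsUnitSum F S n x := by
  obtain ⟨k, rfl⟩ := Nat.exists_eq_add_of_le hmn
  have h := unitSum_add hx (unitSum_zero (F := F) (S := S) k)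
  rwa [add_zero] at h

private theorem unitSum_one {F : Type} [Field F] [NumberField F]
    {S : Finset (HeightOneSpectrum (𝓞 F))} {v : Fˣ}
    (hv : v ∈ (S : Set (HeightOneSpectrum (𝓞 F))).unit F) : IsUnitSum F S 1 (v : F) :=
  ⟨fun _ => (v : F), fun _ => Or.inr ⟨v, hv, rfl⟩, by simp⟩

private theorem unitSum_sum {F : Type} [Field F] [NumberField F]
    {S : Finset (HeightOneSpectrum (𝓞 F))} {κ : Type} (s : Finset κ) (f : κ → F)
    (hf : ∀ k ∈ s, ∃ v ∈ (S : Set (HeightOneSpectrum (𝓞 F))).unit F, (v : F) = f k) :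
    IsUnitSum F S s.card (∑ k ∈ s, f k) := by
  classical
  induction s using Finset.induction_on with
  | empty => exact unitSum_zero _
  | insert a s ha ih =>
    rw [Finset.sum_insert ha, Finset.card_insert_of_notMem ha, add_comm s.card 1]
    obtain ⟨v, hv, hva⟩ := hf a (Finset.mem_insert_self a s)
    rw [← hva]
    exact unitSum_add (unitSum_one hv) (ih fun k hk => hf k (Finset.mem_insert_of_mem hk))

private theorem evL_eq_sum {F : Type} [Field F] (u : Fˣ) (X : LaurentPolynomial F) :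
    evL u X = ∑ n ∈ X.coeff.support, X.coeff n * ((u ^ n : Fˣ) : F) := by
  classical
  have h1 : X = ∑ n ∈ X.coeff.support, LaurentPolynomial.C (X.coeff n) * LaurentPolynomial.T n := by
    ext m
    rw [AddMonoidAlgebra.coeff_sum, Finset.sum_apply']
    simp only [← LaurentPolynomial.single_eq_C_mul_T, AddMonoidAlgebra.coeff_single,
      Finsupp.single_apply]
    by_cases hm : m ∈ X.coeff.support
    · rw [Finset.sum_ite_eq' X.coeff.support m, if_pos hm]
    · rw [Finset.sum_ite_eq' X.coeff.support m, if_neg hm]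
      exact Finsupp.notMem_support_iff.1 hm
  conv_lhs => rw [h1]
  rw [map_sum]
  refine Finset.sum_congr rfl fun n _ => ?_
  rw [evL, LaurentPolynomial.eval₂_C_mul_T, RingHom.id_apply]

private theorem exists_finset_unit (F : Type) [Field F] [NumberField F]
    (S₀ : Finset (HeightOneSpectrum (𝓞 F))) (T : Finset Fˣ) :
    ∃ S : Finset (HeightOneSpectrum (𝓞 F)), S₀ ⊆ S ∧
      ∀ x ∈ T, x ∈ (S : Set (HeightOneSpectrum (𝓞 F))).unit F := by
  classical
  obtain ⟨S₁, hS₁⟩ := exists_finset_SInt F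
    (T.image (fun x : Fˣ => (x : F)) ∪ T.image (fun x : Fˣ => ((x⁻¹ : Fˣ) : F)))
  refine ⟨S₀ ∪ S₁, Finset.subset_union_left, ?_⟩
  intro x hx v hv
  have hv1 : v ∉ (S₁ : Set (HeightOneSpectrum (𝓞 F))) := fun h =>
    hv (by simp only [Finset.coe_union]; exact Or.inr h)
  have h1 := hS₁ (x : F) (Finset.mem_union_left _ (Finset.mem_image.2 ⟨x, hx, rfl⟩)) v hv1
  have h2 := hS₁ ((x⁻¹ : Fˣ) : F) (Finset.mem_union_right _ (Finset.mem_image.2 ⟨x, hx, rfl⟩)) v hv1
  have h3 : v.valuation F (x : F) * v.valuation F ((x⁻¹ : Fˣ) : F) = 1 := by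
    rw [← map_mul, Units.mul_inv, map_one]
  refine le_antisymm h1 ?_
  by_contra hlt
  rw [not_le] at hlt
  have h4 : v.valuation F (x : F) * v.valuation F ((x⁻¹ : Fˣ) : F) < 1 :=
    mul_lt_one_of_lt_of_le hlt h2
  exact absurd h3 h4.ne

/-! ### Laurent polynomials -/

private theorem coeff_C_mul' {L : Type*} [Field L] (κ : L) (b : LaurentPolynomial L) (k : ℤ) :
    (LaurentPolynomial.C κ * b).coeff k = κ * b.coeff k := by
  rw [← LaurentPolynomial.smul_eq_C_mul]
  rfl

private theorem exists_coeff_ne {L : Type*} [CommRing L] (b : LaurentPolynomial L) (hb : b ≠ 0) :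
    ∃ k : ℤ, b.coeff k ≠ 0 := by
  by_contra hcon
  push Not at hcon
  apply hb
  ext n
  rw [hcon n]; rfl

private theorem exists_minor {L : Type*} [Field L] (a b : LaurentPolynomial L) (hb : b ≠ 0)
    (h : ∀ κ : L, a ≠ LaurentPolynomial.C κ * b) :
    ∃ k l : ℤ, a.coeff k * b.coeff l - a.coeff l * b.coeff k ≠ 0 := by
  by_contra hcon
  push Not at hcon
  obtain ⟨l, hl⟩ := exists_coeff_ne b hb
  apply h (a.coeff l / b.coeff l)
  ext k
  rw [coeff_C_mul']
  have h1 := hcon k l
  field_simp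
  linear_combination h1

private theorem sub_C_mul_ne {L : Type*} [Field L] {a b : LaurentPolynomial L} {k l : ℤ}
    (h : a.coeff k * b.coeff l - a.coeff l * b.coeff k ≠ 0) (κ : L) :
    a - LaurentPolynomial.C κ * b ≠ 0 := by
  intro h0
  apply h
  rw [sub_eq_zero.1 h0, coeff_C_mul', coeff_C_mul']
  ring

/-! ### Charts -/

/-- The point of a chart given by a homomorphism `g` with `g b` invertible. -/
private theorem pt_chart {V : Scheme.{0}} {B : Type} [CommRing B]
    {c' : Spec (CommRingCat.of B) ⟶ V} {A : CommRingCat.{0}} {j : Spec A ⟶ V} {b : B}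
    {θ : A →+* Localization.Away b}
    (hθ : Spec.map (CommRingCat.ofHom θ) ≫ j =
      Spec.map (CommRingCat.ofHom (algebraMap B (Localization.Away b))) ≫ c')
    {R : Type} [CommRing R] (g : B →+* R) (hg : IsUnit (g b)) :
    Spec.map (CommRingCat.ofHom g) ≫ c' =
      Spec.map (CommRingCat.ofHom ((IsLocalization.Away.lift b (g := g) hg).comp θ)) ≫ j := by
  rw [Up.map_comp, Category.assoc, hθ, ← Category.assoc, ← Up.map_comp,
    IsLocalization.Away.lift_comp]

private theorem lift_val {B : Type} [CommRing B] {b : B} {R : Type} [CommRing R] (g : B →+* R)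
    (hg : IsUnit (g b)) {s : Localization.Away b} {a : B} {n : ℕ}
    (hs : s * algebraMap B _ (b ^ n) = algebraMap B _ a) :
    (IsLocalization.Away.lift b (g := g) hg) s * g b ^ n = g a := by
  have h1 := congrArg (IsLocalization.Away.lift b (g := g) hg) hs
  have h2 : ∀ z : B, IsLocalization.Away.lift b (g := g) hg
      (algebraMap B (Localization.Away b) z) = g z := fun z =>
    congrArg (fun f : B →+* R => f z) (IsLocalization.Away.lift_comp (S := Localization.Away b) b hg)
  rw [map_mul, h2, h2, map_pow] at h1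
  exact h1

/-- A curve with two different points is not constant in some chart. -/
private theorem exists_nonconst {L : Type} [Field L] [CharZero L] {V : Scheme.{0}} {B : Type}
    [CommRing B] (e : B →+* LaurentPolynomial L) (c' : Spec (CommRingCat.of B) ⟶ V)
    (u v : Lˣ) (huv : Spec.map (CommRingCat.ofHom ((evL u).comp e)) ≫ c' ≠
      Spec.map (CommRingCat.ofHom ((evL v).comp e)) ≫ c') :
    ∃ (A : CommRingCat.{0}) (j : Spec A ⟶ V) (_ : IsOpenImmersion j) (b : B)
      (θ : A →+* Localization.Away b) (x₀ : A) (a₀ : B) (n : ℕ), e b ≠ 0 ∧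
      Spec.map (CommRingCat.ofHom θ) ≫ j =
        Spec.map (CommRingCat.ofHom (algebraMap B (Localization.Away b))) ≫ c' ∧
      θ x₀ * algebraMap B _ (b ^ n) = algebraMap B _ a₀ ∧
      ∀ κ : L, e a₀ ≠ LaurentPolynomial.C κ * e (b ^ n) := by
  classical
  by_contra hcon
  have key : ∀ t : Lˣ, ∃ b : B, e b ≠ 0 ∧ ∀ s : Lˣ, evL s (e b) ≠ 0 →
      Spec.map (CommRingCat.ofHom ((evL s).comp e)) ≫ c' =
        Spec.map (CommRingCat.ofHom ((evL t).comp e)) ≫ c' := by
    intro t
    obtain ⟨U, hU, b, θ, hgb, hθ⟩ := exists_chart_data (B := CommRingCat.of B) c' ((evL t).comp e)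
    have hb : e b ≠ 0 := by
      intro h0
      apply hgb
      show evL t (e b) = 0
      rw [h0, map_zero]
    refine ⟨b, hb, ?_⟩
    intro s hs
    have hθ' : Spec.map (CommRingCat.ofHom θ.hom) ≫ hU.fromSpec =
        Spec.map (CommRingCat.ofHom (algebraMap B (Localization.Away b))) ≫ c' := hθ
    have hsu : IsUnit (((evL s).comp e) b) := isUnit_iff_ne_zero.2 hs
    have htu : IsUnit (((evL t).comp e) b) := isUnit_iff_ne_zero.2 hgb
    rw [pt_chart hθ' ((evL s).comp e) hsu, pt_chart hθ' ((evL t).comp e) htu]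
    congr 3
    refine RingHom.ext fun x => ?_
    obtain ⟨⟨β, r⟩, hβ⟩ := IsLocalization.surj (Submonoid.powers b) (θ.hom x)
    obtain ⟨n, hn⟩ := r.2
    have hβ' : θ.hom x * algebraMap B _ (b ^ n) = algebraMap B _ β := by
      have h1 : (r : B) = b ^ n := hn.symm
      rw [← h1]
      exact hβ
    have h2 : ∃ κ : L, e β = LaurentPolynomial.C κ * e (b ^ n) := by
      by_contra h3
      push Not at h3
      exact hcon ⟨Γ(V, U), hU.fromSpec, inferInstance, b, θ.hom, x, β, n, hb, hθ', hβ', h3⟩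
    obtain ⟨κ, hκ⟩ := h2
    have h4 : ∀ (r : Lˣ) (hr : IsUnit (((evL r).comp e) b)),
        (IsLocalization.Away.lift b (g := (evL r).comp e) hr) (θ.hom x) = κ := by
      intro r hr
      have h5 := lift_val ((evL r).comp e) hr hβ'
      have h6 : ((evL r).comp e) β = κ * ((evL r).comp e) b ^ n := by
        show evL r (e β) = κ * evL r (e b) ^ n
        rw [hκ, map_mul, map_pow, map_pow, evL, LaurentPolynomial.eval₂_C, RingHom.id_apply]
      rw [h6] at h5
      exact (hr.pow n).mul_right_cancel h5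
    rw [RingHom.comp_apply, RingHom.comp_apply, h4 s hsu, h4 t htu]
  obtain ⟨b₁, hb₁, h₁⟩ := key u
  obtain ⟨b₂, hb₂, h₂⟩ := key v
  have hfin := (laurent_finite_roots (e b₁) hb₁).union (laurent_finite_roots (e b₂) hb₂)
  obtain ⟨m, hm⟩ := hfin.exists_notMem
  apply huv
  rw [← h₁ (twoU L ^ m) (fun h => hm (Or.inl h)), ← h₂ (twoU L ^ m) (fun h => hm (Or.inr h))]

theorem condGm_of_condIIunit [NumberField F₀] (σ : F₀ →+* ℂ)
    (π : V ⟶ Spec (CommRingCat.of (𝓞 F₀))) [LocallyOfFiniteType π]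
    (i : V' ⟶ V) [IsClosedImmersion i] (h : CondIIunit π i) : CondGm σ π i := by
  classical
  rintro p ⟨c, hc, ⟨w, hw⟩, u, v, huv⟩
  by_contra hp
  let _ : Algebra F₀ ℂ := σ.toAlgebra
  let _ : Algebra (𝓞 F₀) (LaurentPolynomial ℂ) :=
    ((LaurentPolynomial.C : ℂ →+* _).comp ((algebraMap F₀ ℂ).comp (algebraMap (𝓞 F₀) F₀))).toAlgebra
  have hc1 : c ≫ π = Spec.map (CommRingCat.ofHom (algebraMap (𝓞 F₀) (LaurentPolynomial ℂ))) := by
    rw [hc, ← Spec.map_comp, ← CommRingCat.ofHom_comp]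
  have hfp : LocallyOfFinitePresentation π :=
    LocallyOfFinitePresentation.iff_locallyOfFiniteType.2 inferInstance
  obtain ⟨B, hB, c', hc', hc'π⟩ := exists_factor_fg (𝓞 F₀) (LaurentPolynomial ℂ) π c hc1
  have hBfg : Algebra.FiniteType (𝓞 F₀) B := (Subalgebra.fg_iff_finiteType _).1 hB
  obtain ⟨B₀, hB₀, ψ₁, hψ₁⟩ := exists_coeff_algebra F₀ (B.val.toRingHom) (fun b => rfl)
  have hinj₁ : Function.Injective ψ₁ := by
    intro a b hab
    apply Subtype.ext
    have h1 := hψ₁ a
    rw [hab, hψ₁ b] at h1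
    exact h1.symm
  have hco : ∀ (a : B) (k : ℤ), (((ψ₁ a).coeff k : B₀) : ℂ) =
      (B.val.toRingHom a).coeff k := by
    intro a k
    rw [← hψ₁]
    exact (AddMonoidAlgebra.coeff_mapRingHom (M := ℤ) (B₀.val : B₀ →+* ℂ) _ k).symm
  have hptc : ∀ u : ℂˣ, Spec.map (CommRingCat.ofHom ((evL u).comp B.val.toRingHom)) ≫ c' =
      GmPt u ≫ c := by
    intro u
    rw [← hc', Up.map_comp, Category.assoc]
  -- non constant in a chart
  obtain ⟨A, j, hj, b, θ, x₀, a₀, n, hb, hθ, hx₀, hnc⟩ :=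
    exists_nonconst B.val.toRingHom c' u v (by rw [hptc, hptc]; exact huv)
  -- the ideal of `V'`
  obtain ⟨I, hI⟩ := exists_ideal_factors i c'
  obtain ⟨q, hqI, hq⟩ : ∃ q ∈ I, ψ₁ q ≠ 0 := by
    by_contra hcon
    push Not at hcon
    apply hp
    have h1 : I ≤ RingHom.ker (CommRingCat.ofHom ((evL w).comp B.val.toRingHom)).hom := by
      intro q hq
      have h2 := hcon q hq
      have h3 : q = 0 := hinj₁ (by rw [h2, map_zero])
      rw [h3]
      exact zero_mem _
    obtain ⟨p', hp'⟩ := (hI _ _).2 h1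
    refine ⟨p', ?_⟩
    rw [hp', hptc]
    exact hw
  -- nonzero elements of `B₀`
  obtain ⟨kq, hkq⟩ := exists_coeff_ne _ hq
  have hb1 : ψ₁ b ≠ 0 := by
    intro h0
    apply hb
    rw [← hψ₁, h0, map_zero]
  obtain ⟨kb, hkb⟩ := exists_coeff_ne _ hb1
  obtain ⟨k, l, hkl⟩ := exists_minor (B.val.toRingHom a₀) (B.val.toRingHom (b ^ n))
    (by rw [map_pow]; exact pow_ne_zero _ hb) hnc
  have hmin : (ψ₁ a₀).coeff k * (ψ₁ (b ^ n)).coeff l - (ψ₁ a₀).coeff l * (ψ₁ (b ^ n)).coeff k ≠ 0 := by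
    intro h0
    apply hkl
    rw [← hco, ← hco, ← hco, ← hco]
    have h1 := congrArg (fun z : B₀ => (z : ℂ)) h0
    simpa using h1
  obtain ⟨F, _, _, _, θ₀, hθ₀⟩ := exists_specialization F₀ B₀
    (((ψ₁ a₀).coeff k * (ψ₁ (b ^ n)).coeff l - (ψ₁ a₀).coeff l * (ψ₁ (b ^ n)).coeff k) *
      ((ψ₁ b).coeff kb * (ψ₁ q).coeff kq)) (mul_ne_zero hmin (mul_ne_zero hkb hkq))
  rw [map_mul, map_mul] at hθ₀
  have hθmin := left_ne_zero_of_mul hθ₀
  have hθb : θ₀ ((ψ₁ b).coeff kb) ≠ 0 := left_ne_zero_of_mul (right_ne_zero_of_mul hθ₀)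
  have hθq : θ₀ ((ψ₁ q).coeff kq) ≠ 0 := right_ne_zero_of_mul (right_ne_zero_of_mul hθ₀)
  let ψ₂ : B →+* LaurentPolynomial F := (AddMonoidAlgebra.mapRingHom ℤ (θ₀ : B₀ →+* F)).comp ψ₁
  have hψ₂co : ∀ (a : B) (k : ℤ), (ψ₂ a).coeff k = θ₀ ((ψ₁ a).coeff k) := fun a k =>
    AddMonoidAlgebra.coeff_mapRingHom _ _ _
  have hψ₂q : ψ₂ q ≠ 0 := by
    intro h
    apply hθq
    rw [← hψ₂co, h]; rfl
  have hψ₂b : ψ₂ b ≠ 0 := by
    intro h
    apply hθb
    rw [← hψ₂co, h]; rfl
  have hψ₂min : (ψ₂ a₀).coeff k * (ψ₂ (b ^ n)).coeff l -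
      (ψ₂ a₀).coeff l * (ψ₂ (b ^ n)).coeff k ≠ 0 := by
    rw [hψ₂co, hψ₂co, hψ₂co, hψ₂co, ← map_mul, ← map_mul, ← map_sub]
    exact hθmin
  have hψ₂c : ∀ r : 𝓞 F₀, ψ₂ (algebraMap _ _ r) = LaurentPolynomial.C (algebraMap F₀ F r) := by
    intro r
    ext n
    have h2 : (ψ₁ (algebraMap _ _ r)).coeff n = if n = 0 then algebraMap F₀ B₀ r else 0 := by
      apply Subtype.ext
      rw [hco]
      show (LaurentPolynomial.C (algebraMap F₀ ℂ r)).coeff n = _
      rw [LaurentPolynomial.C_apply]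
      split_ifs <;> rfl
    rw [hψ₂co, h2, LaurentPolynomial.C_apply]
    split_ifs
    · exact θ₀.commutes _
    · rw [map_zero]
  obtain ⟨S₀, x, hx1, hx2⟩ := exists_points F₀ F ψ₂ hψ₂c
  -- generators
  obtain ⟨N, f, hf⟩ := Algebra.FiniteType.iff_quotient_mvPolynomial''.1 hBfg
  have ht : Function.Surjective (MvPolynomial.eval₂Hom (algebraMap (𝓞 F₀) B)
      (fun k : Fin N => f (MvPolynomial.X k))) := by
    have h1 : (MvPolynomial.aeval (fun k : Fin N => f (MvPolynomial.X k)) :
        MvPolynomial (Fin N) (𝓞 F₀) →ₐ[𝓞 F₀] B) = f := by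
      apply MvPolynomial.algHom_ext
      intro k
      simp
    have h2 : Function.Surjective (MvPolynomial.aeval (fun k : Fin N => f (MvPolynomial.X k)) :
        MvPolynomial (Fin N) (𝓞 F₀) →ₐ[𝓞 F₀] B) := by rw [h1]; exact hf
    exact h2
  -- enlarge `S₀`
  obtain ⟨S, hSS, hSu⟩ := exists_finset_unit F S₀ (insert (twoU F)
    (Finset.univ.biUnion fun k : Fin N => (ψ₂ (f (MvPolynomial.X k))).coeff.support.attach.image
      fun m => Units.mk0 _ (Finsupp.mem_support_iff.1 m.2)))
  have h2u : twoU F ∈ (S : Set (HeightOneSpectrum (𝓞 F))).unit F :=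
    hSu _ (Finset.mem_insert_self _ _)
  have hcu : ∀ (k : Fin N) (m : ℤ), m ∈ (ψ₂ (f (MvPolynomial.X k))).coeff.support →
      ∃ v ∈ (S : Set (HeightOneSpectrum (𝓞 F))).unit F,
        (v : F) = (ψ₂ (f (MvPolynomial.X k))).coeff m := by
    intro k m hm
    refine ⟨Units.mk0 _ (Finsupp.mem_support_iff.1 hm), hSu _ ?_, rfl⟩
    refine Finset.mem_insert_of_mem (Finset.mem_biUnion.2 ⟨k, Finset.mem_univ _, ?_⟩)
    exact Finset.mem_image.2 ⟨⟨m, hm⟩, Finset.mem_attach _ _, rfl⟩
  have hle : (S₀ : Set (HeightOneSpectrum (𝓞 F))).integer F ≤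
      (S : Set (HeightOneSpectrum (𝓞 F))).integer F := by
    intro z hz v hv
    exact hz v fun h1 => hv (hSS h1)
  let incl : SInt F S₀ →+* SInt F S := (Subalgebra.inclusion hle).toRingHom
  have hincl : ∀ z : SInt F S₀, algebraMap (SInt F S) F (incl z) = algebraMap (SInt F S₀) F z :=
    fun z => rfl
  let x' : ℕ → (B →+* SInt F S) := fun m => incl.comp (x m)
  have hx1' : ∀ m, (x' m).comp (algebraMap (𝓞 F₀) B) = structHom F₀ F S := by
    intro m
    ext z
    have h1 := congrArg (fun g : 𝓞 F₀ →+* SInt F S₀ => algebraMap (SInt F S₀) F (g z)) (hx1 m)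
    exact h1
  have hx2' : ∀ m, (algebraMap (SInt F S) F).comp (x' m) = (evL (twoU F ^ m)).comp ψ₂ := by
    intro m
    rw [← hx2 m]
    rfl
  let y : ℕ → (Spec (CommRingCat.of (SInt F S)) ⟶ V) := fun m =>
    Spec.map (CommRingCat.ofHom (x' m)) ≫ c'
  have hyint : ∀ m, y m ∈ integralPoints π F S := by
    intro m
    show (Spec.map (CommRingCat.ofHom (x' m)) ≫ c') ≫ π = _
    rw [Category.assoc, hc'π, ← Up.map_comp, hx1']
  have hygpt : ∀ m, gpt (y m) = Spec.map (CommRingCat.ofHom ((evL (twoU F ^ m)).comp ψ₂)) ≫ c' := by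
    intro m
    show Spec.map (CommRingCat.ofHom (algebraMap (SInt F S) F)) ≫
      Spec.map (CommRingCat.ofHom (x' m)) ≫ c' = _
    rw [← Category.assoc, ← Up.map_comp, hx2']
  have hA : {m | ∃ p, p ≫ i = y m}.Finite := by
    refine (laurent_finite_roots (ψ₂ q) hψ₂q).subset ?_
    intro m hm
    have h1 : I ≤ RingHom.ker (x' m) := (hI _ (CommRingCat.ofHom (x' m))).1 hm
    have h2 : x' m q = 0 := h1 hqI
    have h3 := congrArg (fun f : B →+* F => f q) (hx2' m)
    simp only [RingHom.comp_apply] at h3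
    rw [h2, map_zero] at h3
    exact h3.symm
  have hBfin : ∀ z : Spec (CommRingCat.of (SInt F S)) ⟶ V, {m | y m = z}.Finite := by
    intro z
    have hE := laurent_finite_roots (ψ₂ b) hψ₂b
    by_cases hsub : {m | y m = z} ⊆
        {m : ℕ | LaurentPolynomial.eval₂ (RingHom.id F) (twoU F ^ m) (ψ₂ b) = 0}
    · exact hE.subset hsub
    · rw [Set.not_subset] at hsub
      obtain ⟨m₁, hm₁, hm₁E⟩ := hsub
      have hu₁ : IsUnit (((evL (twoU F ^ m₁)).comp ψ₂) b) := isUnit_iff_ne_zero.2 hm₁E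
      let κ : F := IsLocalization.Away.lift b (g := (evL (twoU F ^ m₁)).comp ψ₂) hu₁ (θ x₀)
      refine (hE.union (laurent_finite_roots _ (sub_C_mul_ne hψ₂min κ))).subset ?_
      intro m hm
      by_cases hmE : m ∈ {m : ℕ |
          LaurentPolynomial.eval₂ (RingHom.id F) (twoU F ^ m) (ψ₂ b) = 0}
      · exact Or.inl hmE
      · right
        have hu : IsUnit (((evL (twoU F ^ m)).comp ψ₂) b) := isUnit_iff_ne_zero.2 hmE
        have h1 : gpt (y m) = gpt (y m₁) := by
          rw [show y m = z from hm, show y m₁ = z from hm₁]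
        rw [hygpt, hygpt, pt_chart hθ _ hu, pt_chart hθ _ hu₁] at h1
        have h2 := Up.hom_inj j _ _ h1
        have h3 : (IsLocalization.Away.lift b (g := (evL (twoU F ^ m)).comp ψ₂) hu) (θ x₀) = κ :=
          congrArg (fun g : A →+* F => g x₀) h2
        have h4 := lift_val _ hu hx₀
        rw [h3] at h4
        show evL (twoU F ^ m) (ψ₂ a₀ - LaurentPolynomial.C κ * ψ₂ (b ^ n)) = 0
        have h5 : evL (twoU F ^ m) (ψ₂ a₀) = κ * evL (twoU F ^ m) (ψ₂ b) ^ n := h4.symm
        rw [map_sub, map_mul, map_pow, map_pow, h5]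
        have h6 : evL (twoU F ^ m) (LaurentPolynomial.C κ) = κ := by
          rw [evL, LaurentPolynomial.eval₂_C, RingHom.id_apply]
        rw [h6, sub_self]
  -- the number of terms
  let M : ℕ := (Finset.univ.sup fun k : Fin N =>
    (ψ₂ (f (MvPolynomial.X k))).coeff.support.card) + 1
  have hfin := h (CommRingCat.of B) (algebraMap (𝓞 F₀) B) c' hc'π (Fin N) inferInstance
    (fun k => f (MvPolynomial.X k)) ht F S M
  have hfin2 : {z | ∃ m, z = y m ∧ ¬ ∃ p, p ≫ i = z}.Finite := by
    refine hfin.subset ?_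
    rintro _ ⟨m, rfl, hm⟩
    refine ⟨hyint m, ⟨(evL (twoU F ^ m)).comp ψ₂, hygpt m, ?_⟩, hm⟩
    intro k
    refine ⟨evL (twoU F ^ m) (ψ₂ (f (MvPolynomial.X k))), 1, ?_, ?_, one_ne_zero, ?_⟩
    · rw [evL_eq_sum]
      refine unitSum_mono ?_ (unitSum_sum _ _ ?_)
      · exact (Finset.le_sup (f := fun k : Fin N =>
          (ψ₂ (f (MvPolynomial.X k))).coeff.support.card) (Finset.mem_univ k)).trans (Nat.le_succ _)
      · intro r hr
        obtain ⟨v, hv, hv2⟩ := hcu k r hr
        refine ⟨v * (twoU F ^ m) ^ r, mul_mem hv (zpow_mem (pow_mem h2u m) r), ?_⟩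
        rw [Units.val_mul, hv2]
    · have h1 : IsUnitSum F S 1 (((1 : Fˣ)) : F) := unitSum_one (one_mem _)
      rw [Units.val_one] at h1
      exact unitSum_mono (Nat.le_add_left 1 _) h1
    · rw [div_one]
      rfl
  have hcover : (Set.univ : Set ℕ) ⊆ {m | ∃ p, p ≫ i = y m} ∪
      ⋃ z ∈ {z | ∃ m, z = y m ∧ ¬ ∃ p, p ≫ i = z}, {m | y m = z} := by
    intro m _
    by_cases h : ∃ p, p ≫ i = y m
    · exact Or.inl h
    · right
      simp only [Set.mem_iUnion]
      exact ⟨y m, ⟨m, rfl, h⟩, rfl⟩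
  exact Set.infinite_univ ((hA.union (hfin2.biUnion fun z _ => hBfin z)).subset hcover)

end Pool.Agent.Work.MP_e97a4d_nt
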