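import Pool.Agent.Work.MP_e97a4d_nt.UP.CCLoc
import Pool.Agent.Work.MP_e97a4d_nt.UP.VAlgF

/-!
# CCMain (M-L): parametrised entire curves are in `V'`

`cc_span` is the analogue of `ac_span` (see the proof there). `φ` from `cc_fam`; not in `V'`: otherwise
`closed_spec` puts `f z` into `V'` for `z ∈ Ω` and `factors_of_open` (in `Identity`) everywhere.
Call `b'` good if there is `φ'` with `spt (𝒜.j b') φ' = spt (𝒜.j b) φ` (then `φ'` is unique, `spt_inj`);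
reduced fractions `φ' (x b' l) = N' b' l / D' b' l`. `P` = finite set of representatives of the
irreducible `p` dividing for every good `b'` some `D' b' l` (`b` itself is good). `P` does not span, by
`torusCL` (`d + 1 > 0`): its hypothesis at `z`: `cc_local` gives a good `b'` and analytic `X l` with
`X l * D' b' l (u) = N' b' l (u)` near `z`; with `l` the index chosen for `(b', p)`,
`A b' p = N' b' l`, `D' b' l = p * B' b' p`, `g = X l`. Then `uni1`, `assoc_lincl` as in `ac_span`.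
`cc_step`: `alg_end` (with `k = ℂ`, algebra structure `σ.toAlgebra`; `Cardinal.mk_complex`) gives
`a l, c l : Lp ℂ d`, `c l ≠ 0`, `lmap f' (N l) * lincl (c l) = lmap f' (D l) * lincl (a l)`. New parameters
`u'' i z = uact f'.symm (uz u hu z) i.castSucc` (entire, no zeros), smaller open set
`Ω' = {z ∈ Ω | all evk (u'' z) (c l) ≠ 0}` (open by continuity, nonempty by `borel_open` for the
product of the `lmap f'.symm (lincl (c l))`; there are finitely many `l`), same `g`.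
`cc_main`: induction on `d`; `cc_zero` contradicts that `f` is not constant; in the step use
`cc_rel` if `u` is not independent and `cc_step` otherwise.
-/

set_option autoImplicit false

noncomputable section

namespace Pool.Agent.Work.MP_e97a4d_nt

open AlgebraicGeometry CategoryTheory IsDedekindDomain NumberField Pool.Agent.Work.UP

variable {F₀ : Type} [Field F₀] {V V' : Scheme.{0}}

private theorem lincl_inj' {k : Type} [Field k] {d : ℕ} :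
    Function.Injective (lincl : Lp k d →+* Lp k (d + 1)) := by
  apply AddMonoidAlgebra.mapDomain_injective
  intro s t h
  funext i
  have := congrFun h (Fin.castSucc i)
  simpa [sn] using this

private theorem lincl_ne' {k : Type} [Field k] {d : ℕ} {c : Lp k d} (hc : c ≠ 0) :
    (lincl c : Lp k (d + 1)) ≠ 0 := fun h => hc (lincl_inj' (by rw [h, map_zero]))

theorem cc_span (σ : F₀ →+* ℂ) {π : V ⟶ Spec (CommRingCat.of (𝓞 F₀))} (i : V' ⟶ V)
    [IsClosedImmersion i] (𝒜 : Atlas π)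
    {f : ℂ → (Spec (CommRingCat.of ℂ) ⟶ V)} (hf : IsHolomorphicMap σ π f) {d : ℕ}
    (b : 𝒜.β) (N D : 𝒜.ι b → Lp ℂ (d + 1)) (u : Fin (d + 1) → ℂ → ℂ) (hu : IsUC u) (hi : IndC u)
    (Ω : Set ℂ) (g : ℂ → (𝒜.B b →+* ℂ)) (h : CurPar 𝒜 f b N D u hu Ω g)
    (hout : ∃ z, ¬ ∃ p : Spec (CommRingCat.of ℂ) ⟶ V', p ≫ i = f z) :
    ∃ φ : 𝒜.B b →+* Qp ℂ (d + 1),
      φ.comp (𝒜.ψ b) = strQ (σ.comp (algebraMap (𝓞 F₀) F₀)) (d + 1) ∧
      (∀ l, D l ≠ 0 ∧ φ (𝒜.x b l) = algebraMap (Lp ℂ (d + 1)) (Qp ℂ (d + 1)) (N l) /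
        algebraMap (Lp ℂ (d + 1)) (Qp ℂ (d + 1)) (D l)) ∧
      (¬ ∃ p : Spec (CommRingCat.of (Qp ℂ (d + 1))) ⟶ V', p ≫ i = spt (𝒜.j b) φ) ∧
      ∃ f' : (Fin (d + 1) → ℤ) ≃+ (Fin (d + 1) → ℤ),
        ∀ p : Lp ℂ (d + 1), Prime p → (∃ p' : Lp ℂ d, Associated (lmap f' p) (lincl p')) ∨
          ∃ (b' : 𝒜.β) (φ' : 𝒜.B b' →+* Qp ℂ (d + 1)), spt (𝒜.j b') φ' = spt (𝒜.j b) φ ∧
            ∀ l, ∃ a c : Lp ℂ (d + 1), ¬ p ∣ c ∧ φ' (𝒜.x b' l) =
              algebraMap (Lp ℂ (d + 1)) (Qp ℂ (d + 1)) a /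
                algebraMap (Lp ℂ (d + 1)) (Qp ℂ (d + 1)) c := by
  classical
  obtain ⟨φ, hφ, hφv⟩ := cc_fam σ 𝒜 hf b N D u hu hi Ω g h
  refine ⟨φ, hφ.str, hφv, ?_, ?_⟩
  · intro hV'
    obtain ⟨z, hz⟩ := hout
    apply hz
    have h1 := closed_spec i (𝒜.j b) hφ hV'
    refine factors_of_open σ π i f hf Ω h.1 h.2.1 (fun w hw => ?_) z
    obtain ⟨p, hp⟩ := h1 (uz u hu w, g w) ⟨w, hw, rfl⟩
    exact ⟨p, by rw [hp, h.2.2.1 w hw]⟩
  have hufd : UniqueFactorizationMonoid (Lp ℂ (d + 1)) := lp_ufd ℂ (d + 1)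
  have hfinβ := 𝒜.fin
  have hfinι := 𝒜.finι
  have hoi := 𝒜.oi
  -- good charts
  let G : Type := {b' : 𝒜.β // ∃ φ' : 𝒜.B b' →+* Qp ℂ (d + 1), spt (𝒜.j b') φ' = spt (𝒜.j b) φ}
  have hGfin : Finite G := Subtype.finite
  have hG : ∀ b' : G, ∃ φ' : 𝒜.B b'.1 →+* Qp ℂ (d + 1), spt (𝒜.j b'.1) φ' = spt (𝒜.j b) φ :=
    fun b' => b'.2
  choose Φ hΦ using hG
  have hred : ∀ (b' : G) (l : 𝒜.ι b'.1), ∃ n m : Lp ℂ (d + 1), m ≠ 0 ∧ IsRelPrime n m ∧
      Φ b' (𝒜.x b'.1 l) = algebraMap (Lp ℂ (d + 1)) (Qp ℂ (d + 1)) n /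
        algebraMap (Lp ℂ (d + 1)) (Qp ℂ (d + 1)) m := by
    intro b' l
    obtain ⟨n, m, hnm, h1⟩ := IsFractionRing.exists_reduced_fraction (Lp ℂ (d + 1))
      (Φ b' (𝒜.x b'.1 l))
    refine ⟨n, m, nonZeroDivisors.coe_ne_zero m, hnm, ?_⟩
    rw [← h1, IsFractionRing.mk'_eq_div]
  choose N' D' hD' hrp hND using hred
  -- the chart `b` is good
  let b₀ : G := ⟨b, φ, rfl⟩
  have hι₀ : Fintype (𝒜.ι b₀.1) := Fintype.ofFinite _
  set prD : Lp ℂ (d + 1) := ∏ l, D' b₀ l with hprD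
  have hprD0 : prD ≠ 0 := Finset.prod_ne_zero_iff.mpr fun l _ => hD' b₀ l
  set P : Set (Lp ℂ (d + 1)) := {q | q ∈ UniqueFactorizationMonoid.factors prD ∧
    ∀ b' : G, ∃ l, q ∣ D' b' l} with hP
  have hPfin : P.Finite := by
    refine (UniqueFactorizationMonoid.factors prD).toFinset.finite_toSet.subset ?_
    intro q hq
    simp only [Finset.mem_coe, Multiset.mem_toFinset]
    exact hq.1
  have hPirr : ∀ p ∈ P, Irreducible p := fun p hp =>
    UniqueFactorizationMonoid.irreducible_of_factor p hp.1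
  have hP0 : ∀ p ∈ P, p ≠ 0 := fun p hp => (hPirr p hp).ne_zero
  have hnspan : ¬ SpansL P := by
    intro hspan
    have hAB : ∀ (b' : G) (p : Lp ℂ (d + 1)), ∃ A B : Lp ℂ (d + 1), p ∈ P →
        IsRelPrime A p ∧ ∃ l, A = N' b' l ∧ D' b' l = p * B := by
      intro b' p
      by_cases hp : p ∈ P
      · obtain ⟨l, B, hB⟩ := hp.2 b'
        refine ⟨N' b' l, B, fun _ => ⟨?_, l, rfl, hB⟩⟩
        intro c hc1 hc2
        exact hrp b' l hc1 (hc2.trans ⟨B, hB⟩)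
      · exact ⟨0, 0, fun hp' => absurd hp' hp⟩
    choose A B' hAB using hAB
    refine torusCL (Nat.succ_pos d) u hu hi G P hPfin hP0 hspan A B'
      (fun b' p hp => (hAB b' p hp).1) ?_
    intro p hp z
    obtain ⟨b'', φ'', X, hφ'', hX, hrel⟩ := cc_local σ 𝒜 hf b N D u hu hi Ω g h φ hφ z
    obtain ⟨-, l, hA, hD⟩ := hAB ⟨b'', φ'', hφ''⟩ p hp
    have hΦφ : Φ ⟨b'', φ'', hφ''⟩ = φ'' :=
      spt_inj (𝒜.j b'') ((hΦ ⟨b'', φ'', hφ''⟩).trans hφ''.symm)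
    refine ⟨⟨b'', φ'', hφ''⟩, X l, hX l, ?_⟩
    have h1 := hrel l (N' ⟨b'', φ'', hφ''⟩ l) (D' ⟨b'', φ'', hφ''⟩ l) (hD' _ l) (by
      rw [← hND ⟨b'', φ'', hφ''⟩ l, hΦφ])
    filter_upwards [h1] with w hw
    rw [hA, ← hw, hD, map_mul]
  obtain ⟨f', hf'⟩ := uni1 (Submodule.span ℚ {x : Fin (d + 1) → ℚ | ∃ p ∈ P,
    ∃ s ∈ p.coeff.support, ∃ s' ∈ p.coeff.support, x = fun i => (s i : ℚ) - (s' i : ℚ)}) hnspan
  have hassoc : ∀ p ∈ P, ∃ p' : Lp ℂ d, Associated (lmap f' p) (lincl p') := by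
    intro p hp
    refine assoc_lincl f' p (hP0 p hp) fun s hs s' hs' => ?_
    have h1 := hf' (s - s') (Submodule.subset_span ⟨p, hp, s, hs, s', hs', by
      funext i
      simp⟩)
    rw [map_sub, Pi.sub_apply] at h1
    linarith
  refine ⟨f', fun p hp => ?_⟩
  by_cases hall : ∀ b' : G, ∃ l, p ∣ D' b' l
  · left
    obtain ⟨l, hl⟩ := hall b₀
    have h1 : p ∣ prD := hl.trans (Finset.dvd_prod_of_mem _ (Finset.mem_univ l))
    obtain ⟨q, hq, hpq⟩ :=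
      UniqueFactorizationMonoid.exists_mem_factors_of_dvd hprD0 hp.irreducible h1
    have hqP : q ∈ P := ⟨hq, fun b' => by
      obtain ⟨l, hl⟩ := hall b'
      exact ⟨l, hpq.symm.dvd.trans hl⟩⟩
    obtain ⟨p', hp'⟩ := hassoc q hqP
    exact ⟨p', (hpq.map (lmap f')).trans hp'⟩
  · right
    push Not at hall
    obtain ⟨b', hb'⟩ := hall
    exact ⟨b'.1, Φ b', hΦ b', fun l => ⟨N' b' l, D' b' l, hb' l, hND b' l⟩⟩

theorem cc_step [NumberField F₀] (σ : F₀ →+* ℂ) {π : V ⟶ Spec (CommRingCat.of (𝓞 F₀))}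
    (i : V' ⟶ V) [IsClosedImmersion i] (hGm : CondGm σ π i) (𝒜 : Atlas π)
    {f : ℂ → (Spec (CommRingCat.of ℂ) ⟶ V)} (hf : IsHolomorphicMap σ π f) {d : ℕ}
    (b : 𝒜.β) (N D : 𝒜.ι b → Lp ℂ (d + 1)) (u : Fin (d + 1) → ℂ → ℂ) (hu : IsUC u) (hi : IndC u)
    (Ω : Set ℂ) (g : ℂ → (𝒜.B b →+* ℂ)) (h : CurPar 𝒜 f b N D u hu Ω g)
    (hout : ∃ z, ¬ ∃ p : Spec (CommRingCat.of ℂ) ⟶ V', p ≫ i = f z) :
    ∃ (N' D' : 𝒜.ι b → Lp ℂ d) (u' : Fin d → ℂ → ℂ) (hu' : IsUC u') (Ω' : Set ℂ),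
      CurPar 𝒜 f b N' D' u' hu' Ω' g := by
  classical
  obtain ⟨φ, hstr, hφv, hV', f', hprime⟩ := cc_span σ i 𝒜 hf b N D u hu hi Ω g h hout
  letI : Algebra F₀ ℂ := σ.toAlgebra
  have hac : ∀ l, ∃ a c : Lp ℂ d, c ≠ 0 ∧ lmap f' (N l) * lincl c = lmap f' (D l) * lincl a := by
    intro l
    obtain ⟨a, c, hc, h1⟩ := alg_end σ π i hGm 𝒜 (k := ℂ) (by rw [Cardinal.mk_complex]) b φ
      hstr hV' f' hprime (𝒜.x b l)
    exact ⟨a, c, hc, h1 (N l) (D l) (hφv l).1 (hφv l).2⟩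
  choose a c hc hac using hac
  -- new parameters
  set v : ℂ → (Fin (d + 1) → ℂˣ) := fun z => uact f'.symm (uz u hu z) with hv
  set u' : Fin d → ℂ → ℂ := fun i z => (v z i.castSucc : ℂ) with hu'def
  have hu' : IsUC u' := by
    intro i
    refine ⟨?_, fun z => (v z i.castSucc).ne_zero⟩
    have h1 : u' i = fun z => ∏ j, u j z ^ (f'.symm (Pi.single i.castSucc 1) j) := by
      funext z
      rw [hu'def, hv]
      simp only
      unfold uact
      rw [Units.coe_prod]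
      refine Finset.prod_congr rfl fun j _ => ?_
      rw [Units.val_zpow_eq_zpow_val]
      rfl
    rw [h1]
    refine Differentiable.fun_finsetProd fun j _ => ?_
    intro z
    exact ((hu j).1 z).zpow (Or.inl ((hu j).2 z))
  have huz : ∀ z, uz u' hu' z = fun i : Fin d => v z i.castSucc := by
    intro z
    funext i
    exact Units.ext rfl
  have hev1 : ∀ z (n : Lp ℂ (d + 1)), evk (v z) (lmap f' n) = evk (uz u hu z) n := by
    intro z n
    show ev (RingHom.id ℂ) (v z) (lmap f' n) = _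
    rw [ev_lmap, hv]
    simp only
    rw [uact_uact_symm]
  have hev2 : ∀ z (n : Lp ℂ d), evk (v z) (lincl n) = evk (uz u' hu' z) n := by
    intro z n
    show ev (RingHom.id ℂ) (v z) (lincl n) = _
    rw [ev_lincl, huz]
  have hev3 : ∀ z (n : Lp ℂ (d + 1)), evk (uz u hu z) (lmap f'.symm n) = evk (v z) n := by
    intro z n
    show ev (RingHom.id ℂ) (uz u hu z) (lmap f'.symm n) = _
    rw [ev_lmap]
  obtain ⟨hΩ, hne, hfz, hval⟩ := h
  have hι : Finite (𝒜.ι b) := 𝒜.finι b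
  have hιf : Fintype (𝒜.ι b) := Fintype.ofFinite _
  set Ω' : Set ℂ := Ω ∩ {z | ∀ l, evk (uz u' hu' z) (c l) ≠ 0} with hΩ'
  have hcont : ∀ n : Lp ℂ d, Continuous (fun z => evk (uz u' hu' z) n) := fun n =>
    (ev_uz_differentiable u' hu' n).continuous
  refine ⟨a, c, u', hu', Ω', ?_, ?_, fun z hz => hfz z hz.1, ?_⟩
  · refine hΩ.inter ?_
    have h1 : {z | ∀ l, evk (uz u' hu' z) (c l) ≠ 0} = ⋂ l, {z | evk (uz u' hu' z) (c l) ≠ 0} := by
      ext z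
      simp
    rw [h1]
    exact isOpen_iInter_of_finite fun l => isOpen_ne_fun (hcont _) continuous_const
  · have hne0 : (∏ l, lmap f'.symm (lincl (c l)) : Lp ℂ (d + 1)) ≠ 0 :=
      Finset.prod_ne_zero_iff.mpr fun l _ h0 =>
        lincl_ne' (hc l) ((lmap f'.symm).injective (h0.trans (map_zero _).symm))
    obtain ⟨z, hz, hz'⟩ := borel_open u hu hi _ hne0 Ω hΩ hne
    refine ⟨z, hz, fun l => ?_⟩
    rw [map_prod] at hz'
    have h1 := Finset.prod_ne_zero_iff.mp hz' l (Finset.mem_univ l)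
    rwa [hev3, hev2] at h1
  · intro z hz l
    refine ⟨hz.2 l, ?_⟩
    obtain ⟨h1, h2⟩ := hval z hz.1 l
    have h3 := congrArg (evk (v z)) (hac l)
    rw [map_mul, map_mul, hev1, hev1, hev2, hev2] at h3
    have h4 := hz.2 l
    rw [h2, div_eq_div_iff h1 h4, h3, mul_comm]

theorem cc_main [NumberField F₀] (σ : F₀ →+* ℂ) {π : V ⟶ Spec (CommRingCat.of (𝓞 F₀))}
    (i : V' ⟶ V) [IsClosedImmersion i] (hGm : CondGm σ π i) (𝒜 : Atlas π)
    {f : ℂ → (Spec (CommRingCat.of ℂ) ⟶ V)} (hf : IsEntireCurve σ π f) (d : ℕ)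
    (b : 𝒜.β) (N D : 𝒜.ι b → Lp ℂ d) (u : Fin d → ℂ → ℂ) (hu : IsUC u)
    (Ω : Set ℂ) (g : ℂ → (𝒜.B b →+* ℂ)) (h : CurPar 𝒜 f b N D u hu Ω g) (z : ℂ) :
    ∃ p : Spec (CommRingCat.of ℂ) ⟶ V', p ≫ i = f z := by
  by_contra hz
  induction d generalizing Ω with
  | zero =>
    obtain ⟨w, w', hw⟩ := hf.2
    exact hw (cc_zero σ 𝒜 hf.1 b N D u hu Ω g h w w')
  | succ d ih =>
    by_cases hi : IndC u
    · obtain ⟨N', D', u', hu', Ω', h'⟩ := cc_step σ i hGm 𝒜 hf.1 b N D u hu hi Ω g h ⟨z, hz⟩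
      exact ih N' D' u' hu' Ω' h'
    · obtain ⟨N', D', u', hu', h'⟩ := cc_rel 𝒜 b N D u hu Ω g h hi
      exact ih N' D' u' hu' Ω h'

end Pool.Agent.Work.MP_e97a4d_nt
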