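import Pool.Agent.Work.MP_e97a4d_nt.UP.PBAtlas
import Pool.Agent.Work.MP_e97a4d_nt.UP.CCMain
import Pool.Agent.Work.MP_e97a4d_nt.SchemeLemmas

/-!
# PBI (M): entire curves when the complement of `V'` is locally immersed in a torus

Take the atlas of `exists_good_atlas`. Let `f` be an entire curve with `f z₀` outside `V'`. The point of
`f z₀` is not in the range of `i` (as in `PBII`), so it is in a good chart `b`, and there are `r > 0` and
`g` with `f z = spt (𝒜.j b) (g z)`, `g z a` differentiable on the ball (`exists_chart_in` in `VpHolo` with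
`O` = range of `𝒜.j b`; as in `exists_atlas_chart`, but for this chart `b`).
`u m z = resT (f z) (h m)` (`f z : Spec ℂ ⟶ V`) is an entire function of `z`: near any point it
is `g'' z (resT (𝒜.j b'') (h m))` in a chart `b''` (`exists_atlas_chart`, `resT_comp`); it has no zeros,
because `h m` is a unit. On the ball `g z (x b l) = a l (u z) / c l (u z)`, `c l (u z) ≠ 0`. So
`CurPar 𝒜 f b N D u hu (ball z₀ r) g` with `N l = toL (a l mapped to ℂ by σ)`, `D l` similarly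
(`ev_toL`). `cc_main`: all `f z` are in `V'`, contradiction.
-/

set_option autoImplicit false

noncomputable section

namespace Pool.Agent.Work.MP_e97a4d_nt

open AlgebraicGeometry CategoryTheory IsDedekindDomain NumberField Pool.Agent.Work.UP

variable {F₀ : Type} [Field F₀] {V V' : Scheme.{0}}

private theorem chart_at {σ : F₀ →+* ℂ} {π : V ⟶ Spec (CommRingCat.of (𝓞 F₀))} (𝒜 : Atlas π)
    {f : ℂ → (Spec (CommRingCat.of ℂ) ⟶ V)} (hf : IsHolomorphicMap σ π f) (z₀ : ℂ) (b : 𝒜.β)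
    (hb : Vp.pt (f z₀) ∈ Set.range (𝒜.j b)) :
    ∃ (r : ℝ) (g : ℂ → (𝒜.B b →+* ℂ)), 0 < r ∧
      ∀ z ∈ Metric.ball z₀ r, f z = spt (𝒜.j b) (g z) := by
  have := 𝒜.oi b
  obtain ⟨A, j, g', D, _, hD, hz, hfg, hhol, hO⟩ :=
    Vp.exists_chart_in hf z₀ (𝒜.j b).opensRange hb
  have hrange : Set.range j ⊆ Set.range (𝒜.j b) := hO
  obtain ⟨θ, hθ⟩ := Spec.map_surjective (IsOpenImmersion.lift (𝒜.j b) j hrange)
  have hθ' : Spec.map θ ≫ 𝒜.j b = j := by
    rw [hθ, IsOpenImmersion.lift_fac]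
  obtain ⟨r, hr, hball⟩ := Metric.isOpen_iff.1 hD z₀ hz
  refine ⟨r, fun z => (g' z).comp θ.hom, hr, fun z hzr => ?_⟩
  rw [hfg z (hball hzr)]
  have h3 : Spec.map (CommRingCat.ofHom ((g' z).comp θ.hom)) =
      Spec.map (CommRingCat.ofHom (g' z)) ≫ Spec.map θ := by
    rw [← Spec.map_comp]; rfl
  show _ = Spec.map (CommRingCat.ofHom ((g' z).comp θ.hom)) ≫ 𝒜.j b
  rw [h3, Category.assoc, hθ']

theorem condI_of_units [NumberField F₀] (σ : F₀ →+* ℂ)
    (π : V ⟶ Spec (CommRingCat.of (𝓞 F₀))) [LocallyOfFiniteType π] [QuasiCompact π]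
    (i : V' ⟶ V) [IsClosedImmersion i] {n : ℕ} (h : Fin n → Γ(V, ⊤)) (hu : ∀ m, IsUnit (h m))
    (himm : SurjectiveOnStalks (toAff π i h)) (hGm : CondGm σ π i) : CondI σ π i := by
  classical
  obtain ⟨𝒜, h𝒜⟩ := exists_good_atlas π i h himm
  intro f hf z₀
  by_contra hz₀
  have hpt : Vp.pt (f z₀) ∉ Set.range i := fun hmem =>
    hz₀ ((factors_iff_mem_range i (f z₀)).2 hmem)
  obtain ⟨b, hb, a, c, hac⟩ := h𝒜 _ hpt
  obtain ⟨r, g, hr, hg⟩ := chart_at 𝒜 hf.1 z₀ b hb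
  let u : Fin n → ℂ → ℂ := fun m z => resT (f z) (h m)
  have hru : ∀ (b : 𝒜.β) (P : 𝒜.B b →+* ℂ) (z : ℂ), f z = spt (𝒜.j b) P → ∀ m,
      u m z = P (resT (𝒜.j b) (h m)) := by
    intro b P z hz m
    show resT (f z) (h m) = _
    rw [hz]
    exact resT_comp (𝒜.j b) (CommRingCat.ofHom P) (h m)
  have hUC : IsUC u := by
    intro m
    refine ⟨fun z => ?_, fun z => ?_⟩
    · obtain ⟨b', r', g', hr', hg', hd'⟩ := exists_atlas_chart σ 𝒜 hf.1 z
      have h1 : (u m) =ᶠ[nhds z] fun w => g' w (resT (𝒜.j b') (h m)) := by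
        filter_upwards [Metric.ball_mem_nhds z hr'] with w hw
        exact hru b' (g' w) w (hg' w hw) m
      have h2 : DifferentiableAt ℂ (fun w => g' w (resT (𝒜.j b') (h m))) z :=
        (hd' (resT (𝒜.j b') (h m))).differentiableAt (Metric.ball_mem_nhds z hr')
      exact h1.differentiableAt_iff.2 h2
    · have h1 : IsUnit (resT (f z) (h m)) := (hu m).map (resT (f z))
      exact h1.ne_zero
  let τ : 𝓞 F₀ →+* ℂ := σ.comp (algebraMap (𝓞 F₀) F₀)
  have hstr : ∀ z ∈ Metric.ball z₀ r, (g z).comp (𝒜.ψ b) = τ := by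
    intro z hz
    have h1 := hf.1.structural z
    rw [hg z hz] at h1
    have h2 : spt (𝒜.j b) (g z) ≫ π = Spec.map (CommRingCat.ofHom ((g z).comp (𝒜.ψ b))) := by
      show (Spec.map (CommRingCat.ofHom (g z)) ≫ 𝒜.j b) ≫ π = _
      rw [Category.assoc, 𝒜.str b, ← Up.map_comp]
    rw [h2] at h1
    exact congrArg CommRingCat.Hom.hom (Spec.map_injective h1)
  have hev : ∀ z ∈ Metric.ball z₀ r, ∀ q : MvPolynomial (Fin n) (𝓞 F₀),
      evk (uz u hUC z) (toL (MvPolynomial.map τ q)) =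
        g z (MvPolynomial.eval₂ (𝒜.ψ b) (fun m => resT (𝒜.j b) (h m)) q) := by
    intro z hz q
    show ev (RingHom.id ℂ) (uz u hUC z) (toL (MvPolynomial.map τ q)) = _
    rw [ev_toL, MvPolynomial.eval_map, MvPolynomial.hom_eval₂, hstr z hz]
    have h1 : cu (uz u hUC z) = (g z ∘ fun m => resT (𝒜.j b) (h m)) := by
      funext m
      exact hru b (g z) z (hg z hz) m
    rw [h1]
    rfl
  have hcur : CurPar 𝒜 f b (fun l => toL (MvPolynomial.map τ (a l)))
      (fun l => toL (MvPolynomial.map τ (c l))) u hUC (Metric.ball z₀ r) g := by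
    refine ⟨Metric.isOpen_ball, ⟨z₀, Metric.mem_ball_self hr⟩, hg, fun z hz l => ?_⟩
    have h1 : g z (MvPolynomial.eval₂ (𝒜.ψ b) (fun m => resT (𝒜.j b) (h m)) (c l)) ≠ 0 :=
      ((hac l).1.map (g z)).ne_zero
    have h2 := congrArg (g z) (hac l).2
    rw [map_mul] at h2
    simp only [hev z hz]
    exact ⟨h1, by rw [eq_div_iff h1, h2]⟩
  exact hz₀ (cc_main σ i hGm 𝒜 hf n b _ _ u hUC _ g hcur z₀)

end Pool.Agent.Work.MP_e97a4d_nt
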