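import Pool.Agent.Work.MP_e97a4d_nt.UP.ACFin
import Pool.Agent.Work.MP_e97a4d_nt.UP.CCFin
import Pool.Agent.Work.MP_e97a4d_nt.UP.GmOfI
import Pool.Agent.Work.MP_e97a4d_nt.UP.GmOfII
import Pool.Agent.Work.MP_e97a4d_nt.UP.PBI
import Pool.Agent.Work.MP_e97a4d_nt.UP.PBII

/-!
# Main theorem: unit points and unit curves
-/

set_option autoImplicit false

noncomputable section

namespace Pool.Agent.Work.MP_e97a4d_nt

open AlgebraicGeometry CategoryTheory IsDedekindDomain NumberField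

variable {F₀ : Type} [Field F₀] {V V' : Scheme.{0}}

theorem condIunit_of_condI (σ : F₀ →+* ℂ) (π : V ⟶ Spec (CommRingCat.of (𝓞 F₀))) (i : V' ⟶ V)
    (h : CondI σ π i) : CondIunit σ π i :=
  fun f hf _ _ _ _ _ _ _ _ z => h f hf z

theorem condIIunit_of_condII (π : V ⟶ Spec (CommRingCat.of (𝓞 F₀))) (i : V' ⟶ V)
    (h : CondII π i) : CondIIunit π i := by
  intro A ψ j _ ι _ t _ F _ _ _ S m
  exact (h F S).subset fun y hy => ⟨hy.1, hy.2.2⟩

theorem unit_tfae [NumberField F₀] (σ : F₀ →+* ℂ)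
    (π : V ⟶ Spec (CommRingCat.of (𝓞 F₀))) [LocallyOfFiniteType π] [QuasiCompact π]
    (i : V' ⟶ V) [IsClosedImmersion i] :
    (CondI σ π i → CondIunit σ π i) ∧ (CondII π i → CondIIunit π i) ∧
      [CondIunit σ π i, CondIIunit π i, CondGm σ π i].TFAE := by
  refine ⟨condIunit_of_condI σ π i, condIIunit_of_condII π i, ?_⟩
  tfae_have 1 → 3 := condGm_of_condIunit σ π i
  tfae_have 3 → 2 := condIIunit_of_condGm σ π i
  tfae_have 2 → 3 := condGm_of_condIIunit σ π i
  tfae_have 3 → 1 := condIunit_of_condGm σ π i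
  tfae_finish

theorem blv_units [NumberField F₀] (σ : F₀ →+* ℂ)
    (π : V ⟶ Spec (CommRingCat.of (𝓞 F₀))) [LocallyOfFiniteType π] [QuasiCompact π]
    (i : V' ⟶ V) [IsClosedImmersion i] {n : ℕ} (h : Fin n → Γ(V, ⊤)) (hu : ∀ m, IsUnit (h m))
    (himm : SurjectiveOnStalks (toAff π i h)) :
    [CondI σ π i, CondII π i, CondGm σ π i].TFAE := by
  tfae_have 1 → 3 := fun h1 => condGm_of_condIunit σ π i (condIunit_of_condI σ π i h1)
  tfae_have 2 → 3 := fun h1 => condGm_of_condIIunit σ π i (condIIunit_of_condII π i h1)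
  tfae_have 3 → 1 := condI_of_units σ π i h hu himm
  tfae_have 3 → 2 := condII_of_units σ π i h hu himm
  tfae_finish

end Pool.Agent.Work.MP_e97a4d_nt
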