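import Pool.Agent.Work.MP_e97a4d_nt.ExpDefs
import Pool.Agent.Work.UP.LDefs

/-!
# Unit points and unit curves: definitions (block V)

Blueprint: `/team-store/blueprint_V.md`.
-/

set_option autoImplicit false

noncomputable section

namespace Pool.Agent.Work.MP_e97a4d_nt

open AlgebraicGeometry CategoryTheory IsDedekindDomain NumberField
open Pool.Agent.Work.UP

/-! ### The conditions of the theorem -/

/-- The ring generated by the entire functions without zeros. -/
def unitRing : Subring (ℂ → ℂ) :=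
  Subring.closure {f | Differentiable ℂ f ∧ ∀ z, f z ≠ 0}

variable {F₀ : Type} [Field F₀] {V V' : Scheme.{0}}

/-- Condition (i) for unit curves: if, on some nonempty open set `D`, the entire curve `f` is of
the form `j (g z)` with a morphism `j` from an affine scheme to `V` and a family `g z` of complex
points all of whose coordinates are quotients of elements of `unitRing`, then all values of `f`
are in `V'`. -/
def CondIunit (σ : F₀ →+* ℂ) (π : V ⟶ Spec (CommRingCat.of (𝓞 F₀))) (i : V' ⟶ V) : Prop :=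
  ∀ f : ℂ → (Spec (CommRingCat.of ℂ) ⟶ V), IsEntireCurve σ π f →
    ∀ (A : CommRingCat.{0}) (j : Spec A ⟶ V) (g : ℂ → (A →+* ℂ)) (D : Set ℂ),
      IsOpen D → D.Nonempty → (∀ z ∈ D, f z = Spec.map (CommRingCat.ofHom (g z)) ≫ j) →
      (∀ a : A, ∃ p ∈ unitRing, ∃ q ∈ unitRing, q ≠ 0 ∧ ∀ z ∈ D, g z a * q z = p z) →
      ∀ z, ∃ p : Spec (CommRingCat.of ℂ) ⟶ V', p ≫ i = f z

/-- `x` is a sum of `m` elements each of which is zero or an `S`-unit. -/
def IsUnitSum (F : Type) [Field F] [NumberField F] (S : Finset (HeightOneSpectrum (𝓞 F)))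
    (m : ℕ) (x : F) : Prop :=
  ∃ u : Fin m → F, (∀ l, u l = 0 ∨
    ∃ v ∈ (S : Set (HeightOneSpectrum (𝓞 F))).unit F, (v : F) = u l) ∧ x = ∑ l, u l

/-- Condition (ii) for unit points. `A` is an `O_{F₀}`-algebra (structure map `ψ`) with
finitely many generators `t k` and `j` is a morphism `Spec A ⟶ V` over `O_{F₀}`. Only finitely
many `S`-integral points of `V` outside `V'` are, over `F`, of the form `j (P)` with `P` a point
of `Spec A` whose coordinates `t k` are quotients of sums of at most `m` `S`-units. -/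
def CondIIunit (π : V ⟶ Spec (CommRingCat.of (𝓞 F₀))) (i : V' ⟶ V) : Prop :=
  ∀ (A : CommRingCat.{0}) (ψ : 𝓞 F₀ →+* A) (j : Spec A ⟶ V)
    (_ : j ≫ π = Spec.map (CommRingCat.ofHom ψ)) (ι : Type) (_ : Finite ι) (t : ι → A)
    (_ : Function.Surjective (MvPolynomial.eval₂Hom ψ t))
    (F : Type) [Field F] [NumberField F] [Algebra F₀ F] (S : Finset (HeightOneSpectrum (𝓞 F)))
    (m : ℕ),
    {y ∈ integralPoints π F S |
      (∃ P : A →+* F, Spec.map (CommRingCat.ofHom (algebraMap (SInt F S) F)) ≫ y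
          = Spec.map (CommRingCat.ofHom P) ≫ j ∧
        ∀ k, ∃ a b : F, IsUnitSum F S m a ∧ IsUnitSum F S m b ∧ b ≠ 0 ∧ P (t k) = a / b) ∧
      ¬ ∃ z : Spec (CommRingCat.of (SInt F S)) ⟶ V', z ≫ i = y}.Finite

/-! ### Points, atlases, parametrised families -/

/-- The point of `V` with coordinates given by the homomorphism `P`. -/
abbrev spt {B : CommRingCat.{0}} (j : Spec B ⟶ V) {k : Type} [CommRing k] (P : B →+* k) :
    Spec (CommRingCat.of k) ⟶ V :=
  Spec.map (CommRingCat.ofHom P) ≫ j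

/-- The `F`-point of an `S`-integral point. -/
abbrev gpt {F : Type} [Field F] [NumberField F] {S : Finset (HeightOneSpectrum (𝓞 F))}
    (y : Spec (CommRingCat.of (SInt F S)) ⟶ V) : Spec (CommRingCat.of F) ⟶ V :=
  Spec.map (CommRingCat.ofHom (algebraMap (SInt F S) F)) ≫ y

/-- A finite atlas of affine charts with finitely many generators. -/
structure Atlas (π : V ⟶ Spec (CommRingCat.of (𝓞 F₀))) where
  /-- the index set of the charts -/
  β : Type
  fin : Finite β
  /-- the rings of functions -/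
  B : β → CommRingCat.{0}
  /-- the charts -/
  j : ∀ b, Spec (B b) ⟶ V
  oi : ∀ b, IsOpenImmersion (j b)
  cov : ∀ v : V, ∃ b, v ∈ Set.range (j b)
  /-- the structure maps -/
  ψ : ∀ b, 𝓞 F₀ →+* B b
  str : ∀ b, j b ≫ π = Spec.map (CommRingCat.ofHom (ψ b))
  /-- the index sets of the generators -/
  ι : β → Type
  finι : ∀ b, Finite (ι b)
  /-- the generators -/
  x : ∀ b, ι b → B b
  gen : ∀ b, Function.Surjective (MvPolynomial.eval₂Hom (ψ b) (x b))

/-- evaluation of Laurent polynomials over `k` at points with coordinates in `k` -/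
abbrev evk {k : Type} [Field k] {d : ℕ} (u : Fin d → kˣ) : Lp k d →+* k := ev (RingHom.id k) u

/-- The structure map of the field of rational functions. -/
abbrev strQ {k : Type} [Field k] (τ : 𝓞 F₀ →+* k) (d : ℕ) : 𝓞 F₀ →+* Qp k d :=
  (algebraMap (Lp k d) (Qp k d)).comp ((lC : k →+* Lp k d).comp τ)

/-- A Zariski dense family of points of `Spec B` parametrised by rational functions `N / D` of
units: pairs `(u, P)` with `P (x k) = N k (u) / D k (u)`. -/
structure IsFam {B : CommRingCat.{0}} (ψ : 𝓞 F₀ →+* B) {ι : Type} (x : ι → B)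
    {k : Type} [Field k] (τ : 𝓞 F₀ →+* k) {d : ℕ} (N D : ι → Lp k d)
    (U : Set ((Fin d → kˣ) × (B →+* k))) : Prop where
  str : ∀ e ∈ U, e.2.comp ψ = τ
  den : ∀ e ∈ U, ∀ l, evk e.1 (D l) ≠ 0
  val : ∀ e ∈ U, ∀ l, e.2 (x l) = evk e.1 (N l) / evk e.1 (D l)
  dense : ∀ n : Lp k d, n ≠ 0 → ∃ e ∈ U, evk e.1 n ≠ 0

/-- `φ : B →+* k(T)` is the generic point of the family `U`: all members of the family are
specialisations of `φ`. -/
structure IsGen {B : CommRingCat.{0}} (ψ : 𝓞 F₀ →+* B) {k : Type} [Field k] (τ : 𝓞 F₀ →+* k)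
    {d : ℕ} (U : Set ((Fin d → kˣ) × (B →+* k))) (φ : B →+* Qp k d) : Prop where
  str : φ.comp ψ = strQ τ d
  spec : ∀ z : B, ∃ n m : Lp k d, m ≠ 0 ∧
    φ z = algebraMap (Lp k d) (Qp k d) n / algebraMap (Lp k d) (Qp k d) m ∧
      ∀ e ∈ U, evk e.1 m ≠ 0 ∧ e.2 z = evk e.1 n / evk e.1 m

/-- `y` is, over `F`, the point with coordinates `P` in the chart `b`, and these coordinates are
the values of `N / D` at the tuple `u` of `T`-units. -/
def ParAt {π : V ⟶ Spec (CommRingCat.of (𝓞 F₀))} (𝒜 : Atlas π)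
    {F : Type} [Field F] [NumberField F] [Algebra F₀ F] {T : Finset (HeightOneSpectrum (𝓞 F))}
    {d : ℕ} (b : 𝒜.β) (N D : 𝒜.ι b → Lp F d) (y : Spec (CommRingCat.of (SInt F T)) ⟶ V)
    (u : Fin d → Fˣ) (P : 𝒜.B b →+* F) : Prop :=
  IsUv T (cu u) ∧ gpt y = spt (𝒜.j b) P ∧
    ∀ l, evk u (D l) ≠ 0 ∧ P (𝒜.x b l) = evk u (N l) / evk u (D l)

/-- The `T`-integral points outside `V'` which are parametrised by the functions `N / D` in the
chart `b`. -/
def Par {π : V ⟶ Spec (CommRingCat.of (𝓞 F₀))} (i : V' ⟶ V) (𝒜 : Atlas π)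
    (F : Type) [Field F] [NumberField F] [Algebra F₀ F] (T : Finset (HeightOneSpectrum (𝓞 F)))
    {d : ℕ} (b : 𝒜.β) (N D : 𝒜.ι b → Lp F d) : Set (Spec (CommRingCat.of (SInt F T)) ⟶ V) :=
  {y ∈ integralPoints π F T | (∃ u P, ParAt 𝒜 b N D y u P) ∧
    ¬ ∃ z : Spec (CommRingCat.of (SInt F T)) ⟶ V', z ≫ i = y}

end Pool.Agent.Work.MP_e97a4d_nt
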