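import Pool.Agent.Work.MP_e97a4d_nt.UP.Defs

/-!
# PBDefs: restriction of global functions, the open complement
-/

set_option autoImplicit false

noncomputable section

namespace Pool.Agent.Work.MP_e97a4d_nt

open AlgebraicGeometry CategoryTheory IsDedekindDomain NumberField

/-- The restriction of a global function on `V` along a morphism `j : Spec B ⟶ V`. -/
def resT {V : Scheme.{0}} {B : CommRingCat.{0}} (j : Spec B ⟶ V) : Γ(V, ⊤) →+* B :=
  ((Scheme.ΓSpecIso B).hom.hom).comp j.appTop.hom

/-- The open complement of a closed subscheme. -/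
def openCompl {V V' : Scheme.{0}} (i : V' ⟶ V) [IsClosedImmersion i] : V.Opens :=
  ⟨(Set.range i)ᶜ, (Scheme.Hom.isClosedEmbedding i).isClosed_range.isOpen_compl⟩

theorem resT_comp {V : Scheme.{0}} {B C : CommRingCat.{0}} (j : Spec B ⟶ V) (φ : B ⟶ C)
    (h : Γ(V, ⊤)) : resT (Spec.map φ ≫ j) h = φ.hom (resT j h) := by
  unfold resT
  simp only [RingHom.comp_apply, Scheme.Hom.comp_appTop, CommRingCat.hom_comp]
  have h1 := congrArg CommRingCat.Hom.hom (Scheme.ΓSpecIso_naturality φ)
  exact RingHom.congr_fun h1 (j.appTop.hom h)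

/-- The morphism from the complement of `V'` to affine `n`-space over `O_{F₀}` given by `n` global
functions on `V`. -/
abbrev toAff {F₀ : Type} [Field F₀] {V V' : Scheme.{0}} (π : V ⟶ Spec (CommRingCat.of (𝓞 F₀)))
    (i : V' ⟶ V) [IsClosedImmersion i] {n : ℕ} (h : Fin n → Γ(V, ⊤)) :
    (openCompl i).toScheme ⟶ AffineSpace (Fin n) (Spec (CommRingCat.of (𝓞 F₀))) :=
  (openCompl i).ι ≫ AffineSpace.homOfVector π h

end Pool.Agent.Work.MP_e97a4d_nt
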