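import Pool.Agent.Work.MP_e97a4d_nt.UP.PBDefs
import Pool.Agent.Work.MP_e97a4d_nt.UP.VAtlas

/-!
# PBAtlas (M-L): charts on which the coordinates are rational functions of the units

Let `O = openCompl i`, `θ = toAff π i h : O ⟶ 𝔸^n`, surjective on stalks, `v ∈ O`. Take an affine open
`U ⊆ O` of `V` containing `v` and finitely many generators `x l` of `Γ(V, U)` over `𝓞 F₀`. Local rings of
`𝔸^n` at `θ v`: fractions `a / c` of polynomials `a, c ∈ (𝓞 F₀)[T]` with `c (θ v) ≠ 0` (`𝔸^n` is
`Spec (MvPolynomial (Fin n) (𝓞 F₀))`, `AffineSpace.SpecIso`). By surjectivity the germ of `x l` at `v` is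
the image of some `a l / c l`, i.e. of `a l (h) / c l (h)`. So there is `g ∈ Γ(V, U)` with `v ∈ D(g)` such
that on `D(g)`: `c l (h)` is invertible and `x l * c l (h) = a l (h)` for all `l`, and the same for the
additional generator `1 / g` of `Γ(V, D(g)) = Γ(V, U)_g`: the germ of `g` is also of the form
`a₀ (h) / c₀ (h)` with both `a₀ (h)` and `c₀ (h)` units at `v`; shrink `D(g)` once more to `D(g g')` with
`g' ∈ Γ(V, U)` such that all these identities hold and write `1 / (g g')` as the image of a fraction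
at `v`, too. To avoid a circle: first choose `a l, c l` for the generators `x l`; the identities
`x l * c l (h) = a l (h)` and invertibility hold on some `D(g₁)`, `v ∈ D(g₁) ⊆ U`, with
`g₁ ∈ Γ(V, U)`; `g₁` is a polynomial in the `x l`, so on `D(g₁)` it is `A (h) / C (h)` with `C` a product of
powers of the `c l`, `C (h)` invertible; hence `A (h) = g₁ C (h)` is invertible on `D(g₁)` and
`1 / g₁ = C (h) / A (h)`. So the affine open `D(g₁)` with the generators `x l`, `1 / g₁` is a good chart.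
`V` is Noetherian (`π` of finite type over a Noetherian ring), so `O` is quasi-compact and finitely
many of these good charts cover `O`. Together with an arbitrary atlas (`nonempty_atlas`) they form
the required atlas (index type `Sum`).
-/

set_option autoImplicit false

noncomputable section

namespace Pool.Agent.Work.MP_e97a4d_nt

open AlgebraicGeometry CategoryTheory IsDedekindDomain NumberField MvPolynomial

variable {F₀ : Type} [Field F₀] {V V' : Scheme.{0}}

/-- A chart. -/
private structure Cht (π : V ⟶ Spec (CommRingCat.of (𝓞 F₀))) where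
  B : CommRingCat.{0}
  j : Spec B ⟶ V
  oi : IsOpenImmersion j
  ψ : 𝓞 F₀ →+* B
  str : j ≫ π = Spec.map (CommRingCat.ofHom ψ)
  ι : Type
  finι : Finite ι
  x : ι → B
  gen : Function.Surjective (MvPolynomial.eval₂Hom ψ x)

/-- A chart in which the coordinates are rational functions of the global functions. -/
private def GoodCht {π : V ⟶ Spec (CommRingCat.of (𝓞 F₀))} (C : Cht π) {n : ℕ}
    (h : Fin n → Γ(V, ⊤)) : Prop :=
  ∃ a c : C.ι → MvPolynomial (Fin n) (𝓞 F₀), ∀ l,
    IsUnit (eval₂ C.ψ (fun m => resT C.j (h m)) (c l)) ∧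
      C.x l * eval₂ C.ψ (fun m => resT C.j (h m)) (c l) =
        eval₂ C.ψ (fun m => resT C.j (h m)) (a l)

/-- In a localization of a ring generated by fractions everything is a fraction. -/
private theorem frac_all {R B B' : Type} [CommRing R] [CommRing B] [CommRing B'] {ι : Type}
    (ψ : R →+* B) (x : ι → B) (hgen : Function.Surjective (MvPolynomial.eval₂Hom ψ x))
    {n : ℕ} (ρ : MvPolynomial (Fin n) R →+* B) (hρ : ∀ r, ρ (MvPolynomial.C r) = ψ r)
    (τ : B →+* B') (a c : ι → MvPolynomial (Fin n) R) (hc : ∀ l, IsUnit (τ (ρ (c l))))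
    (hac : ∀ l, τ (x l) * τ (ρ (c l)) = τ (ρ (a l))) (z : B) :
    ∃ A C : MvPolynomial (Fin n) R, IsUnit (τ (ρ C)) ∧ τ z * τ (ρ C) = τ (ρ A) := by
  obtain ⟨q, rfl⟩ := hgen z
  induction q using MvPolynomial.induction_on with
  | C r =>
    refine ⟨MvPolynomial.C r, 1, by simp, ?_⟩
    rw [MvPolynomial.eval₂Hom_C, hρ, map_one, map_one, mul_one]
  | add p q hp hq =>
    obtain ⟨A, C, hC, h1⟩ := hp
    obtain ⟨A', C', hC', h2⟩ := hq
    refine ⟨A * C' + A' * C, C * C', ?_, ?_⟩
    · rw [map_mul, map_mul]; exact hC.mul hC'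
    · simp only [map_add, map_mul, ← h1, ← h2]; ring
  | mul_X p l hp =>
    obtain ⟨A, C, hC, h1⟩ := hp
    refine ⟨A * a l, C * c l, ?_, ?_⟩
    · rw [map_mul, map_mul]; exact hC.mul (hc l)
    · rw [map_mul (MvPolynomial.eval₂Hom ψ x), MvPolynomial.eval₂Hom_X']
      simp only [map_mul, ← h1, ← hac]; ring

private theorem exists_good_chart [NumberField F₀] (π : V ⟶ Spec (CommRingCat.of (𝓞 F₀)))
    [LocallyOfFiniteType π] (i : V' ⟶ V) [IsClosedImmersion i] {n : ℕ}
    (h : Fin n → Γ(V, ⊤)) (himm : SurjectiveOnStalks (toAff π i h)) (v : V)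
    (hv : v ∉ Set.range i) : ∃ C : Cht π, v ∈ Set.range C.j ∧ GoodCht C h := by
  classical
  obtain ⟨W, hW, hvW, hWO⟩ := exists_isAffineOpen_mem_and_subset (X := V) (x := v)
    (U := openCompl i) hv
  let B : CommRingCat.{0} := Γ(V, W)
  let j : Spec B ⟶ V := hW.fromSpec
  have hj : Set.range j = (W : Set V) := hW.range_fromSpec
  obtain ⟨ψ', hψ'⟩ := Spec.map_surjective (j ≫ π)
  let ψ : 𝓞 F₀ →+* B := ψ'.hom
  have hψ : j ≫ π = Spec.map (CommRingCat.ofHom ψ) := hψ'.symm
  have hft : LocallyOfFiniteType (Spec.map ψ') := by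
    rw [hψ']; infer_instance
  have hft' : ψ.FiniteType := by
    rw [HasRingHomProperty.Spec_iff (P := @LocallyOfFiniteType)] at hft
    exact hft
  obtain ⟨m, x, hgen⟩ : ∃ (m : ℕ) (x : Fin m → B),
      Function.Surjective (MvPolynomial.eval₂Hom ψ x) := by
    let _ : Algebra (𝓞 F₀) B := ψ.toAlgebra
    have hfin' : Algebra.FiniteType (𝓞 F₀) B := hft'
    obtain ⟨m, f, hf⟩ := Algebra.FiniteType.iff_quotient_mvPolynomial''.1 hfin'
    refine ⟨m, fun k => f (MvPolynomial.X k), ?_⟩
    have h1 : (MvPolynomial.aeval (fun k : Fin m => f (MvPolynomial.X k)) :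
        MvPolynomial (Fin m) (𝓞 F₀) →ₐ[𝓞 F₀] B) = f := by
      apply MvPolynomial.algHom_ext
      intro k
      simp
    have h2 : Function.Surjective (MvPolynomial.aeval (fun k : Fin m => f (MvPolynomial.X k)) :
        MvPolynomial (Fin m) (𝓞 F₀) →ₐ[𝓞 F₀] B) := by rw [h1]; exact hf
    exact h2
  -- the map of rings
  let ρ : MvPolynomial (Fin n) (𝓞 F₀) →+* B :=
    MvPolynomial.eval₂Hom ψ (fun m => resT j (h m))
  have hρC : ∀ r, ρ (MvPolynomial.C r) = ψ r := fun r => MvPolynomial.eval₂Hom_C _ _ _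
  have hjO : Set.range j ⊆ Set.range (openCompl i).ι := by
    rw [hj, Scheme.Opens.range_ι]
    exact hWO
  let k : Spec B ⟶ (openCompl i).toScheme := IsOpenImmersion.lift (openCompl i).ι j hjO
  have hk : k ≫ (openCompl i).ι = j := IsOpenImmersion.lift_fac _ _ _
  have hkoi : IsOpenImmersion k := by
    have h1 : IsOpenImmersion (k ≫ (openCompl i).ι) := by rw [hk]; infer_instance
    exact IsOpenImmersion.of_comp k (openCompl i).ι
  have hcomp : k ≫ toAff π i h ≫ (AffineSpace.SpecIso (Fin n) (CommRingCat.of (𝓞 F₀))).hom =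
      Spec.map (CommRingCat.ofHom ρ) := by
    have h1 : j ≫ AffineSpace.homOfVector π h = Spec.map (CommRingCat.ofHom ρ) ≫
        (AffineSpace.SpecIso (Fin n) (CommRingCat.of (𝓞 F₀))).inv := by
      apply AffineSpace.hom_ext
      · rw [Category.assoc, Category.assoc, AffineSpace.homOfVector_over,
          AffineSpace.SpecIso_inv_over, hψ, ← Spec.map_comp, ← CommRingCat.ofHom_comp]
        congr 2
        ext r
        exact (hρC r).symm
      · intro l
        rw [Scheme.Hom.comp_appTop, Scheme.Hom.comp_appTop, CommRingCat.comp_apply,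
          CommRingCat.comp_apply, AffineSpace.homOfVector_appTop_coord]
        have h2 := AffineSpace.SpecIso_inv_appTop_coord (n := Fin n) (CommRingCat.of (𝓞 F₀)) l
        rw [h2, ← CommRingCat.comp_apply, ← Scheme.ΓSpecIso_inv_naturality, CommRingCat.comp_apply]
        have h3 : (CommRingCat.ofHom ρ) (MvPolynomial.X l) = resT j (h l) :=
          MvPolynomial.eval₂Hom_X' _ _ _
        have h4 : (Scheme.ΓSpecIso B).inv (resT j (h l)) = j.appTop (h l) := by
          show (Scheme.ΓSpecIso B).inv ((Scheme.ΓSpecIso B).hom (j.appTop (h l))) = _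
          rw [← CommRingCat.comp_apply, Iso.hom_inv_id]
          rfl
        rw [← h4, ← h3]
        rfl
    have h5 : k ≫ toAff π i h = j ≫ AffineSpace.homOfVector π h := by
      rw [← Category.assoc, hk]
    rw [← Category.assoc, h5, h1, Category.assoc, Iso.inv_hom_id, Category.comp_id]
  have hsur : RingHom.SurjectiveOnStalks ρ := by
    have h1 : SurjectiveOnStalks (k ≫ toAff π i h ≫
        (AffineSpace.SpecIso (Fin n) (CommRingCat.of (𝓞 F₀))).hom) := by
      have := himm
      infer_instance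
    rw [hcomp] at h1
    exact SurjectiveOnStalks.Spec_iff.1 h1
  -- the point
  obtain ⟨p, hp⟩ : v ∈ Set.range j := by rw [hj]; exact hvW
  have hloc : ∀ s : B, ∃ a r : MvPolynomial (Fin n) (𝓞 F₀), ∃ c ∉ p.asIdeal,
      ρ r ∉ p.asIdeal ∧ c * ρ r * s = c * ρ a := by
    have := p.2
    exact (RingHom.surjective_localRingHom_iff p.asIdeal).1 (hsur p.asIdeal p.2)
  choose a r c hc hr hac using fun l => hloc (x l)
  let g : B := ∏ l, (c l * ρ (r l))
  have hg : g ∉ p.asIdeal := by
    intro hmem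
    obtain ⟨l, -, hl⟩ := (Ideal.IsPrime.prod_mem_iff (hp := p.2)).1 hmem
    rcases p.2.mem_or_mem hl with h1 | h1
    · exact hc l h1
    · exact hr l h1
  let B' : CommRingCat.{0} := CommRingCat.of (Localization.Away g)
  let τ : B →+* B' := algebraMap B (Localization.Away g)
  have hτg : IsUnit (τ g) :=
    IsLocalization.map_units (Localization.Away g) (⟨g, Submonoid.mem_powers g⟩ : Submonoid.powers g)
  have hunit : ∀ l, IsUnit (τ (c l)) ∧ IsUnit (τ (ρ (r l))) := by
    intro l
    have h1 : c l * ρ (r l) ∣ g := Finset.dvd_prod_of_mem (fun l => c l * ρ (r l)) (Finset.mem_univ l)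
    have h2 : IsUnit (τ (c l * ρ (r l))) := isUnit_of_dvd_unit (map_dvd τ h1) hτg
    rw [map_mul] at h2
    exact ⟨isUnit_of_mul_isUnit_left h2, isUnit_of_mul_isUnit_right h2⟩
  have hacl : ∀ l, τ (x l) * τ (ρ (r l)) = τ (ρ (a l)) := by
    intro l
    apply (hunit l).1.mul_left_cancel
    rw [← map_mul, ← map_mul, ← map_mul, ← hac l]
    congr 1
    ring
  obtain ⟨A, C, hC, hAC⟩ := frac_all ψ x hgen ρ hρC τ a r (fun l => (hunit l).2) hacl g
  let j' : Spec B' ⟶ V := Spec.map (CommRingCat.ofHom τ) ≫ j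
  have hj' : IsOpenImmersion j' := by
    have h1 : IsOpenImmersion (Spec.map (CommRingCat.ofHom τ)) :=
      inferInstanceAs (IsOpenImmersion (Spec.map (CommRingCat.ofHom
        (algebraMap B (Localization.Away g)))))
    infer_instance
  let inv : B' := IsLocalization.Away.invSelf (S := Localization.Away g) g
  have hinv : τ g * inv = 1 := IsLocalization.Away.mul_invSelf g
  let x' : Option (Fin m) → B' := fun o => o.elim inv (fun l => τ (x l))
  have hx'none : x' none = inv := rfl
  have hx'some : ∀ l, x' (some l) = τ (x l) := fun l => rfl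
  have hgen' : Function.Surjective (MvPolynomial.eval₂Hom (τ.comp ψ) x') := by
    intro z
    have hBmem : ∀ y : B, τ y ∈ (MvPolynomial.eval₂Hom (τ.comp ψ) x').range := by
      intro y
      obtain ⟨q, rfl⟩ := hgen y
      induction q using MvPolynomial.induction_on with
      | C r =>
        refine ⟨MvPolynomial.C r, ?_⟩
        rw [MvPolynomial.eval₂Hom_C, MvPolynomial.eval₂Hom_C]
        rfl
      | add p q hp hq => rw [map_add, map_add]; exact add_mem hp hq
      | mul_X p l hp =>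
        rw [map_mul, map_mul]
        refine mul_mem hp ⟨MvPolynomial.X (some l), ?_⟩
        rw [MvPolynomial.eval₂Hom_X', MvPolynomial.eval₂Hom_X']
        rfl
    obtain ⟨⟨w, t⟩, hw⟩ := IsLocalization.surj (Submonoid.powers g) (S := Localization.Away g) z
    obtain ⟨N, hN⟩ := t.2
    have h1 : z * τ g ^ N = τ w := by
      rw [← map_pow]
      have h2 : g ^ N = t := hN
      rw [h2]
      exact hw
    have h3 : z = τ w * inv ^ N := by
      rw [← h1, mul_assoc, ← mul_pow, hinv, one_pow, mul_one]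
    have h4 : inv ∈ (MvPolynomial.eval₂Hom (τ.comp ψ) x').range :=
      ⟨MvPolynomial.X none, by rw [MvPolynomial.eval₂Hom_X']; rfl⟩
    have h5 : z ∈ (MvPolynomial.eval₂Hom (τ.comp ψ) x').range := by
      rw [h3]
      exact mul_mem (hBmem w) (pow_mem h4 N)
    exact h5
  have hstr' : j' ≫ π = Spec.map (CommRingCat.ofHom (τ.comp ψ)) := by
    show (Spec.map (CommRingCat.ofHom τ) ≫ j) ≫ π = _
    rw [Category.assoc, hψ, ← Spec.map_comp, ← CommRingCat.ofHom_comp]
  have hev : ∀ q : MvPolynomial (Fin n) (𝓞 F₀),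
      eval₂ (τ.comp ψ) (fun m => resT j' (h m)) q = τ (ρ q) := by
    intro q
    have h1 : (fun m => resT j' (h m)) = fun m => τ (resT j (h m)) := by
      funext m
      exact resT_comp j (CommRingCat.ofHom τ) (h m)
    rw [h1]
    show eval₂ (τ.comp ψ) (fun m => τ (resT j (h m))) q =
      τ (MvPolynomial.eval₂Hom ψ (fun m => resT j (h m)) q)
    rw [MvPolynomial.coe_eval₂Hom, MvPolynomial.hom_eval₂]
  refine ⟨⟨B', j', hj', τ.comp ψ, hstr', Option (Fin m), inferInstance, x', hgen'⟩, ?_,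
    fun o => o.elim C a, fun o => o.elim A r, ?_⟩
  · have h1 : p ∈ Set.range (Spec.map (CommRingCat.ofHom τ)) := by
      have h2 : Set.range (Spec.map (CommRingCat.ofHom τ)) =
          (PrimeSpectrum.basicOpen g : Set (PrimeSpectrum B)) :=
        PrimeSpectrum.localization_away_comap_range (Localization.Away g) g
      rw [h2]
      exact hg
    obtain ⟨q, hq⟩ := h1
    refine ⟨q, ?_⟩
    show (Spec.map (CommRingCat.ofHom τ) ≫ j) q = v
    rw [Scheme.Hom.comp_apply, hq, hp]
  · intro o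
    cases o with
    | none =>
      have h1 : IsUnit (τ (ρ A)) := by
        rw [← hAC]
        exact hτg.mul hC
      refine ⟨?_, ?_⟩
      · show IsUnit (eval₂ (τ.comp ψ) (fun m => resT j' (h m)) A)
        rw [hev]; exact h1
      · show inv * eval₂ (τ.comp ψ) (fun m => resT j' (h m)) A =
          eval₂ (τ.comp ψ) (fun m => resT j' (h m)) C
        rw [hev, hev, ← hAC, ← mul_assoc, mul_comm inv, hinv, one_mul]
    | some l =>
      refine ⟨?_, ?_⟩
      · show IsUnit (eval₂ (τ.comp ψ) (fun m => resT j' (h m)) (r l))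
        rw [hev]; exact (hunit l).2
      · show τ (x l) * eval₂ (τ.comp ψ) (fun m => resT j' (h m)) (r l) =
          eval₂ (τ.comp ψ) (fun m => resT j' (h m)) (a l)
        rw [hev, hev]; exact hacl l

/-- In the chart `b` the coordinates are rational functions of the global functions `h`. -/
def GoodChart {π : V ⟶ Spec (CommRingCat.of (𝓞 F₀))} (𝒜 : Atlas π) {n : ℕ}
    (h : Fin n → Γ(V, ⊤)) (b : 𝒜.β) : Prop :=
  ∃ a c : 𝒜.ι b → MvPolynomial (Fin n) (𝓞 F₀), ∀ l,
    IsUnit (eval₂ (𝒜.ψ b) (fun m => resT (𝒜.j b) (h m)) (c l)) ∧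
      𝒜.x b l * eval₂ (𝒜.ψ b) (fun m => resT (𝒜.j b) (h m)) (c l) =
        eval₂ (𝒜.ψ b) (fun m => resT (𝒜.j b) (h m)) (a l)

theorem exists_good_atlas [NumberField F₀] (π : V ⟶ Spec (CommRingCat.of (𝓞 F₀)))
    [LocallyOfFiniteType π] [QuasiCompact π] (i : V' ⟶ V) [IsClosedImmersion i] {n : ℕ}
    (h : Fin n → Γ(V, ⊤)) (himm : SurjectiveOnStalks (toAff π i h)) :
    ∃ 𝒜 : Atlas π, ∀ v : V, v ∉ Set.range i → ∃ b, v ∈ Set.range (𝒜.j b) ∧ GoodChart 𝒜 h b := by
  classical
  obtain ⟨𝒜₀⟩ := nonempty_atlas π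
  have hcs : CompactSpace V := by
    have h1 := QuasiCompact.isCompact_preimage (f := π) Set.univ isOpen_univ isCompact_univ
    rw [Set.preimage_univ] at h1
    exact ⟨h1⟩
  have hln : IsLocallyNoetherian V := LocallyOfFiniteType.isLocallyNoetherian π
  have hn : IsNoetherian V := {}
  have hcomp : IsCompact ((openCompl i : V.Opens) : Set V) :=
    TopologicalSpace.NoetherianSpace.isCompact _
  have hch : ∀ v : V, ∃ C : Cht π, v ∉ Set.range i → v ∈ Set.range C.j ∧ GoodCht C h := by
    intro v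
    by_cases hv : v ∈ Set.range i
    · obtain ⟨b, hb⟩ := 𝒜₀.cov v
      exact ⟨⟨𝒜₀.B b, 𝒜₀.j b, 𝒜₀.oi b, 𝒜₀.ψ b, 𝒜₀.str b, 𝒜₀.ι b, 𝒜₀.finι b, 𝒜₀.x b, 𝒜₀.gen b⟩,
        fun h => absurd hv h⟩
    · obtain ⟨C, hC⟩ := exists_good_chart π i h himm v hv
      exact ⟨C, fun _ => hC⟩
  choose C hC using hch
  obtain ⟨t, htO, ht⟩ := hcomp.elim_nhds_subcover (fun v : V => Set.range (C v).j) (by
    intro v hv
    have := (C v).oi
    exact (Scheme.Hom.isOpenEmbedding (C v).j).isOpen_range.mem_nhds (hC v hv).1)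
  let ch : 𝒜₀.β ⊕ {v : V // v ∈ t} → Cht π := Sum.elim
    (fun b => ⟨𝒜₀.B b, 𝒜₀.j b, 𝒜₀.oi b, 𝒜₀.ψ b, 𝒜₀.str b, 𝒜₀.ι b, 𝒜₀.finι b, 𝒜₀.x b, 𝒜₀.gen b⟩)
    (fun v => C v.1)
  have hfin : Finite 𝒜₀.β := 𝒜₀.fin
  let 𝒜 : Atlas π :=
    { β := 𝒜₀.β ⊕ {v : V // v ∈ t}
      fin := inferInstance
      B := fun b => (ch b).B
      j := fun b => (ch b).j
      oi := fun b => (ch b).oi
      cov := fun v => by
        obtain ⟨b, hb⟩ := 𝒜₀.cov v
        exact ⟨Sum.inl b, hb⟩
      ψ := fun b => (ch b).ψ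
      str := fun b => (ch b).str
      ι := fun b => (ch b).ι
      finι := fun b => (ch b).finι
      x := fun b => (ch b).x
      gen := fun b => (ch b).gen }
  refine ⟨𝒜, fun v hv => ?_⟩
  obtain ⟨w, hw, hvw⟩ := Set.mem_iUnion₂.1 (ht hv)
  exact ⟨Sum.inr ⟨w, hw⟩, hvw, (hC w (htO w hw)).2⟩

end Pool.Agent.Work.MP_e97a4d_nt
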