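import Mathlib
import Pool.Agent.Work.MP_e97a4d_nt.UP.Sch

/-!
# Block V-SCH: the generic point of a dense family of parametrised points

`Λ` is a domain (the Laurent polynomials), `e i : Λ → k` (`i : I`) a family of homomorphisms to a
field which is dense (every `n ≠ 0` has `e i n ≠ 0` for some `i`), and `P i : B → k` a family of points
of a chart `B` whose coordinates are `P i (x k) = e i (N k) / e i (D k)`.
-/

set_option autoImplicit false

namespace Pool.Agent.Work.MP_e97a4d_nt.Up

open AlgebraicGeometry CategoryTheory CategoryTheory.Limits IsDedekindDomain NumberField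

/-- The generic point of the family. -/
theorem gen {R₀ B Λ k I κ : Type} [CommRing R₀] [CommRing B] [CommRing Λ] [IsDomain Λ] [Field k]
    (ψ : R₀ →+* B) (x : κ → B) (hx : Function.Surjective (MvPolynomial.eval₂Hom ψ x))
    (ρΛ : R₀ →+* Λ) (e : I → (Λ →+* k)) (P : I → (B →+* k))
    (hdense : ∀ n : Λ, n ≠ 0 → ∃ i, e i n ≠ 0)
    (hψ : ∀ i, (P i).comp ψ = (e i).comp ρΛ)
    (N D : κ → Λ) (hD : ∀ i k, e i (D k) ≠ 0) (hN : ∀ i k, P i (x k) * e i (D k) = e i (N k)) :
    ∃ φ : B →+* FractionRing Λ, φ.comp ψ = (algebraMap Λ (FractionRing Λ)).comp ρΛ ∧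
      (∀ k, φ (x k) * algebraMap Λ (FractionRing Λ) (D k) = algebraMap Λ (FractionRing Λ) (N k)) ∧
      ∀ z : B, ∃ n m : Λ, m ≠ 0 ∧
        φ z * algebraMap Λ (FractionRing Λ) m = algebraMap Λ (FractionRing Λ) n ∧
        ∀ i, e i m ≠ 0 ∧ P i z * e i m = e i n := by
  classical
  set Q := FractionRing Λ with hQ
  set a := algebraMap Λ Q with ha
  have hainj : Function.Injective a := IsFractionRing.injective Λ Q
  -- if there are no members at all
  have hI : Nonempty I := by
    obtain ⟨i, -⟩ := hdense 1 one_ne_zero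
    exact ⟨i⟩
  obtain ⟨i₀⟩ := hI
  have hD0 : ∀ k, D k ≠ 0 := fun k h => hD i₀ k (by rw [h, map_zero])
  have haD : ∀ k, a (D k) ≠ 0 := fun k h => hD0 k (hainj (by rw [h, map_zero]))
  let F : MvPolynomial κ R₀ →+* Q := MvPolynomial.eval₂Hom (a.comp ρΛ) (fun k => a (N k) / a (D k))
  let G : MvPolynomial κ R₀ →+* B := MvPolynomial.eval₂Hom ψ x
  -- every polynomial expression is a quotient with good denominator
  have key : ∀ f : MvPolynomial κ R₀, ∃ n m : Λ, m ≠ 0 ∧ F f * a m = a n ∧
      ∀ i, e i m ≠ 0 ∧ P i (G f) * e i m = e i n := by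
    intro f
    induction f using MvPolynomial.induction_on with
    | C r =>
      refine ⟨ρΛ r, 1, one_ne_zero, ?_, fun i => ⟨by rw [map_one]; exact one_ne_zero, ?_⟩⟩
      · simp [F]
      · rw [map_one, mul_one]
        have h1 : G (MvPolynomial.C r) = ψ r := by simp [G]
        rw [h1]
        exact congrArg (fun t : R₀ →+* k => t r) (hψ i)
    | add f g hf hg =>
      obtain ⟨n, m, hm, h1, h2⟩ := hf
      obtain ⟨n', m', hm', h1', h2'⟩ := hg
      refine ⟨n * m' + n' * m, m * m', mul_ne_zero hm hm', ?_, fun i => ⟨?_, ?_⟩⟩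
      · rw [map_add, map_add, map_mul, map_mul, map_mul, ← h1, ← h1']
        ring
      · rw [map_mul]
        exact mul_ne_zero (h2 i).1 (h2' i).1
      · rw [map_add, map_add, map_mul, map_add, map_mul, map_mul, ← (h2 i).2, ← (h2' i).2]
        ring
    | mul_X f k hf =>
      obtain ⟨n, m, hm, h1, h2⟩ := hf
      refine ⟨n * N k, m * D k, mul_ne_zero hm (hD0 k), ?_, fun i => ⟨?_, ?_⟩⟩
      · have h3 : F (MvPolynomial.X k) = a (N k) / a (D k) := by simp [F]
        rw [map_mul, h3, map_mul, map_mul, ← h1]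
        have h4 : a (N k) / a (D k) * a (D k) = a (N k) := div_mul_cancel₀ _ (haD k)
        linear_combination (F f * a m) * h4
      · rw [map_mul]
        exact mul_ne_zero (h2 i).1 (hD i k)
      · have h3 : G (MvPolynomial.X k) = x k := by simp [G]
        rw [map_mul, h3, map_mul, map_mul, map_mul, ← (h2 i).2, ← hN i k]
        ring
  have hker : RingHom.ker G ≤ RingHom.ker F := by
    intro f hf
    rw [RingHom.mem_ker] at hf ⊢
    obtain ⟨n, m, hm, h1, h2⟩ := key f
    have hn : n = 0 := by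
      by_contra hn
      obtain ⟨i, hi⟩ := hdense n hn
      apply hi
      rw [← (h2 i).2, hf, map_zero, zero_mul]
    rw [hn, map_zero] at h1
    have h3 : a m ≠ 0 := fun h => hm (hainj (by rw [h, map_zero]))
    exact (mul_eq_zero.1 h1).resolve_right h3
  let φ : B →+* Q := RingHom.liftOfSurjective G hx ⟨F, hker⟩
  have hφ : ∀ f, φ (G f) = F f := fun f => RingHom.liftOfRightInverse_comp_apply _ _ _ _ f
  refine ⟨φ, ?_, ?_, ?_⟩
  · ext r
    have h1 : G (MvPolynomial.C r) = ψ r := by simp [G]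
    rw [RingHom.comp_apply, ← h1, hφ]
    simp [F]
  · intro k
    have h1 : G (MvPolynomial.X k) = x k := by simp [G]
    rw [← h1, hφ]
    have h3 : F (MvPolynomial.X k) = a (N k) / a (D k) := by simp [F]
    rw [h3, div_mul_cancel₀ _ (haD k)]
  · intro z
    obtain ⟨f, rfl⟩ := hx z
    obtain ⟨n, m, hm, h1, h2⟩ := key f
    exact ⟨n, m, hm, by rw [← h1]; exact congrArg (fun t => t * a m) (hφ f), h2⟩

end Pool.Agent.Work.MP_e97a4d_nt.Up
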