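import Mathlib
import Pool.Agent.Work.MP_e97a4d_nt.UP.Gen

/-!
# Block V-SCH: transition of a dense family of parametrised points to another chart

`φ : B → Frac Λ` is the generic point of the family `P i : B → k` (conclusion of `gen`).
-/

set_option autoImplicit false

namespace Pool.Agent.Work.MP_e97a4d_nt.Up

open AlgebraicGeometry CategoryTheory CategoryTheory.Limits IsDedekindDomain NumberField

/-- If the generic point is not in the chart `B'` then no member of the family is. -/
theorem trans_bad {V : Scheme.{0}} {B B' : CommRingCat.{0}} {Q k : Type} [Field Q] [Field k]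
    (j : Spec B ⟶ V) (j' : Spec B' ⟶ V) [IsOpenImmersion j'] (φ : B →+* Q) (P : B →+* k)
    (hker : ∀ z : B, φ z = 0 → P z = 0)
    (hbad : (Spec.map (CommRingCat.ofHom φ) ≫ j) (⊥ : PrimeSpectrum Q) ∉ Set.range j') :
    (Spec.map (CommRingCat.ofHom P) ≫ j) (⊥ : PrimeSpectrum k) ∉ Set.range j' := by
  intro h
  apply hbad
  let p : PrimeSpectrum B := PrimeSpectrum.comap P ⊥
  let p' : PrimeSpectrum B := PrimeSpectrum.comap φ ⊥
  have h1 : p' ⤳ p := by
    rw [← PrimeSpectrum.le_iff_specializes]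
    intro z hz
    exact hker z hz
  have h2 : (j p') ⤳ j p := h1.map j.continuous
  exact h2.mem_open j'.opensRange.isOpen h

/-- If the generic point is in the chart `B'` then so are the members of the family outside the
zeros of some `m ≠ 0`, with coordinates given by those of the generic point. -/
theorem trans_good {V : Scheme.{0}} {B B' : CommRingCat.{0}} {Λ k I : Type} [CommRing Λ]
    [IsDomain Λ] [Field k] (j : Spec B ⟶ V) (j' : Spec B' ⟶ V) [IsOpenImmersion j']
    (e : I → (Λ →+* k)) (P : I → (B →+* k)) (φ : B →+* FractionRing Λ)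
    (hP : ∀ z : B, ∃ n m : Λ, m ≠ 0 ∧
        φ z * algebraMap Λ (FractionRing Λ) m = algebraMap Λ (FractionRing Λ) n ∧
        ∀ i, e i m ≠ 0 ∧ P i z * e i m = e i n)
    (hgood : (Spec.map (CommRingCat.ofHom φ) ≫ j) (⊥ : PrimeSpectrum (FractionRing Λ)) ∈
      Set.range j') :
    ∃ φ' : B' →+* FractionRing Λ,
      Spec.map (CommRingCat.ofHom φ') ≫ j' = Spec.map (CommRingCat.ofHom φ) ≫ j ∧
      ∃ m : Λ, m ≠ 0 ∧ ∀ i, e i m ≠ 0 → ∃ P' : B' →+* k,
        Spec.map (CommRingCat.ofHom P') ≫ j' = Spec.map (CommRingCat.ofHom (P i)) ≫ j ∧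
        ∀ (x' : B') (n' m' : Λ),
          φ' x' * algebraMap Λ (FractionRing Λ) m' = algebraMap Λ (FractionRing Λ) n' →
          P' x' * e i m' = e i n' := by
  classical
  set Q := FractionRing Λ with hQ
  set a := algebraMap Λ Q with ha
  have hainj : Function.Injective a := IsFractionRing.injective Λ Q
  obtain ⟨f, θ, hf, hθ⟩ := loc j j' (PrimeSpectrum.comap φ (⊥ : PrimeSpectrum Q)) hgood
  have hφf : φ f ≠ 0 := fun h => hf h
  let φf : Localization.Away f →+* Q :=
    IsLocalization.Away.lift f (g := φ) (isUnit_iff_ne_zero.2 hφf)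
  have hφf' : φf.comp (algebraMap B (Localization.Away f)) = φ := IsLocalization.Away.lift_comp _ _
  obtain ⟨nf, mf, hmf, hf1, hf2⟩ := hP f
  have hnf : nf ≠ 0 := by
    intro h
    rw [h, map_zero] at hf1
    exact (mul_ne_zero hφf (fun h' => hmf (hainj (by rw [h', map_zero])))) hf1
  refine ⟨φf.comp θ, ?_, nf, hnf, fun i hi => ?_⟩
  · rw [map_comp θ φf, Category.assoc, hθ, ← Category.assoc, ← map_comp, hφf']
  have hPf : P i f ≠ 0 := by
    intro h
    apply hi
    rw [← (hf2 i).2, h, zero_mul]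
  let Pf : Localization.Away f →+* k :=
    IsLocalization.Away.lift f (g := P i) (isUnit_iff_ne_zero.2 hPf)
  have hPf' : Pf.comp (algebraMap B (Localization.Away f)) = P i := IsLocalization.Away.lift_comp _ _
  refine ⟨Pf.comp θ, ?_, fun x' n' m' hx' => ?_⟩
  · rw [map_comp θ Pf, Category.assoc, hθ, ← Category.assoc, ← map_comp, hPf']
  obtain ⟨⟨b, s⟩, hbs⟩ := IsLocalization.surj (Submonoid.powers f) (θ x')
  obtain ⟨t, ht⟩ := s.2
  simp only at hbs ht
  obtain ⟨nb, mb, hmb, hb1, hb2⟩ := hP b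
  have e1 : φf (θ x') * φ f ^ t = φ b := by
    have h1 := congrArg φf hbs
    rw [map_mul] at h1
    have h2 : ∀ z, φf (algebraMap B (Localization.Away f) z) = φ z := fun z =>
      congrArg (fun r : B →+* Q => r z) hφf'
    rw [h2, h2, ← ht, map_pow] at h1
    exact h1
  have e2 : Pf (θ x') * P i f ^ t = P i b := by
    have h1 := congrArg Pf hbs
    rw [map_mul] at h1
    have h2 : ∀ z, Pf (algebraMap B (Localization.Away f) z) = P i z := fun z =>
      congrArg (fun r : B →+* k => r z) hPf'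
    rw [h2, h2, ← ht, map_pow] at h1
    exact h1
  have hx'' : φf (θ x') * a m' = a n' := hx'
  have e3 : n' * mb * nf ^ t = nb * m' * mf ^ t := by
    apply hainj
    rw [map_mul, map_mul, map_mul, map_mul, map_pow, map_pow, ← hx'', ← hb1, ← hf1, ← e1]
    ring
  have e4 := congrArg (e i) e3
  rw [map_mul, map_mul, map_mul, map_mul, map_pow, map_pow] at e4
  have hne : e i mb * e i nf ^ t ≠ 0 := mul_ne_zero (hb2 i).1 (pow_ne_zero _ hi)
  apply mul_right_cancel₀ hne
  show Pf (θ x') * e i m' * (e i mb * e i nf ^ t) = e i n' * (e i mb * e i nf ^ t)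
  have e5 : e i n' * (e i mb * e i nf ^ t) = e i nb * e i m' * e i mf ^ t := by
    rw [← e4]; ring
  rw [e5, ← (hf2 i).2, ← (hb2 i).2, ← e2]
  ring

end Pool.Agent.Work.MP_e97a4d_nt.Up
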