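import Pool.Agent.Work.MP_e97a4d_nt.UP.VFinFib
import Pool.Agent.Work.MP_e97a4d_nt.RecurrenceThm
import Pool.Agent.Work.UP.LUni

/-!
# ACBase (M): parametrised integral points: no parameters, multiplicative relations

`parAt_unique`: `P` is determined by its values on the generators (`𝒜.gen b`) and on the constants
(`str_of_gpt`); `hom_ext_of_gen` in `RecurrenceThm`.
`par_zero_finite`: for `d = 0` there is only one `u`, so only one `P` and one `gpt y`; `finite_fibre`.
`par_rel_finite`: `uni2` gives `f` and `r ≠ 0` with `f k = Pi.single last r`. For `y` in the set with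
`u, P` put `u' = uact f.symm u`, so `uact f u' = u` (`uact_uact_symm`), and
`c = mon (cu u) k = mon (cu u') (f k) = (u' last) ^ r` (`mon_uact`). The set of `w : Fˣ` with
`w ^ r = c` is finite (roots of a polynomial). For each such `w` let `sp` be the
specialisation homomorphism of `exists_spec w`. Then
`evk u (N l) = evk u' (lmap f (N l)) = evk (u' ∘ castSucc) (sp (lmap f (N l)))` (`ev_lmap`), the same for
`D`, and `u' ∘ castSucc` is a tuple of `T`-units (`isUv_uact`). So
`y ∈ Par i 𝒜 F T b (sp ∘ lmap f ∘ N) (sp ∘ lmap f ∘ D)`, a finite set by `IH`.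
-/

set_option autoImplicit false

noncomputable section

namespace Pool.Agent.Work.MP_e97a4d_nt

open AlgebraicGeometry CategoryTheory IsDedekindDomain NumberField Pool.Agent.Work.UP

variable {F₀ : Type} [Field F₀] {V V' : Scheme.{0}}

theorem parAt_unique {π : V ⟶ Spec (CommRingCat.of (𝓞 F₀))} (𝒜 : Atlas π)
    {F : Type} [Field F] [NumberField F] [Algebra F₀ F] {T : Finset (HeightOneSpectrum (𝓞 F))}
    {d : ℕ} {b : 𝒜.β} {N D : 𝒜.ι b → Lp F d} {y y' : Spec (CommRingCat.of (SInt F T)) ⟶ V}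
    (hy : y ∈ integralPoints π F T) (hy' : y' ∈ integralPoints π F T)
    {u : Fin d → Fˣ} {P P' : 𝒜.B b →+* F} (h : ParAt 𝒜 b N D y u P)
    (h' : ParAt 𝒜 b N D y' u P') : P = P' ∧ gpt y = gpt y' := by
  have hPP : P = P' := by
    apply hom_ext_of_gen (𝒜.gen b)
    · rw [str_of_gpt hy (𝒜.str b) h.2.1, str_of_gpt hy' (𝒜.str b) h'.2.1]
    · intro l
      rw [(h.2.2 l).2, (h'.2.2 l).2]
  refine ⟨hPP, ?_⟩
  rw [h.2.1, h'.2.1, hPP]

theorem par_zero_finite {π : V ⟶ Spec (CommRingCat.of (𝓞 F₀))} (i : V' ⟶ V) (𝒜 : Atlas π)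
    (F : Type) [Field F] [NumberField F] [Algebra F₀ F] (T : Finset (HeightOneSpectrum (𝓞 F)))
    (b : 𝒜.β) (N D : 𝒜.ι b → Lp F 0) : (Par i 𝒜 F T b N D).Finite := by
  rcases Set.eq_empty_or_nonempty (Par i 𝒜 F T b N D) with h | ⟨y₀, hy₀⟩
  · rw [h]
    exact Set.finite_empty
  · refine (finite_fibre 𝒜 (F := F) (T := T) (gpt y₀)).subset ?_
    intro y hy
    obtain ⟨h1, ⟨u, P, h2⟩, -⟩ := hy
    obtain ⟨h3, ⟨u₀, P₀, h4⟩, -⟩ := hy₀
    have hu : u = u₀ := Subsingleton.elim _ _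
    subst hu
    exact ⟨h1, (parAt_unique 𝒜 h1 h3 h2 h4).2⟩

private theorem finite_roots (F : Type) [Field F] (r : ℤ) (hr : r ≠ 0) (c : F) :
    {w : Fˣ | (w : F) ^ r = c}.Finite := by
  classical
  have hn : 0 < r.natAbs := Int.natAbs_pos.2 hr
  have h1 : ∀ a : F, {x : F | x ^ r.natAbs = a}.Finite := by
    intro a
    refine ((Polynomial.nthRoots r.natAbs a).toFinset.finite_toSet).subset ?_
    intro x hx
    simp only [Finset.mem_coe, Multiset.mem_toFinset]
    exact (Polynomial.mem_nthRoots hn).2 hx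
  have h2 : {w : Fˣ | (w : F) ^ r = c} ⊆
      (fun w : Fˣ => (w : F)) ⁻¹' ({x : F | x ^ r.natAbs = c} ∪ {x : F | x ^ r.natAbs = c⁻¹}) := by
    intro w hw
    simp only [Set.mem_setOf_eq] at hw
    simp only [Set.mem_preimage, Set.mem_union, Set.mem_setOf_eq]
    rcases Int.natAbs_eq r with h | h
    · left
      rw [h, zpow_natCast] at hw
      exact hw
    · right
      rw [h, zpow_neg, zpow_natCast] at hw
      rw [← hw, inv_inv]
  exact ((h1 c |>.union (h1 c⁻¹)).preimage (fun a _ b _ h => Units.ext h)).subset h2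

theorem par_rel_finite {π : V ⟶ Spec (CommRingCat.of (𝓞 F₀))} (i : V' ⟶ V) (𝒜 : Atlas π)
    (F : Type) [Field F] [NumberField F] [Algebra F₀ F] (T : Finset (HeightOneSpectrum (𝓞 F)))
    {d : ℕ} (IH : ∀ (b : 𝒜.β) (N D : 𝒜.ι b → Lp F d), (Par i 𝒜 F T b N D).Finite)
    (b : 𝒜.β) (N D : 𝒜.ι b → Lp F (d + 1)) (k : Fin (d + 1) → ℤ) (hk : k ≠ 0) (c : F) :
    {y | y ∈ Par i 𝒜 F T b N D ∧ ∃ u P, ParAt 𝒜 b N D y u P ∧ mon (cu u) k = c}.Finite := by
  classical
  obtain ⟨f, r, hr, hfk⟩ := uni2 k hk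
  choose sp hsp using fun w : Fˣ => exists_spec (d := d) w
  refine ((finite_roots F r hr c).biUnion (fun w _ =>
    IH b (fun l => sp w (lmap f (N l))) (fun l => sp w (lmap f (D l))))).subset ?_
  rintro y ⟨⟨hy1, -, hy3⟩, u, P, ⟨hu, hg, hP⟩, hc⟩
  have hu' : uact f (uact f.symm u) = u := uact_uact_symm f u
  have hroot : ((uact f.symm u (Fin.last d) : Fˣ) : F) ^ r = c := by
    rw [← hc, ← hu', mon_uact, hu', hfk]
    unfold mon
    rw [Fin.prod_univ_castSucc]
    simp [cu]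
  rw [Set.mem_iUnion₂]
  refine ⟨uact f.symm u (Fin.last d), hroot, hy1, ⟨fun j => uact f.symm u j.castSucc, P, ?_, hg, ?_⟩,
    hy3⟩
  · intro j
    exact isUv_uact hu f.symm j.castSucc
  · intro l
    have e : ∀ g : Lp F (d + 1), evk (fun j => uact f.symm u j.castSucc)
        (sp (uact f.symm u (Fin.last d)) (lmap f g)) = evk u g := by
      intro g
      have h1 := hsp (uact f.symm u (Fin.last d)) (uact f.symm u) (lmap f g) rfl
      show ev (RingHom.id F) _ _ = ev (RingHom.id F) _ _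
      rw [← h1, ev_lmap, hu']
    rw [e, e]
    exact hP l

end Pool.Agent.Work.MP_e97a4d_nt
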