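import Pool.Agent.Work.MP_e97a4d_nt.UP.ACMain
import Pool.Agent.Work.MP_e97a4d_nt.UP.VUnit
import Pool.Agent.Work.MP_e97a4d_nt.UP.VAtlas

/-!
# ACFin (M-L): if all images of the multiplicative group are in `V'`, unit points are finite in number

Choose an atlas `𝒜` (`nonempty_atlas`). Let `A, ψ, j, ι, t, F, S, m` be as in `CondIIunit`. `A` is
Noetherian (finitely generated over `𝓞 F₀`), so for every `b : 𝒜.β` the open preimage of the range of
`𝒜.j b` under `j` is the union of finitely many basic opens `D(g)`, `g ∈ G b` (finite set), and on `D(g)`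
the morphism `j` is given by `θ : 𝒜.B b →+* Localization.Away g`
(`IsOpenImmersion.lift`, `Spec.map_surjective`), `θ (x b l) = z l / g ^ e` (common `e`).
Let `y` be in the set, with `P : A →+* F`. The point of `gpt y` is in some chart `b`, so the prime
`ker P` is in some `D(g)`, `g ∈ G b`: `P g ≠ 0`, and `gpt y = spt (𝒜.j b) P'` with
`P' = (awayLift P g) ∘ θ`, `P' (x b l) = P (z l) / (P g) ^ e`.
`exists_param` (for the index set `ι ⊕ ι`: numerators and denominators) gives `d` and a finite set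
of families `n`; so `P (t k) = evk u (n (inl k)) / evk u (n (inr k))`, with `evk u (n (inr k)) ≠ 0`.
For every `z ∈ A`, write `z = eval₂ ψ t f` (generators); there are `N_z, D_z : Lp F d`, `D_z` a product
of powers of the `n (inr k)`, depending only on `f` and `n`, with `P z = evk u N_z / evk u D_z` for all
such `u, P` (`P (ψ r)` is the image of `r`, `str_of_gpt`; induction on `f` as in `VGen`). So
`P' (x b l) = evk u (N_{z l} * D_g ^ e) / evk u (D_{z l} * N_g ^ e)`, with nonzero denominator: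
`y ∈ Par i 𝒜 F S b N' D'` for one of finitely many `(b, N', D')` (indexed by `b`, `g ∈ G b`, `n`).
`par_finite`.
-/

set_option autoImplicit false

noncomputable section

namespace Pool.Agent.Work.MP_e97a4d_nt

open AlgebraicGeometry CategoryTheory IsDedekindDomain NumberField Pool.Agent.Work.UP

variable {F₀ : Type} [Field F₀] {V V' : Scheme.{0}}

private theorem exists_frac {A : CommRingCat.{0}} (ψ : 𝓞 F₀ →+* A) {ι : Type} (t : ι → A)
    (ht : Function.Surjective (MvPolynomial.eval₂Hom ψ t)) {k : Type} [Field k]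
    (τ : 𝓞 F₀ →+* k) {d : ℕ} (n₁ n₂ : ι → Lp k d) (z : A) :
    ∃ N D : Lp k d, ∀ (u : Fin d → kˣ) (P : A →+* k), P.comp ψ = τ →
      (∀ l, evk u (n₂ l) ≠ 0 ∧ P (t l) * evk u (n₂ l) = evk u (n₁ l)) →
      evk u D ≠ 0 ∧ P z * evk u D = evk u N := by
  obtain ⟨f, rfl⟩ := ht z
  induction f using MvPolynomial.induction_on with
  | C r =>
    refine ⟨lC (τ r), 1, fun u P hP _ => ⟨by rw [map_one]; exact one_ne_zero, ?_⟩⟩
    rw [map_one, mul_one, show evk u (lC (τ r)) = τ r from ev_lC _ u _, ← hP]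
    simp
  | add f g hf hg =>
    obtain ⟨n, m, h1⟩ := hf
    obtain ⟨n', m', h1'⟩ := hg
    refine ⟨n * m' + n' * m, m * m', fun u P hP h => ⟨?_, ?_⟩⟩
    · rw [map_mul]
      exact mul_ne_zero (h1 u P hP h).1 (h1' u P hP h).1
    · rw [map_add, map_add, map_mul, map_add, map_mul, map_mul, ← (h1 u P hP h).2,
        ← (h1' u P hP h).2]
      ring
  | mul_X f k hf =>
    obtain ⟨n, m, h1⟩ := hf
    refine ⟨n * n₁ k, m * n₂ k, fun u P hP h => ⟨?_, ?_⟩⟩
    · rw [map_mul]
      exact mul_ne_zero (h1 u P hP h).1 (h k).1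
    · have h3 : MvPolynomial.eval₂Hom ψ t (MvPolynomial.X k) = t k := by simp
      rw [map_mul, h3, map_mul, map_mul, map_mul, ← (h1 u P hP h).2, ← (h k).2]
      ring

theorem condIIunit_of_condGm [NumberField F₀] (σ : F₀ →+* ℂ)
    (π : V ⟶ Spec (CommRingCat.of (𝓞 F₀))) [LocallyOfFiniteType π] [QuasiCompact π]
    (i : V' ⟶ V) [IsClosedImmersion i] (hGm : CondGm σ π i) : CondIIunit π i := by
  classical
  obtain ⟨𝒜⟩ := nonempty_atlas π
  have hoi := 𝒜.oi
  intro A ψ j hj ι hι t ht F _ _ _ S m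
  -- a finite cover of the source by basic open sets with values in a chart
  have hspan : Ideal.span {f : A | ∃ (b : 𝒜.β) (θ : 𝒜.B b →+* Localization.Away f),
      Spec.map (CommRingCat.ofHom θ) ≫ 𝒜.j b =
        Spec.map (CommRingCat.ofHom (algebraMap A (Localization.Away f))) ≫ j} = ⊤ := by
    by_contra hcon
    obtain ⟨𝔪, h𝔪, hle⟩ := Ideal.exists_le_maximal _ hcon
    let q : PrimeSpectrum A := ⟨𝔪, h𝔪.isPrime⟩
    obtain ⟨b, hb⟩ := 𝒜.cov (j q)
    obtain ⟨f, θ, hf, hθ⟩ := Up.loc (R := A) j (𝒜.j b) q hb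
    exact hf (hle (Ideal.subset_span ⟨b, θ, hθ⟩))
  obtain ⟨s, hs, hs1⟩ := (Ideal.span_eq_top_iff_finite _).1 hspan
  choose b θ hθ using fun f : s => hs f.2
  have hsurj : ∀ (f : s) (l : 𝒜.ι (b f)), ∃ (z : A) (e : ℕ),
      θ f (𝒜.x (b f) l) * algebraMap A (Localization.Away f.1) (f.1 ^ e) =
        algebraMap A (Localization.Away f.1) z := by
    intro f l
    obtain ⟨⟨r, c⟩, hrc⟩ := IsLocalization.surj (Submonoid.powers f.1) (θ f (𝒜.x (b f) l))
    obtain ⟨e, he⟩ := c.2
    refine ⟨r, e, ?_⟩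
    rw [← hrc]
    congr 2
  choose z e hz using hsurj
  -- parameters
  obtain ⟨d, 𝒩, h𝒩, hpar⟩ := exists_param S m (ι ⊕ ι)
  choose N D hND using fun (n : ι ⊕ ι → Lp F d) (a : A) =>
    exists_frac ψ t ht ((algebraMap F₀ F).comp (algebraMap (𝓞 F₀) F₀))
      (fun l => n (Sum.inl l)) (fun l => n (Sum.inr l)) a
  refine ((Set.finite_iUnion fun f : s => h𝒩.biUnion (t := fun n =>
    Par i 𝒜 F S (b f) (fun l => N n (z f l) * D n f.1 ^ e f l)
      (fun l => D n (z f l) * N n f.1 ^ e f l)) fun n _ =>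
        par_finite σ i hGm 𝒜 F S d (b f) _ _)).subset ?_
  rintro y ⟨hy, ⟨P, hP, hPt⟩, hy'⟩
  have hstr : P.comp ψ = (algebraMap F₀ F).comp (algebraMap (𝓞 F₀) F₀) := str_of_gpt hy hj hP
  -- the chart
  obtain ⟨f, hf⟩ : ∃ f : s, P f.1 ≠ 0 := by
    by_contra hcon
    push Not at hcon
    have h1 : Ideal.span (s : Set A) ≤ RingHom.ker P := by
      rw [Ideal.span_le]
      intro f hf
      exact hcon ⟨f, hf⟩
    rw [hs1] at h1
    have h2 : P 1 = 0 := h1 (Submodule.mem_top)
    rw [map_one] at h2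
    exact one_ne_zero h2
  let κ : Localization.Away f.1 →+* F :=
    IsLocalization.Away.lift f.1 (g := P) (isUnit_iff_ne_zero.2 hf)
  have hκ : κ.comp (algebraMap A (Localization.Away f.1)) = P :=
    IsLocalization.Away.lift_comp _ _
  have hκ' : ∀ a, κ (algebraMap A (Localization.Away f.1) a) = P a := fun a =>
    RingHom.congr_fun hκ a
  -- the parameters of `y`
  choose x₁ x₂ hx₁ hx₂ hx₂0 hxx using hPt
  obtain ⟨n, hn, u, hu, hxu⟩ := hpar (Sum.elim x₁ x₂) (by
    rintro (l | l)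
    · exact hx₁ l
    · exact hx₂ l)
  have hval : ∀ l, evk u (n (Sum.inr l)) ≠ 0 ∧
      P (t l) * evk u (n (Sum.inr l)) = evk u (n (Sum.inl l)) := by
    intro l
    have h1 := hxu (Sum.inr l)
    have h2 := hxu (Sum.inl l)
    simp only [Sum.elim_inr, Sum.elim_inl] at h1 h2
    rw [← h1, ← h2]
    refine ⟨hx₂0 l, ?_⟩
    rw [hxx l, div_mul_cancel₀ _ (hx₂0 l)]
  have hND' := fun a => hND n a u P hstr hval
  simp only [Set.mem_iUnion]
  refine ⟨f, n, hn, hy, ⟨u, κ.comp (θ f), hu, ?_, ?_⟩, hy'⟩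
  · show gpt y = Spec.map (CommRingCat.ofHom (κ.comp (θ f))) ≫ 𝒜.j (b f)
    rw [Up.map_comp (θ f) κ, Category.assoc, hθ, ← Category.assoc, ← Up.map_comp, hκ]
    exact hP
  · intro l
    have h1 : evk u (N n f.1) ≠ 0 := by
      rw [← (hND' f.1).2]
      exact mul_ne_zero hf (hND' f.1).1
    have h2 := congrArg κ (hz f l)
    rw [map_mul, hκ', hκ', map_pow] at h2
    have h3 : evk u (D n (z f l) * N n f.1 ^ e f l) ≠ 0 := by
      rw [map_mul, map_pow]
      exact mul_ne_zero (hND' _).1 (pow_ne_zero _ h1)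
    refine ⟨h3, ?_⟩
    rw [eq_div_iff h3, map_mul, map_mul, map_pow, map_pow, ← (hND' f.1).2, ← (hND' (z f l)).2,
      ← h2]
    show κ (θ f (𝒜.x (b f) l)) * _ = _
    ring

end Pool.Agent.Work.MP_e97a4d_nt
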