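import Pool.Agent.Work.MP_e97a4d_nt.UP.Defs
import Pool.Agent.Work.MP_e97a4d_nt.UP.Gen

/-!
# VGen (M): the generic point of a Zariski dense family

`D l ≠ 0` because the family is not empty (`dense` for `n = 1`) and `den`.
Let `Φ : MvPolynomial ι (𝓞 F₀) →+* Qp k d` be `eval₂Hom (strQ τ d) (fun l => N l / D l)`. Claim: for
every `f` there are `n, m : Lp k d` with `m ≠ 0`, `Φ f = n / m`, and for all `e ∈ U`:
`evk e.1 m ≠ 0` and `e.2 (eval₂Hom ψ x f) = evk e.1 n / evk e.1 m`. Induction on `f`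
(`MvPolynomial.induction_on`): constants `C a`: `n = lC (τ a)`, `m = 1`; sums: common denominator
`m m'`; multiplication with `X l`: `n * N l`, `m * D l`.
Kernel: if `eval₂Hom ψ x f = 0` then `evk e.1 n = 0` for all `e ∈ U`, so `n = 0` by `dense`, so
`Φ f = 0`. Hence `Φ` factors through the surjection `eval₂Hom ψ x`
(`RingHom.liftOfSurjective` or `Function.surjInv`), which gives `φ`; `spec` follows from the claim.
-/

set_option autoImplicit false

noncomputable section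

namespace Pool.Agent.Work.MP_e97a4d_nt

open AlgebraicGeometry CategoryTheory IsDedekindDomain NumberField Pool.Agent.Work.UP

theorem exists_gen {F₀ : Type} [Field F₀] {B : CommRingCat.{0}} {ψ : 𝓞 F₀ →+* B} {ι : Type}
    {x : ι → B} (hx : Function.Surjective (MvPolynomial.eval₂Hom ψ x)) {k : Type} [Field k]
    {τ : 𝓞 F₀ →+* k} {d : ℕ} {N D : ι → Lp k d} {U : Set ((Fin d → kˣ) × (B →+* k))}
    (h : IsFam ψ x τ N D U) :
    ∃ φ : B →+* Qp k d, IsGen ψ τ U φ ∧
      ∀ l, φ (x l) = algebraMap (Lp k d) (Qp k d) (N l) / algebraMap (Lp k d) (Qp k d) (D l) := by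
  classical
  have hainj : Function.Injective (algebraMap (Lp k d) (Qp k d)) :=
    IsFractionRing.injective (Lp k d) (Qp k d)
  have hne : ∀ m : Lp k d, m ≠ 0 → algebraMap (Lp k d) (Qp k d) m ≠ 0 := fun m hm h =>
    hm (hainj (by rw [h, map_zero]))
  have hevC : ∀ (u : Fin d → kˣ) (a : k), evk u (lC a) = a := fun u a => ev_lC _ u a
  obtain ⟨φ, h1, h2, h3⟩ := Up.gen (I := U) ψ x hx ((lC : k →+* Lp k d).comp τ)
    (fun e => evk e.1.1) (fun e => e.1.2)
    (fun n hn => by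
      obtain ⟨e, he, h⟩ := h.dense n hn
      exact ⟨⟨e, he⟩, h⟩)
    (fun e => by
      rw [h.str e.1 e.2]
      ext r
      show τ r = evk e.1.1 (lC (τ r))
      rw [hevC])
    N D (fun e l => h.den e.1 e.2 l)
    (fun e l => by
      show e.1.2 (x l) * _ = _
      rw [h.val e.1 e.2 l, div_mul_cancel₀ _ (h.den e.1 e.2 l)])
  have hD0 : ∀ l, D l ≠ 0 := by
    intro l hl
    obtain ⟨e, he, -⟩ := h.dense 1 one_ne_zero
    exact h.den e he l (by rw [hl, map_zero])
  refine ⟨φ, ⟨h1, fun z => ?_⟩, fun l => ?_⟩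
  · obtain ⟨n, m, hm, h4, h5⟩ := h3 z
    refine ⟨n, m, hm, ?_, fun e he => ⟨(h5 ⟨e, he⟩).1, ?_⟩⟩
    · rw [eq_div_iff (hne m hm)]
      exact h4
    · rw [eq_div_iff (h5 ⟨e, he⟩).1]
      exact (h5 ⟨e, he⟩).2
  · rw [eq_div_iff (hne _ (hD0 l))]
    exact h2 l

end Pool.Agent.Work.MP_e97a4d_nt
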