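import Pool.Agent.Work.MP_e97a4d_nt.UP.VUnit
import Pool.Agent.Work.MP_e97a4d_nt.UP.Sch

/-!
# VIntQ (M): an integral point lies in some chart at every place outside `T`

Let `q ∉ T`. `𝔮 = {x ∈ SInt F T | FinitePlace.mk q x < 1}` is a prime ideal (it is the kernel of the
reduction; `FinitePlace.mk q x ≤ 1` on `SInt F T` by `mem_integer_iff`, multiplicative,
ultrametric). Let `s` be the corresponding point of the spectrum and choose `b` with
`y s ∈ range (𝒜.j b)` (`𝒜.cov`). The preimage of this open range under `y` is open and contains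
`s`, so it contains a basic open set `D(f)`, `f ∉ 𝔮`. So `Spec (Localization.Away f) → V` factors
through `𝒜.j b` (`IsOpenImmersion.lift`), which gives `θ : 𝒜.B b →+* Localization.Away f`
(`Spec.map_surjective`); `P = (Localization.Away f → F) ∘ θ` (`f ≠ 0`). Elements of
`Localization.Away f` are `a / f ^ n`, with `FinitePlace.mk q a ≤ 1` and `FinitePlace.mk q f = 1`.
Compare `exists_chart_data` in `ExpCurve.lean`.
-/

set_option autoImplicit false

noncomputable section

namespace Pool.Agent.Work.MP_e97a4d_nt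

open AlgebraicGeometry CategoryTheory IsDedekindDomain NumberField

theorem exists_chart_at {F₀ : Type} [Field F₀] {V : Scheme.{0}}
    {π : V ⟶ Spec (CommRingCat.of (𝓞 F₀))} (𝒜 : Atlas π) {F : Type} [Field F] [NumberField F]
    {T : Finset (HeightOneSpectrum (𝓞 F))} (y : Spec (CommRingCat.of (SInt F T)) ⟶ V)
    (q : HeightOneSpectrum (𝓞 F)) (hq : q ∉ T) :
    ∃ (b : 𝒜.β) (P : 𝒜.B b →+* F), gpt y = spt (𝒜.j b) P ∧
      ∀ z, FinitePlace.mk q (P z) ≤ 1 := by
  have := 𝒜.oi
  exact Up.intq F T 𝒜.B 𝒜.j 𝒜.cov y q hq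

end Pool.Agent.Work.MP_e97a4d_nt
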