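import Pool.Agent.Work.MP_e97a4d_nt.UP.Defs
import Pool.Agent.Work.MP_e97a4d_nt.UP.Trans

/-!
# VTrans (M): change of the chart for the generic point and its specialisations

Let `O` be the open preimage of `range j'` under `j`, and `I'` an ideal of `B` such that a prime `p` is
outside `O` iff `I' ≤ p` (closed subsets of the spectrum are zero loci).
Case 1: `φ` vanishes on `I'`. Let `e ∈ U`. For `z ∈ I'`, `φ z = n / m` as in `IsGen.spec`, so `n = 0` and
`e.2 z = 0`. So the point of `spt j e.2` (the kernel of `e.2`) is not in `O`, and no `P'` exists (the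
left alternative).
Case 2: some `f ∈ I'` has `φ f ≠ 0`. `D(f) ⊆ O`, so `Spec (Localization.Away f) → Spec B → V` factors
through `j'` (`IsOpenImmersion.lift`), `Spec.map_surjective` gives
`θ : B' →+* Localization.Away f`. `φ' = (Localization.awayLift φ f) ∘ θ`. Let `φ f = nf / mf` as in
`IsGen.spec`, and `m := nf` (nonzero). If `evk e.1 nf ≠ 0` then `e.2 f ≠ 0`, and
`P' = (awayLift e.2 f) ∘ θ`. For `z : ι'`: `θ (x' z) = g / f ^ a`, `φ g = n / m₁` as in `spec`, and
`φ' (x' z) = (n / m₁) / (nf / mf) ^ a = n' / m'` gives `n * mf ^ a * m' = n' * m₁ * nf ^ a` in `Lp k d`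
(`IsFractionRing.injective`). Evaluate at `e.1`.
(The hypotheses on `π` are not needed; finiteness of `ι'` is not needed either.)
-/

set_option autoImplicit false

noncomputable section

namespace Pool.Agent.Work.MP_e97a4d_nt

open AlgebraicGeometry CategoryTheory IsDedekindDomain NumberField Pool.Agent.Work.UP

theorem exists_trans {F₀ : Type} [Field F₀] {V : Scheme.{0}} {B B' : CommRingCat.{0}}
    (j : Spec B ⟶ V) (j' : Spec B' ⟶ V) [IsOpenImmersion j'] {ψ : 𝓞 F₀ →+* B}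
    {k : Type} [Field k] {τ : 𝓞 F₀ →+* k} {d : ℕ} {U : Set ((Fin d → kˣ) × (B →+* k))}
    {φ : B →+* Qp k d} (hφ : IsGen ψ τ U φ) {ι' : Type} (x' : ι' → B') :
    (∀ e ∈ U, ¬ ∃ P' : B' →+* k, spt j e.2 = spt j' P') ∨
    ∃ φ' : B' →+* Qp k d, spt j φ = spt j' φ' ∧ ∃ m : Lp k d, m ≠ 0 ∧
      ∀ e ∈ U, evk e.1 m ≠ 0 → ∃ P' : B' →+* k, spt j e.2 = spt j' P' ∧
        ∀ (l : ι') (n' m' : Lp k d), m' ≠ 0 →
          φ' (x' l) = algebraMap (Lp k d) (Qp k d) n' / algebraMap (Lp k d) (Qp k d) m' →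
          P' (x' l) * evk e.1 m' = evk e.1 n' := by
  classical
  have hainj : Function.Injective (algebraMap (Lp k d) (Qp k d)) :=
    IsFractionRing.injective (Lp k d) (Qp k d)
  have hne : ∀ m : Lp k d, m ≠ 0 → algebraMap (Lp k d) (Qp k d) m ≠ 0 := fun m hm h =>
    hm (hainj (by rw [h, map_zero]))
  by_cases hg : (spt j φ) (⊥ : PrimeSpectrum (Qp k d)) ∈ Set.range j'
  · right
    obtain ⟨φ', h1, m, hm, h2⟩ := Up.trans_good (Λ := Lp k d) (I := U) j j'
      (fun e => evk e.1.1) (fun e => e.1.2) φ (fun z => by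
        obtain ⟨n, m, hm, h4, h5⟩ := hφ.spec z
        refine ⟨n, m, hm, ?_, fun e => ⟨(h5 e.1 e.2).1, ?_⟩⟩
        · rw [h4, div_mul_cancel₀ _ (hne m hm)]
        · show e.1.2 z * _ = _
          rw [(h5 e.1 e.2).2, div_mul_cancel₀ _ (h5 e.1 e.2).1]) hg
    refine ⟨φ', h1.symm, m, hm, fun e he hem => ?_⟩
    obtain ⟨P', h3, h4⟩ := h2 ⟨e, he⟩ hem
    refine ⟨P', h3.symm, fun l n' m' hm' hl => h4 (x' l) n' m' ?_⟩
    rw [hl, div_mul_cancel₀ _ (hne m' hm')]
  · left
    rintro e he ⟨P', hP'⟩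
    refine Up.trans_bad j j' φ e.2 (fun z hz => ?_) hg ?_
    · obtain ⟨n, m, hm, h4, h5⟩ := hφ.spec z
      have h6 : n = 0 := by
        apply hainj
        rw [map_zero]
        rw [hz] at h4
        have h7 := h4.symm
        rw [div_eq_zero_iff] at h7
        exact h7.resolve_right (hne m hm)
      rw [(h5 e he).2, h6, map_zero, zero_div]
    · have h7 : (Spec.map (CommRingCat.ofHom e.2) ≫ j) = spt j' P' := hP'
      rw [h7]
      exact ⟨_, rfl⟩

end Pool.Agent.Work.MP_e97a4d_nt
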