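import Pool.Agent.Work.MP_e97a4d_nt.UP.ACBase
import Pool.Agent.Work.MP_e97a4d_nt.UP.VGen
import Pool.Agent.Work.MP_e97a4d_nt.UP.VTrans
import Pool.Agent.Work.MP_e97a4d_nt.UP.VIntQ
import Pool.Agent.Work.UP.LTorus

/-!
# ACSpan (M-L): an infinite parametrised set of integral points has few denominators

Write `Y = Par i 𝒜 F T b N D` (infinite), `U = {(u, P) | ∃ y ∈ Y, ParAt 𝒜 b N D y u P}`.
(0) For every finite `E` the set of `y ∈ Y` having some `(u, P)` with `¬ Avoid E (cu u)` is finite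
(`par_rel_finite`, union over `E`). So infinitely many `y ∈ Y` have only `(u, P)` which avoid `E`.
(1) `U` is a family, `IsFam (𝒜.ψ b) (𝒜.x b) τ N D U`: `dense` by `unitEqL` and (0); `str` by
`str_of_gpt`. `exists_gen` gives `φ` with `IsGen`. `D l ≠ 0` by `den`. `spt (𝒜.j b) φ` is not in `V'`:
otherwise `closed_spec` and `closed_of_gpt` put `y` into `V'`.
(2) For every `b'` apply `exists_trans` (from `b` to `b'`). Call `b'` good if the second
alternative holds; choose `φ' b'` and `m b' ≠ 0`. If `b'` is not good, no `P'` exists for any member of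
`U`. For good `b'` choose reduced fractions `φ' b' (x l) = N' b' l / D' b' l` with
`IsRelPrime (N' b' l) (D' b' l)`, `D' b' l ≠ 0` (`lp_ufd`,
`IsLocalization.exists_reduced_fraction'` or `IsFractionRing.num`/`den`).
(3) Let `𝒫₀` be the set of the irreducible `p` such that every good `b'` has some `l` with
`p ∣ D' b' l`. `b' = b` is good (`P` itself is a `P'`, and `U` is not empty). So the members of `𝒫₀`
divide the product of the `D' b' l ≠ 0` for the good chart `b' = b`, and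
up to associates there are finitely many: choose a finite set `P ⊆ 𝒫₀` of representatives
(normalized factors; `UniqueFactorizationMonoid.exists_mem_factors_of_dvd`).
(4) `P` does not span. Suppose `SpansL P`. Index set of charts `{b' // good}`; for `p ∈ P` and good `b'`
choose `l` with `p ∣ D' b' l`, `A b' p = N' b' l`, `D' b' l = p * B' b' p`. `IsRelPrime (A b' p) p`.
`torusNFL` gives a finite `E` and a finite set of `u`. Add to `E` the exceptional sets of `unitEqL` for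
the `m b'` (good `b'`), call the result `E'`. For the infinitely many `y ∈ Y` with `(u, P)` avoiding `E'`
the tuple `u` is in the finite set: let `p ∈ P`, `q ∉ T`; `exists_chart_at` gives `b'`, `P''` with
`gpt y = spt (𝒜.j b') P''`, `mk q (P'' z) ≤ 1`. So `b'` is good and (`evk u (m b') ≠ 0`)
`P'' (x l) * evk u (D' b' l) = evk u (N' b' l)` (`spt_inj`), which gives the inequality for `b'`, with
`l` the chosen index. But `y ↦ u` is finite-to-one (`parAt_unique`, `finite_fibre`): contradiction.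
(5) `W` = the span in `SpansL`, a proper subspace; `uni1` gives `f`; for `p ∈ P` and `s, s'` in its
support `f (s - s') last = 0`, so `assoc_lincl` gives `p'` with `Associated (lmap f p) (lincl p')`.
Let `p` be any prime. If every good `b'` has some `l` with `p ∣ D' b' l` then `p` is associated to a member
of `P` and `lmap f p` is associated to some `lincl p'`. Otherwise there is a good `b'` with `p ∤ D' b' l`
for all `l`: second alternative with `a = N' b' l`, `c = D' b' l`.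
-/

set_option autoImplicit false

noncomputable section

namespace Pool.Agent.Work.MP_e97a4d_nt

open AlgebraicGeometry CategoryTheory IsDedekindDomain NumberField Pool.Agent.Work.UP

variable {F₀ : Type} [Field F₀] {V V' : Scheme.{0}}

private theorem par_u_finite {π : V ⟶ Spec (CommRingCat.of (𝓞 F₀))} (i : V' ⟶ V) (𝒜 : Atlas π)
    (F : Type) [Field F] [NumberField F] [Algebra F₀ F] (T : Finset (HeightOneSpectrum (𝓞 F)))
    {d : ℕ} (b : 𝒜.β) (N D : 𝒜.ι b → Lp F d) (u : Fin d → Fˣ) :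
    {y | y ∈ Par i 𝒜 F T b N D ∧ ∃ P, ParAt 𝒜 b N D y u P}.Finite := by
  rcases Set.eq_empty_or_nonempty
    {y | y ∈ Par i 𝒜 F T b N D ∧ ∃ P, ParAt 𝒜 b N D y u P} with h | ⟨y₀, hy₀⟩
  · rw [h]
    exact Set.finite_empty
  · refine (finite_fibre 𝒜 (F := F) (T := T) (gpt y₀)).subset ?_
    rintro y ⟨⟨h1, -, -⟩, P, h2⟩
    obtain ⟨⟨h3, -, -⟩, P₀, h4⟩ := hy₀
    exact ⟨h1, (parAt_unique 𝒜 h1 h3 h2 h4).2⟩

/-- Step (0). -/
private theorem bad_finite {π : V ⟶ Spec (CommRingCat.of (𝓞 F₀))} (i : V' ⟶ V) (𝒜 : Atlas π)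
    (F : Type) [Field F] [NumberField F] [Algebra F₀ F] (T : Finset (HeightOneSpectrum (𝓞 F)))
    {d : ℕ} (IH : ∀ (b : 𝒜.β) (N D : 𝒜.ι b → Lp F d), (Par i 𝒜 F T b N D).Finite)
    (b : 𝒜.β) (N D : 𝒜.ι b → Lp F (d + 1)) (E : Set ((Fin (d + 1) → ℤ) × F)) (hE : E.Finite) :
    {y | y ∈ Par i 𝒜 F T b N D ∧ ∃ u P, ParAt 𝒜 b N D y u P ∧ ¬ Avoid E (cu u)}.Finite := by
  refine (hE.biUnion (t := fun e => {y | e.1 ≠ 0 ∧ y ∈ Par i 𝒜 F T b N D ∧
    ∃ u P, ParAt 𝒜 b N D y u P ∧ mon (cu u) e.1 = e.2}) ?_).subset ?_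
  · intro e _
    by_cases he : e.1 = 0
    · refine Set.Finite.subset Set.finite_empty ?_
      rintro y ⟨h, -⟩
      exact absurd he h
    · refine (par_rel_finite i 𝒜 F T IH b N D e.1 he e.2).subset ?_
      rintro y ⟨-, h⟩
      exact h
  · rintro y ⟨hy, u, P, hP, ha⟩
    unfold Avoid at ha
    push Not at ha
    obtain ⟨e, he, he0, hm⟩ := ha
    rw [Set.mem_iUnion₂]
    exact ⟨e, he, he0, hy, u, P, hP, hm⟩

/-- Infinitely many members avoid `E`. -/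
private theorem exists_avoid {π : V ⟶ Spec (CommRingCat.of (𝓞 F₀))} (i : V' ⟶ V) (𝒜 : Atlas π)
    (F : Type) [Field F] [NumberField F] [Algebra F₀ F] (T : Finset (HeightOneSpectrum (𝓞 F)))
    {d : ℕ} (IH : ∀ (b : 𝒜.β) (N D : 𝒜.ι b → Lp F d), (Par i 𝒜 F T b N D).Finite)
    (b : 𝒜.β) (N D : 𝒜.ι b → Lp F (d + 1)) (hinf : (Par i 𝒜 F T b N D).Infinite)
    (E : Set ((Fin (d + 1) → ℤ) × F)) (hE : E.Finite)
    (Z : Set (Spec (CommRingCat.of (SInt F T)) ⟶ V)) (hZ : Z.Finite) :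
    ∃ y u P, y ∈ Par i 𝒜 F T b N D ∧ ParAt 𝒜 b N D y u P ∧ Avoid E (cu u) ∧ y ∉ Z := by
  obtain ⟨y, hy, hy2⟩ := (hinf.sdiff ((bad_finite i 𝒜 F T IH b N D E hE).union hZ)).nonempty
  obtain ⟨u, P, hP⟩ := hy.2.1
  refine ⟨y, u, P, hy, hP, ?_, fun h => hy2 (Or.inr h)⟩
  by_contra ha
  exact hy2 (Or.inl ⟨hy, u, P, hP, ha⟩)

/-- Finitely many representatives of the primes which divide some denominator in every chart. -/
private theorem exists_reps {k : Type} [Field k] {d : ℕ} {G : Type} {ι : G → Type}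
    [∀ g, Finite (ι g)] (g₀ : G) (D : ∀ g, ι g → Lp k d) (hD : ∀ g l, D g l ≠ 0) :
    ∃ P : Set (Lp k d), P.Finite ∧ (∀ p ∈ P, Irreducible p ∧ ∀ g, ∃ l, p ∣ D g l) ∧
      ∀ p : Lp k d, Prime p → (∀ g, ∃ l, p ∣ D g l) → ∃ q ∈ P, Associated p q := by
  classical
  have := lp_ufd k d
  have := Fintype.ofFinite (ι g₀)
  have hne : (∏ l, D g₀ l) ≠ 0 := Finset.prod_ne_zero_iff.2 fun l _ => hD g₀ l
  refine ⟨{q | q ∈ UniqueFactorizationMonoid.factors (∏ l, D g₀ l) ∧ ∀ g, ∃ l, q ∣ D g l}, ?_, ?_, ?_⟩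
  · refine ((UniqueFactorizationMonoid.factors (∏ l, D g₀ l)).toFinset.finite_toSet).subset ?_
    intro q hq
    simp only [Finset.mem_coe, Multiset.mem_toFinset]
    exact hq.1
  · intro p hp
    exact ⟨UniqueFactorizationMonoid.irreducible_of_factor p hp.1, hp.2⟩
  · intro p hp h
    obtain ⟨l, hl⟩ := h g₀
    obtain ⟨q, hq, hpq⟩ := UniqueFactorizationMonoid.exists_mem_factors_of_dvd hne hp.irreducible
      (hl.trans (Finset.dvd_prod_of_mem _ (Finset.mem_univ l)))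
    refine ⟨q, ⟨hq, fun g => ?_⟩, hpq⟩
    obtain ⟨l', hl'⟩ := h g
    exact ⟨l', hpq.symm.dvd.trans hl'⟩

theorem ac_span {π : V ⟶ Spec (CommRingCat.of (𝓞 F₀))} (i : V' ⟶ V) [IsClosedImmersion i]
    (𝒜 : Atlas π) (F : Type) [Field F] [NumberField F] [Algebra F₀ F]
    (T : Finset (HeightOneSpectrum (𝓞 F))) {d : ℕ}
    (IH : ∀ (b : 𝒜.β) (N D : 𝒜.ι b → Lp F d), (Par i 𝒜 F T b N D).Finite)
    (b : 𝒜.β) (N D : 𝒜.ι b → Lp F (d + 1)) (hinf : (Par i 𝒜 F T b N D).Infinite) :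
    ∃ φ : 𝒜.B b →+* Qp F (d + 1),
      φ.comp (𝒜.ψ b) = strQ ((algebraMap F₀ F).comp (algebraMap (𝓞 F₀) F₀)) (d + 1) ∧
      (∀ l, D l ≠ 0 ∧ φ (𝒜.x b l) = algebraMap (Lp F (d + 1)) (Qp F (d + 1)) (N l) /
        algebraMap (Lp F (d + 1)) (Qp F (d + 1)) (D l)) ∧
      (¬ ∃ p : Spec (CommRingCat.of (Qp F (d + 1))) ⟶ V', p ≫ i = spt (𝒜.j b) φ) ∧
      ∃ f : (Fin (d + 1) → ℤ) ≃+ (Fin (d + 1) → ℤ),
        ∀ p : Lp F (d + 1), Prime p → (∃ p' : Lp F d, Associated (lmap f p) (lincl p')) ∨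
          ∃ (b' : 𝒜.β) (φ' : 𝒜.B b' →+* Qp F (d + 1)), spt (𝒜.j b') φ' = spt (𝒜.j b) φ ∧
            ∀ l, ∃ a c : Lp F (d + 1), ¬ p ∣ c ∧ φ' (𝒜.x b' l) =
              algebraMap (Lp F (d + 1)) (Qp F (d + 1)) a /
                algebraMap (Lp F (d + 1)) (Qp F (d + 1)) c := by
  classical
  have hufd := lp_ufd F (d + 1)
  have hfinβ := 𝒜.fin
  have hfinι := 𝒜.finι
  have hoi := 𝒜.oi
  set τ : 𝓞 F₀ →+* F := (algebraMap F₀ F).comp (algebraMap (𝓞 F₀) F₀) with hτ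
  set Y := Par i 𝒜 F T b N D with hY
  set U : Set ((Fin (d + 1) → Fˣ) × (𝒜.B b →+* F)) :=
    {e | ∃ y ∈ Y, ParAt 𝒜 b N D y e.1 e.2} with hU
  have havoid := exists_avoid i 𝒜 F T IH b N D hinf
  -- (1)
  have hfam : IsFam (𝒜.ψ b) (𝒜.x b) τ N D U := by
    refine ⟨?_, ?_, ?_, ?_⟩
    · rintro e ⟨y, hy, he⟩
      exact str_of_gpt hy.1 (𝒜.str b) he.2.1
    · rintro e ⟨y, hy, he⟩ l
      exact (he.2.2 l).1
    · rintro e ⟨y, hy, he⟩ l
      exact (he.2.2 l).2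
    · intro n hn
      obtain ⟨E, hE, h⟩ := unitEqL F T n hn
      obtain ⟨y, u, P, hy, hP, ha, -⟩ := havoid E hE ∅ Set.finite_empty
      exact ⟨(u, P), ⟨y, hy, hP⟩, h u hP.1 ha⟩
  obtain ⟨φ, hφ, hφx⟩ := exists_gen (𝒜.gen b) hfam
  obtain ⟨e₀, he₀, -⟩ := hfam.dense 1 one_ne_zero
  have hD0 : ∀ l, D l ≠ 0 := by
    intro l hl
    exact hfam.den e₀ he₀ l (by rw [hl, map_zero])
  have hnot : ¬ ∃ p : Spec (CommRingCat.of (Qp F (d + 1))) ⟶ V', p ≫ i = spt (𝒜.j b) φ := by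
    intro h
    obtain ⟨y, hy, he⟩ := he₀
    have h1 := closed_spec i (𝒜.j b) hφ h e₀ ⟨y, hy, he⟩
    rw [← he.2.1] at h1
    exact hy.2.2 (closed_of_gpt i y h1)
  refine ⟨φ, hφ.str, fun l => ⟨hD0 l, hφx l⟩, hnot, ?_⟩
  -- (2)
  let good : 𝒜.β → Prop := fun b' => ∃ φ' : 𝒜.B b' →+* Qp F (d + 1),
    spt (𝒜.j b) φ = spt (𝒜.j b') φ' ∧ ∃ m : Lp F (d + 1), m ≠ 0 ∧
      ∀ e ∈ U, evk e.1 m ≠ 0 → ∃ P' : 𝒜.B b' →+* F, spt (𝒜.j b) e.2 = spt (𝒜.j b') P' ∧
        ∀ (l : 𝒜.ι b') (n' m' : Lp F (d + 1)), m' ≠ 0 →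
          φ' (𝒜.x b' l) = algebraMap (Lp F (d + 1)) (Qp F (d + 1)) n' /
            algebraMap (Lp F (d + 1)) (Qp F (d + 1)) m' →
          P' (𝒜.x b' l) * evk e.1 m' = evk e.1 n'
  have htr : ∀ b', (∀ e ∈ U, ¬ ∃ P' : 𝒜.B b' →+* F, spt (𝒜.j b) e.2 = spt (𝒜.j b') P') ∨
      good b' := fun b' => exists_trans (𝒜.j b) (𝒜.j b') hφ (𝒜.x b')
  have hgood_of : ∀ b', ∀ e ∈ U, ∀ P' : 𝒜.B b' →+* F, spt (𝒜.j b) e.2 = spt (𝒜.j b') P' →
      good b' := by
    intro b' e he P' h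
    rcases htr b' with h1 | h1
    · exact absurd ⟨P', h⟩ (h1 e he)
    · exact h1
  have hgb : good b := hgood_of b e₀ he₀ e₀.2 rfl
  let G := {b' // good b'}
  have hch : ∀ g : G, good g.1 := fun g => g.2
  choose φ' hφ' m hm hgood using hch
  have hred : ∀ (g : G) (l : 𝒜.ι g.1), ∃ n' m' : Lp F (d + 1), m' ≠ 0 ∧ IsRelPrime n' m' ∧
      φ' g (𝒜.x g.1 l) = algebraMap (Lp F (d + 1)) (Qp F (d + 1)) n' /
        algebraMap (Lp F (d + 1)) (Qp F (d + 1)) m' := by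
    intro g l
    obtain ⟨a, c, hac, h⟩ := IsFractionRing.exists_reduced_fraction (A := Lp F (d + 1))
      (φ' g (𝒜.x g.1 l))
    refine ⟨a, c, nonZeroDivisors.ne_zero c.2, hac, ?_⟩
    rw [← h, IsFractionRing.mk'_eq_div]
  choose N' D' hD' hrel hfrac using hred
  -- (3)
  obtain ⟨P, hPfin, hPirr, hPrep⟩ := exists_reps (G := G) (ι := fun g => 𝒜.ι g.1) ⟨b, hgb⟩ D' hD'
  -- (4)
  have hnspan : ¬ SpansL P := by
    intro hspan
    have hAB : ∀ (g : G) (p : Lp F (d + 1)), ∃ a c : Lp F (d + 1),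
        p ∈ P → ∃ l : 𝒜.ι g.1, a = N' g l ∧ D' g l = p * c := by
      intro g p
      by_cases hp : p ∈ P
      · obtain ⟨l, c, hl⟩ := (hPirr p hp).2 g
        exact ⟨N' g l, c, fun _ => ⟨l, rfl, hl⟩⟩
      · exact ⟨0, 0, fun h => absurd h hp⟩
    choose A B' hB' using hAB
    obtain ⟨E, hE, hfinZ⟩ := torusNFL F T G P hPfin (fun p hp => (hPirr p hp).1.ne_zero) hspan
      A B' (by
        intro g p hp z hz1 hz2
        obtain ⟨l, h1, h2⟩ := hB' g p hp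
        rw [h1] at hz1
        exact hrel g l hz1 (hz2.trans ⟨B' g p, h2⟩))
    choose Eg hEg hEg' using fun g : G => unitEqL F T (m g) (hm g)
    have hE' : (E ∪ ⋃ g, Eg g).Finite := hE.union (Set.finite_iUnion hEg)
    obtain ⟨y, u, Q, hy, hQ, ha, hyZ⟩ := havoid _ hE' _
      (hfinZ.biUnion (fun u _ => par_u_finite i 𝒜 F T b N D u))
    apply hyZ
    rw [Set.mem_iUnion₂]
    refine ⟨u, ⟨hQ.1, fun e he => ha e (Or.inl he), ?_⟩, hy, Q, hQ⟩
    intro p hp q hq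
    obtain ⟨b', P'', h1, h2⟩ := exists_chart_at 𝒜 y q hq
    have h3 : spt (𝒜.j b) Q = spt (𝒜.j b') P'' := by rw [← h1, hQ.2.1]
    have heU : (u, Q) ∈ U := ⟨y, hy, hQ⟩
    let g : G := ⟨b', hgood_of b' (u, Q) heU P'' h3⟩
    refine ⟨g, ?_⟩
    obtain ⟨P', h4, h5⟩ := hgood g (u, Q) heU
      (hEg' g u hQ.1 (fun e he => ha e (Or.inr (Set.mem_iUnion.2 ⟨g, he⟩))))
    have h6 : P' = P'' := spt_inj (𝒜.j b') (h4.symm.trans h3)
    obtain ⟨l, hl1, hl2⟩ := hB' g p hp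
    have h7 := h5 l (N' g l) (D' g l) (hD' g _) (hfrac g _)
    rw [h6] at h7
    have h8 : evk u (D' g l) = evk u p * evk u (B' g p) := by
      rw [hl2, map_mul]
    show FinitePlace.mk q (evk u (A g p)) ≤ FinitePlace.mk q (evk u p * evk u (B' g p))
    rw [← h8, hl1, ← h7, map_mul]
    exact mul_le_of_le_one_left (apply_nonneg _ _) (h2 _)
  -- (5)
  obtain ⟨f, hf⟩ := uni1 _ hnspan
  refine ⟨f, fun p hp => ?_⟩
  by_cases hall : ∀ g, ∃ l, p ∣ D' g l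
  · left
    obtain ⟨q, hq, hpq⟩ := hPrep p hp hall
    obtain ⟨p', hp'⟩ := assoc_lincl f q (hPirr q hq).1.ne_zero (by
      intro s hs s' hs'
      have h1 := hf (s - s') (Submodule.subset_span ⟨q, hq, s, hs, s', hs', by
        funext j
        simp⟩)
      rw [map_sub, Pi.sub_apply, sub_eq_zero] at h1
      exact h1)
    exact ⟨p', (hpq.map (lmap f)).trans hp'⟩
  · right
    push Not at hall
    obtain ⟨g, hg⟩ := hall
    exact ⟨g.1, φ' g, (hφ' g).symm, fun l => ⟨N' g l, D' g l, hg l, hfrac g l⟩⟩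

end Pool.Agent.Work.MP_e97a4d_nt
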