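import Pool.Agent.Work.MP_e97a4d_nt.UP.VClosed
import Pool.Agent.Work.MP_e97a4d_nt.Identity
import Pool.Agent.Work.MP_e97a4d_nt.RecurrenceThm
import Pool.Agent.Work.MP_e97a4d_nt.VpHolo
import Pool.Agent.Work.UP.LTorusC
import Pool.Agent.Work.UP.LUni

/-!
# CCBase (M): parametrised entire curves: charts, no parameters, multiplicative relations

`CurPar`: on some nonempty open set the curve is given, in the chart `b`, by rational functions of
entire functions without zeros.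
`exists_atlas_chart`: `hf.holo z₀` and `exists_chart_in` (in `VpHolo`) with `O` = the range of `𝒜.j b`, for `b`
such that the point of `f z₀` is in this range (`𝒜.cov`), give a chart `(A, j, g', D)` with range of `j` in
`O`; so `j = Spec.map θ ≫ 𝒜.j b` (`IsOpenImmersion.lift`), `g z = (g' z) ∘ θ`; take a ball in `D`
(outside the ball define `g z` arbitrarily, e.g. as `g z₀`; the statement only concerns the ball).
`const_of_open`: if `f` is equal to `p` on a nonempty open set, the interior of `{z | f z = p}` is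
closed: near a limit point `z₀` the coordinates in a chart as above are analytic on a ball and
constant on a nonempty open subset, so constant on the ball. `ℂ` is connected.
`cc_zero`: for `d = 0`, `evk` does not depend on `z`, so `g z` is constant on `Ω`
(`hom_ext_of_gen`; `(g z) ∘ 𝒜.ψ b` is the structure map by `hf.structural`), so `f` is constant on `Ω`.
`cc_rel`: `u` is not independent: `mon (fun i => u i z) k = c` for all `z`, `k ≠ 0`. `uni2`:
`f' k = Pi.single last r`, `r ≠ 0`. `u' z = uact f'.symm (uz u hu z)`, its last entry satisfies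
`(u' z last) ^ r = c`; it is continuous in `z` and takes finitely many values, so it is a constant `w`.
`exists_spec w`: new parameters `fun i z => u' z i.castSucc` (entire, without zeros),
`N' = sp ∘ lmap f' ∘ N`, `D' = sp ∘ lmap f' ∘ D` (as in `ACBase`).
-/

set_option autoImplicit false

noncomputable section

namespace Pool.Agent.Work.MP_e97a4d_nt

open AlgebraicGeometry CategoryTheory IsDedekindDomain NumberField Pool.Agent.Work.UP

variable {F₀ : Type} [Field F₀] {V V' : Scheme.{0}}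

/-- On the open set `Ω` the curve `f` is given, in the chart `b`, by the rational functions `N / D` of the
entire functions `u` without zeros. -/
def CurPar {π : V ⟶ Spec (CommRingCat.of (𝓞 F₀))} (𝒜 : Atlas π)
    (f : ℂ → (Spec (CommRingCat.of ℂ) ⟶ V)) {d : ℕ} (b : 𝒜.β) (N D : 𝒜.ι b → Lp ℂ d)
    (u : Fin d → ℂ → ℂ) (hu : IsUC u) (Ω : Set ℂ) (g : ℂ → (𝒜.B b →+* ℂ)) : Prop :=
  IsOpen Ω ∧ Ω.Nonempty ∧ (∀ z ∈ Ω, f z = spt (𝒜.j b) (g z)) ∧
    ∀ z ∈ Ω, ∀ l, evk (uz u hu z) (D l) ≠ 0 ∧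
      g z (𝒜.x b l) = evk (uz u hu z) (N l) / evk (uz u hu z) (D l)

theorem exists_atlas_chart (σ : F₀ →+* ℂ) {π : V ⟶ Spec (CommRingCat.of (𝓞 F₀))} (𝒜 : Atlas π)
    {f : ℂ → (Spec (CommRingCat.of ℂ) ⟶ V)} (hf : IsHolomorphicMap σ π f) (z₀ : ℂ) :
    ∃ (b : 𝒜.β) (r : ℝ) (g : ℂ → (𝒜.B b →+* ℂ)), 0 < r ∧
      (∀ z ∈ Metric.ball z₀ r, f z = spt (𝒜.j b) (g z)) ∧
      ∀ a, DifferentiableOn ℂ (fun z => g z a) (Metric.ball z₀ r) := by
  obtain ⟨b, hb⟩ := 𝒜.cov (Vp.pt (f z₀))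
  have := 𝒜.oi b
  obtain ⟨A, j, g', D, _, hD, hz, hfg, hhol, hO⟩ :=
    Vp.exists_chart_in hf z₀ (𝒜.j b).opensRange hb
  have hrange : Set.range j ⊆ Set.range (𝒜.j b) := hO
  obtain ⟨θ, hθ⟩ := Spec.map_surjective (IsOpenImmersion.lift (𝒜.j b) j hrange)
  have hθ' : Spec.map θ ≫ 𝒜.j b = j := by
    rw [hθ, IsOpenImmersion.lift_fac]
  obtain ⟨r, hr, hball⟩ := Metric.isOpen_iff.1 hD z₀ hz
  refine ⟨b, r, fun z => (g' z).comp θ.hom, hr, fun z hzr => ?_, fun a => ?_⟩
  · rw [hfg z (hball hzr)]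
    have h3 : Spec.map (CommRingCat.ofHom ((g' z).comp θ.hom)) =
        Spec.map (CommRingCat.ofHom (g' z)) ≫ Spec.map θ := by
      rw [← Spec.map_comp]; rfl
    show _ = Spec.map (CommRingCat.ofHom ((g' z).comp θ.hom)) ≫ 𝒜.j b
    rw [h3, Category.assoc, hθ']
  · exact (hhol (θ.hom a)).mono hball

theorem const_of_open (σ : F₀ →+* ℂ) {π : V ⟶ Spec (CommRingCat.of (𝓞 F₀))} (𝒜 : Atlas π)
    {f : ℂ → (Spec (CommRingCat.of ℂ) ⟶ V)} (hf : IsHolomorphicMap σ π f) (Ω : Set ℂ)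
    (hΩ : IsOpen Ω) (hne : Ω.Nonempty) (p : Spec (CommRingCat.of ℂ) ⟶ V)
    (h : ∀ z ∈ Ω, f z = p) : ∀ z, f z = p := by
  set Z : Set ℂ := {z | f z = p} with hZ
  have hclosed : IsClosed (interior Z) := by
    rw [← closure_subset_iff_isClosed]
    intro z hz
    obtain ⟨A, j, g, D, hj, hD, hzD, hfg, hhol⟩ := hf.holo z
    obtain ⟨r, hr, hball⟩ := Metric.isOpen_iff.1 hD z hzD
    obtain ⟨w, hw, hwZ⟩ : ∃ w ∈ Metric.ball z r, w ∈ interior Z := by
      obtain ⟨w, hw1, hw2⟩ := mem_closure_iff.1 hz (Metric.ball z r) Metric.isOpen_ball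
        (Metric.mem_ball_self hr)
      exact ⟨w, hw1, hw2⟩
    have hsub : ∀ v, v ∈ interior Z → f v = p := fun v hv => interior_subset (s := Z) hv
    have hwp : f w = p := hsub w hwZ
    have hvan : ∀ a : A, ∀ u ∈ Metric.ball z r, g u a = g w a := by
      intro a u hu
      have h1 : (fun u => g u a) =ᶠ[nhds w] fun _ => g w a := by
        filter_upwards [Metric.isOpen_ball.mem_nhds hw, isOpen_interior.mem_nhds hwZ] with v hv hvZ
        have hvp : f v = p := hsub v hvZ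
        have h2 : spt j (g v) = spt j (g w) := by
          show Spec.map (CommRingCat.ofHom (g v)) ≫ j = Spec.map (CommRingCat.ofHom (g w)) ≫ j
          rw [← hfg v (hball hv), ← hfg w (hball hw), hvp, hwp]
        rw [spt_inj j h2]
      have h2 : AnalyticOnNhd ℂ (fun u => g u a) (Metric.ball z r) :=
        ((hhol a).mono hball).analyticOnNhd Metric.isOpen_ball
      exact h2.eqOn_of_preconnected_of_eventuallyEq analyticOnNhd_const
        (convex_ball z r).isPreconnected hw h1 hu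
    rw [mem_interior]
    refine ⟨Metric.ball z r, ?_, Metric.isOpen_ball, Metric.mem_ball_self hr⟩
    intro u hu
    have h3 : g u = g w := RingHom.ext fun a => hvan a u hu
    show f u = p
    rw [hfg u (hball hu), h3, ← hfg w (hball hw), hwp]
  have hne' : (interior Z).Nonempty := by
    obtain ⟨w, hw⟩ := hne
    exact ⟨w, mem_interior.2 ⟨Ω, fun z hz => h z hz, hΩ, hw⟩⟩
  have huniv : interior Z = Set.univ := IsClopen.eq_univ ⟨hclosed, isOpen_interior⟩ hne'
  intro z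
  have h3 : z ∈ interior Z := by rw [huniv]; trivial
  have h4 : z ∈ Z := interior_subset h3
  exact h4

theorem cc_zero (σ : F₀ →+* ℂ) {π : V ⟶ Spec (CommRingCat.of (𝓞 F₀))} (𝒜 : Atlas π)
    {f : ℂ → (Spec (CommRingCat.of ℂ) ⟶ V)} (hf : IsHolomorphicMap σ π f)
    (b : 𝒜.β) (N D : 𝒜.ι b → Lp ℂ 0) (u : Fin 0 → ℂ → ℂ) (hu : IsUC u) (Ω : Set ℂ)
    (g : ℂ → (𝒜.B b →+* ℂ)) (h : CurPar 𝒜 f b N D u hu Ω g) : ∀ z w, f z = f w := by
  obtain ⟨hΩ, ⟨z₁, hz₁⟩, hfg, hval⟩ := h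
  have hstr : ∀ z ∈ Ω, (g z).comp (𝒜.ψ b) = σ.comp (algebraMap (𝓞 F₀) F₀) := by
    intro z hz
    have h1 := hf.structural z
    rw [hfg z hz] at h1
    have h2 : spt (𝒜.j b) (g z) ≫ π = Spec.map (CommRingCat.ofHom ((g z).comp (𝒜.ψ b))) := by
      show (Spec.map (CommRingCat.ofHom (g z)) ≫ 𝒜.j b) ≫ π = _
      rw [Category.assoc, 𝒜.str b, ← Up.map_comp]
    rw [h2] at h1
    exact congrArg CommRingCat.Hom.hom (Spec.map_injective h1)
  have hg : ∀ z ∈ Ω, g z = g z₁ := by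
    intro z hz
    refine hom_ext_of_gen (𝒜.gen b) ((hstr z hz).trans (hstr z₁ hz₁).symm) fun l => ?_
    have he : uz u hu z = uz u hu z₁ := Subsingleton.elim _ _
    rw [(hval z hz l).2, (hval z₁ hz₁ l).2, he]
  have hc := const_of_open σ 𝒜 hf Ω hΩ ⟨z₁, hz₁⟩ (f z₁) (fun z hz => by
    rw [hfg z hz, hfg z₁ hz₁, hg z hz])
  intro z w
  rw [hc z, hc w]

private theorem mon_single {d : ℕ} (v : Fin d → ℂ) (i : Fin d) (r : ℤ) :
    mon v (Pi.single i r) = v i ^ r := by
  classical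
  unfold mon
  rw [Finset.prod_eq_single i]
  · simp
  · intro j _ hj
    simp [hj]
  · simp

private theorem uact_diff {d : ℕ} (u : Fin d → ℂ → ℂ) (hu : IsUC u)
    (f : (Fin d → ℤ) ≃+ (Fin d → ℤ)) (i : Fin d) :
    Differentiable ℂ fun z => ((uact f (uz u hu z) i : ℂˣ) : ℂ) := by
  have h : (fun z => ((uact f (uz u hu z) i : ℂˣ) : ℂ)) =
      fun z => ∏ j, u j z ^ f (Pi.single i 1) j := by
    funext z
    unfold uact
    rw [Units.coe_prod]
    refine Finset.prod_congr rfl fun j _ => ?_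
    rw [Units.val_zpow_eq_zpow_val]
    rfl
  rw [h]
  refine Differentiable.fun_finsetProd fun j _ z => ?_
  exact ((hu j).1 z).zpow (Or.inl ((hu j).2 z))

private theorem const_of_zpow (h : ℂ → ℂ) (hd : Differentiable ℂ h) (h0 : ∀ z, h z ≠ 0) (r : ℤ)
    (hr : r ≠ 0) (c : ℂ) (hc : ∀ z, h z ^ r = c) : ∀ z w, h z = h w := by
  refine is_const_of_deriv_eq_zero hd fun z => ?_
  have h1 : HasDerivAt (fun z => h z ^ r) (r * h z ^ (r - 1) * deriv h z) z :=
    (hasDerivAt_zpow r (h z) (Or.inl (h0 z))).comp z (hd z).hasDerivAt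
  have h2 : HasDerivAt (fun z => h z ^ r) 0 z := by
    have : (fun z => h z ^ r) = fun _ => c := funext hc
    rw [this]
    exact hasDerivAt_const z c
  have h3 := h1.unique h2
  have h4 : (r : ℂ) * h z ^ (r - 1) ≠ 0 :=
    mul_ne_zero (Int.cast_ne_zero.2 hr) (zpow_ne_zero _ (h0 z))
  exact (mul_eq_zero.1 h3).resolve_left h4

theorem cc_rel {π : V ⟶ Spec (CommRingCat.of (𝓞 F₀))} (𝒜 : Atlas π)
    {f : ℂ → (Spec (CommRingCat.of ℂ) ⟶ V)} {d : ℕ}
    (b : 𝒜.β) (N D : 𝒜.ι b → Lp ℂ (d + 1)) (u : Fin (d + 1) → ℂ → ℂ) (hu : IsUC u) (Ω : Set ℂ)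
    (g : ℂ → (𝒜.B b →+* ℂ)) (h : CurPar 𝒜 f b N D u hu Ω g) (hi : ¬ IndC u) :
    ∃ (N' D' : 𝒜.ι b → Lp ℂ d) (u' : Fin d → ℂ → ℂ) (hu' : IsUC u'),
      CurPar 𝒜 f b N' D' u' hu' Ω g := by
  obtain ⟨hΩ, hne, hfg, hval⟩ := h
  unfold IndC at hi
  push Not at hi
  obtain ⟨k, hk, c, hc⟩ := hi
  obtain ⟨f', r, hr, hfk⟩ := uni2 k hk
  have hud : ∀ i, Differentiable ℂ fun z => ((uact f'.symm (uz u hu z) i : ℂˣ) : ℂ) := by
    intro i
    exact uact_diff u hu f'.symm i
  have hpow : ∀ z, ((uact f'.symm (uz u hu z) (Fin.last d) : ℂˣ) : ℂ) ^ r = c := by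
    intro z
    have h1 := mon_uact f'.symm (uz u hu z) (f' k)
    rw [AddEquiv.symm_apply_apply, hfk] at h1
    have h2 : mon (cu (uact f'.symm (uz u hu z))) (Pi.single (Fin.last d) r) =
        ((uact f'.symm (uz u hu z) (Fin.last d) : ℂˣ) : ℂ) ^ r := mon_single _ _ _
    rw [h2] at h1
    rw [h1]
    exact hc z
  have hconst : ∀ z, uact f'.symm (uz u hu z) (Fin.last d) =
      uact f'.symm (uz u hu 0) (Fin.last d) := by
    intro z
    apply Units.ext
    exact const_of_zpow _ (hud _) (fun z => Units.ne_zero _) r hr c hpow z 0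
  obtain ⟨sp, hsp⟩ := exists_spec (k := ℂ) (d := d) (uact f'.symm (uz u hu 0) (Fin.last d))
  have hev : ∀ (z : ℂ) (p : Lp ℂ (d + 1)), evk (uz u hu z) p =
      evk (fun i => uact f'.symm (uz u hu z) i.castSucc) (sp (lmap f' p)) := by
    intro z p
    rw [← hsp (uact f'.symm (uz u hu z)) (lmap f' p) (hconst z), ev_lmap, uact_uact_symm]
  have hu' : IsUC (fun (i : Fin d) z => ((uact f'.symm (uz u hu z) i.castSucc : ℂˣ) : ℂ)) :=
    fun i => ⟨hud _, fun z => Units.ne_zero _⟩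
  have huz : ∀ z, uz _ hu' z = fun i => uact f'.symm (uz u hu z) i.castSucc := by
    intro z
    funext i
    exact Units.ext rfl
  refine ⟨fun l => sp (lmap f' (N l)), fun l => sp (lmap f' (D l)), _, hu', hΩ, hne, hfg,
    fun z hz l => ?_⟩
  rw [huz z, ← hev, ← hev]
  exact hval z hz l

end Pool.Agent.Work.MP_e97a4d_nt
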