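import Pool.Agent.Work.MP_e97a4d_nt.UP.CCBase
import Pool.Agent.Work.MP_e97a4d_nt.UP.VGen
import Pool.Agent.Work.MP_e97a4d_nt.UP.VTrans

/-!
# CCLoc (M-L): the parametrisation of an entire curve is valid near every point

`borel_open`: for `n ≠ 0` the entire function `z ↦ evk (uz u hu z) n` (`ev_uz_differentiable`) is not
identically zero (`borelL`), so it does not vanish identically on a nonempty open set, and
its zeros are isolated.
`cc_fam`: the family `U = {(uz u hu z, g z) | z ∈ Ω}` satisfies `IsFam` (`dense` by `borel_open`), and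
`exists_gen` gives its generic point `φ`.
Claim A (propagation). Let `b'`, `φ' : 𝒜.B b' →+* Qp ℂ d` with `spt (𝒜.j b') φ' = spt (𝒜.j b) φ`, and let
`g'` be coordinates of `f` in the chart `b'` near `z₁` such that near `z₁`:
`g' z (x b' l) * evk (uz u hu z) m = evk (uz u hu z) n` whenever `m ≠ 0`, `φ' (x b' l) = n / m`. Let `b''`, `g''`
be a chart on a ball `Ω''` containing `z₁` with analytic coordinates (`exists_atlas_chart`). Then there is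
`φ''` with `spt (𝒜.j b'') φ'' = spt (𝒜.j b) φ` and the same relation holds for `b'', g'', φ''` on the
whole ball `Ω''`. Proof: write `φ' (x b' l) = N' l / D' l` with `D' l ≠ 0`, and
`U' = {(uz u hu z, g' z) | z near z₁, all evk (uz u hu z) (D' l) ≠ 0}`; it is a family for `b'`
(`borel_open` for `n * ∏ D' l`), its generic point from `exists_gen` is `φ'` (same values on the
generators, same structure map: `hom_ext_of_gen`). `exists_trans` from `b'` to `b''`: the first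
alternative is impossible (`g'' z` exists). So we get `φ''` and `m₀`, and the relation for those `z`
near `z₁` with `evk (uz u hu z) (m₀ * ∏ D' l) ≠ 0` (`spt_inj`), a dense subset of a neighbourhood of
`z₁`; for fixed `n, m` both sides are analytic on the ball `Ω''` and agree on a set with a limit
point in the ball, so they agree on the ball (identity theorem on the preconnected ball).
Main proof: let `W` be the set of `z₁` for which there are `b', φ', g'` as in Claim A (relation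
near `z₁`, analytic coordinates near `z₁`). `W` is open by definition, contains `Ω` (`b, φ, g`;
`g z (x b l) = N l / D l` is analytic on `Ω`; for other representations `n / m` of the same fraction
cross multiply), and is closed: for `z₀` in the closure take a ball chart at `z₀`
(`exists_atlas_chart`), a point `z₁ ∈ W` in the ball, and apply Claim A. `ℂ` is connected, so `W` is
everything. For given `z₀` apply Claim A once more or use the definition of `W`.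
-/

set_option autoImplicit false

noncomputable section

namespace Pool.Agent.Work.MP_e97a4d_nt

open AlgebraicGeometry CategoryTheory IsDedekindDomain NumberField Pool.Agent.Work.UP

variable {F₀ : Type} [Field F₀] {V V' : Scheme.{0}}

theorem borel_open {d : ℕ} (u : Fin d → ℂ → ℂ) (hu : IsUC u) (hi : IndC u) (n : Lp ℂ d)
    (hn : n ≠ 0) (Ω : Set ℂ) (hΩ : IsOpen Ω) (hne : Ω.Nonempty) :
    ∃ z ∈ Ω, evk (uz u hu z) n ≠ 0 := by
  by_contra hcon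
  push Not at hcon
  obtain ⟨w, hw⟩ := borelL u hu hi n hn
  obtain ⟨z₀, hz₀⟩ := hne
  have h1 : AnalyticOnNhd ℂ (fun z => evk (uz u hu z) n) Set.univ := fun z _ =>
    (ev_uz_differentiable u hu n).analyticAt z
  have h2 : (fun z => evk (uz u hu z) n) =ᶠ[nhds z₀] 0 := by
    filter_upwards [hΩ.mem_nhds hz₀] with z hz
    exact hcon z hz
  have h3 := h1.eqOn_zero_of_preconnected_of_eventuallyEq_zero isPreconnected_univ
    (Set.mem_univ z₀) h2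
  exact hw (h3 (Set.mem_univ w))

private theorem str_of_point (σ : F₀ →+* ℂ) {π : V ⟶ Spec (CommRingCat.of (𝓞 F₀))} (𝒜 : Atlas π)
    {f : ℂ → (Spec (CommRingCat.of ℂ) ⟶ V)} (hf : IsHolomorphicMap σ π f) (b : 𝒜.β)
    (P : 𝒜.B b →+* ℂ) (z : ℂ) (h : f z = spt (𝒜.j b) P) :
    P.comp (𝒜.ψ b) = σ.comp (algebraMap (𝓞 F₀) F₀) := by
  have h1 := hf.structural z
  rw [h] at h1
  unfold spt at h1
  rw [Category.assoc, 𝒜.str b, ← Spec.map_comp, ← CommRingCat.ofHom_comp] at h1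
  exact congrArg CommRingCat.Hom.hom (Spec.map_injective h1)

theorem cc_fam (σ : F₀ →+* ℂ) {π : V ⟶ Spec (CommRingCat.of (𝓞 F₀))} (𝒜 : Atlas π)
    {f : ℂ → (Spec (CommRingCat.of ℂ) ⟶ V)} (hf : IsHolomorphicMap σ π f) {d : ℕ}
    (b : 𝒜.β) (N D : 𝒜.ι b → Lp ℂ d) (u : Fin d → ℂ → ℂ) (hu : IsUC u) (hi : IndC u) (Ω : Set ℂ)
    (g : ℂ → (𝒜.B b →+* ℂ)) (h : CurPar 𝒜 f b N D u hu Ω g) :
    ∃ φ : 𝒜.B b →+* Qp ℂ d,
      IsGen (𝒜.ψ b) (σ.comp (algebraMap (𝓞 F₀) F₀)) {e | ∃ z ∈ Ω, e = (uz u hu z, g z)} φ ∧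
      ∀ l, D l ≠ 0 ∧ φ (𝒜.x b l) =
        algebraMap (Lp ℂ d) (Qp ℂ d) (N l) / algebraMap (Lp ℂ d) (Qp ℂ d) (D l) := by
  obtain ⟨hΩ, hne, hfz, hval⟩ := h
  have hfam : IsFam (𝒜.ψ b) (𝒜.x b) (σ.comp (algebraMap (𝓞 F₀) F₀)) N D
      {e | ∃ z ∈ Ω, e = (uz u hu z, g z)} := by
    refine ⟨?_, ?_, ?_, ?_⟩
    · rintro e ⟨z, hz, rfl⟩
      exact str_of_point σ 𝒜 hf b (g z) z (hfz z hz)
    · rintro e ⟨z, hz, rfl⟩ l
      exact (hval z hz l).1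
    · rintro e ⟨z, hz, rfl⟩ l
      exact (hval z hz l).2
    · intro n hn
      obtain ⟨z, hz, hzn⟩ := borel_open u hu hi n hn Ω hΩ hne
      exact ⟨(uz u hu z, g z), ⟨z, hz, rfl⟩, hzn⟩
  obtain ⟨φ, h1, h2⟩ := exists_gen (𝒜.gen b) hfam
  refine ⟨φ, h1, fun l => ⟨?_, h2 l⟩⟩
  intro hD
  obtain ⟨z, hz⟩ := hne
  have h3 := (hval z hz l).1
  rw [hD, map_zero] at h3
  exact h3 rfl

/-- The generic point has coordinates in the chart `b'` which are valid near `z₁`. -/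
private def GoodAt {π : V ⟶ Spec (CommRingCat.of (𝓞 F₀))} (𝒜 : Atlas π)
    (f : ℂ → (Spec (CommRingCat.of ℂ) ⟶ V)) {d : ℕ} (u : Fin d → ℂ → ℂ) (hu : IsUC u)
    (η : Spec (CommRingCat.of (Qp ℂ d)) ⟶ V) (z₁ : ℂ) : Prop :=
  ∃ (b' : 𝒜.β) (φ' : 𝒜.B b' →+* Qp ℂ d) (g' : ℂ → (𝒜.B b' →+* ℂ)),
    spt (𝒜.j b') φ' = η ∧ (∀ᶠ z in nhds z₁, f z = spt (𝒜.j b') (g' z)) ∧
    ∀ l (n m : Lp ℂ d), m ≠ 0 →
      φ' (𝒜.x b' l) = algebraMap (Lp ℂ d) (Qp ℂ d) n / algebraMap (Lp ℂ d) (Qp ℂ d) m →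
      ∀ᶠ z in nhds z₁, g' z (𝒜.x b' l) * evk (uz u hu z) m = evk (uz u hu z) n

private theorem propagate (σ : F₀ →+* ℂ) {π : V ⟶ Spec (CommRingCat.of (𝓞 F₀))} (𝒜 : Atlas π)
    {f : ℂ → (Spec (CommRingCat.of ℂ) ⟶ V)} (hf : IsHolomorphicMap σ π f) {d : ℕ}
    (u : Fin d → ℂ → ℂ) (hu : IsUC u) (hi : IndC u) (η : Spec (CommRingCat.of (Qp ℂ d)) ⟶ V)
    (hη : η ≫ π = Spec.map (CommRingCat.ofHom (strQ (σ.comp (algebraMap (𝓞 F₀) F₀)) d)))
    (z₁ z₀ : ℂ) (r : ℝ) (hz₁ : z₁ ∈ Metric.ball z₀ r) (hgood : GoodAt 𝒜 f u hu η z₁)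
    (b'' : 𝒜.β) (g'' : ℂ → (𝒜.B b'' →+* ℂ))
    (hf'' : ∀ z ∈ Metric.ball z₀ r, f z = spt (𝒜.j b'') (g'' z))
    (hd'' : ∀ a, DifferentiableOn ℂ (fun z => g'' z a) (Metric.ball z₀ r)) :
    ∃ φ'' : 𝒜.B b'' →+* Qp ℂ d, spt (𝒜.j b'') φ'' = η ∧
      ∀ l (n m : Lp ℂ d), m ≠ 0 →
        φ'' (𝒜.x b'' l) = algebraMap (Lp ℂ d) (Qp ℂ d) n / algebraMap (Lp ℂ d) (Qp ℂ d) m →
        ∀ z ∈ Metric.ball z₀ r,
          g'' z (𝒜.x b'' l) * evk (uz u hu z) m = evk (uz u hu z) n := by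
  classical
  obtain ⟨b', φ', g', hφ', hf', hrel⟩ := hgood
  have hcont : ∀ n : Lp ℂ d, Continuous (fun z => evk (uz u hu z) n) := fun n =>
    (ev_uz_differentiable u hu n).continuous
  -- fractions for `φ'`
  have hfrac : ∀ l, ∃ n m : Lp ℂ d, m ≠ 0 ∧ φ' (𝒜.x b' l) =
      algebraMap (Lp ℂ d) (Qp ℂ d) n / algebraMap (Lp ℂ d) (Qp ℂ d) m := by
    intro l
    obtain ⟨n, m, hm, h1⟩ := IsFractionRing.div_surjective (A := Lp ℂ d) (φ' (𝒜.x b' l))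
    exact ⟨n, m, nonZeroDivisors.ne_zero hm, h1.symm⟩
  choose N' D' hD' hND using hfrac
  have := 𝒜.finι b'
  have := 𝒜.oi b'
  have := 𝒜.oi b''
  have := Fintype.ofFinite (𝒜.ι b')
  have h1 : ∀ᶠ z in nhds z₁, z ∈ Metric.ball z₀ r ∧ f z = spt (𝒜.j b') (g' z) ∧
      ∀ l, g' z (𝒜.x b' l) * evk (uz u hu z) (D' l) = evk (uz u hu z) (N' l) := by
    refine (Metric.isOpen_ball.eventually_mem hz₁).and (hf'.and ?_)
    rw [Filter.eventually_all]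
    exact fun l => hrel l _ _ (hD' l) (hND l)
  obtain ⟨Ω₁, hΩ₁, hΩ₁o, hzΩ₁⟩ := eventually_nhds_iff.mp h1
  set Ω₂ : Set ℂ := Ω₁ ∩ {z | evk (uz u hu z) (∏ l, D' l) ≠ 0} with hΩ₂
  have hΩ₂o : IsOpen Ω₂ := hΩ₁o.inter (isOpen_ne_fun (hcont _) continuous_const)
  have hΩ₂ne : Ω₂.Nonempty := by
    obtain ⟨z, hz, hz'⟩ := borel_open u hu hi (∏ l, D' l)
      (Finset.prod_ne_zero_iff.mpr fun l _ => hD' l) Ω₁ hΩ₁o ⟨z₁, hzΩ₁⟩
    exact ⟨z, hz, hz'⟩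
  have hΩ₂D : ∀ z ∈ Ω₂, ∀ l, evk (uz u hu z) (D' l) ≠ 0 := by
    intro z hz l
    have h2 := hz.2
    simp only [Set.mem_ofPred_eq, map_prod] at h2
    exact Finset.prod_ne_zero_iff.mp h2 l (Finset.mem_univ l)
  have hcp : CurPar 𝒜 f b' N' D' u hu Ω₂ g' := by
    refine ⟨hΩ₂o, hΩ₂ne, fun z hz => (hΩ₁ z hz.1).2.1, fun z hz l => ⟨hΩ₂D z hz l, ?_⟩⟩
    rw [eq_div_iff (hΩ₂D z hz l)]
    exact (hΩ₁ z hz.1).2.2 l
  obtain ⟨φ₁, hφ₁, hφ₁v⟩ := cc_fam σ 𝒜 hf b' N' D' u hu hi Ω₂ g' hcp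
  have hφφ : φ₁ = φ' := by
    refine hom_ext_of_gen (𝒜.gen b') ?_ (fun l => ?_)
    · rw [hφ₁.str]
      rw [← hφ'] at hη
      unfold spt at hη
      rw [Category.assoc, 𝒜.str b', ← Spec.map_comp, ← CommRingCat.ofHom_comp] at hη
      exact (congrArg CommRingCat.Hom.hom (Spec.map_injective hη)).symm
    · rw [(hφ₁v l).2, hND l]
  rcases exists_trans (𝒜.j b') (𝒜.j b'') hφ₁ (𝒜.x b'') with hbad | ⟨φ'', hφ'', m₀, hm₀, hP'⟩
  · exfalso
    obtain ⟨z, hz⟩ := hΩ₂ne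
    refine hbad (uz u hu z, g' z) ⟨z, hz, rfl⟩ ⟨g'' z, ?_⟩
    show spt (𝒜.j b') (g' z) = spt (𝒜.j b'') (g'' z)
    rw [← (hΩ₁ z hz.1).2.1, hf'' z (hΩ₁ z hz.1).1]
  · refine ⟨φ'', by rw [← hφ'', hφφ, hφ'], fun l n m hm hnm => ?_⟩
    set Ω₃ : Set ℂ := Ω₂ ∩ {z | evk (uz u hu z) m₀ ≠ 0} with hΩ₃
    have hΩ₃o : IsOpen Ω₃ := hΩ₂o.inter (isOpen_ne_fun (hcont _) continuous_const)
    obtain ⟨z₂, hz₂, hz₂'⟩ := borel_open u hu hi m₀ hm₀ Ω₂ hΩ₂o hΩ₂ne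
    have h2 : ∀ z ∈ Ω₃, g'' z (𝒜.x b'' l) * evk (uz u hu z) m = evk (uz u hu z) n := by
      intro z hz
      obtain ⟨P', hP1, hP2⟩ := hP' (uz u hu z, g' z) ⟨z, hz.1, rfl⟩ hz.2
      have h3 : P' = g'' z := by
        refine spt_inj (𝒜.j b'') ?_
        rw [← hP1, ← hf'' z (hΩ₁ z hz.1.1).1]
        exact (hΩ₁ z hz.1.1).2.1.symm
      have h4 := hP2 l n m hm hnm
      rw [h3] at h4
      exact h4
    have h3 : AnalyticOnNhd ℂ (fun z => g'' z (𝒜.x b'' l) * evk (uz u hu z) m)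
        (Metric.ball z₀ r) :=
      ((hd'' _).mul (ev_uz_differentiable u hu m).differentiableOn).analyticOnNhd
        Metric.isOpen_ball
    have h4 : AnalyticOnNhd ℂ (fun z => evk (uz u hu z) n) (Metric.ball z₀ r) :=
      (ev_uz_differentiable u hu n).differentiableOn.analyticOnNhd Metric.isOpen_ball
    have h5 : (fun z => g'' z (𝒜.x b'' l) * evk (uz u hu z) m) =ᶠ[nhds z₂]
        (fun z => evk (uz u hu z) n) := by
      filter_upwards [hΩ₃o.mem_nhds ⟨hz₂, hz₂'⟩] with z hz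
      exact h2 z hz
    exact h3.eqOn_of_preconnected_of_eventuallyEq h4 (convex_ball z₀ r).isPreconnected
      (hΩ₁ z₂ hz₂.1).1 h5

theorem cc_local (σ : F₀ →+* ℂ) {π : V ⟶ Spec (CommRingCat.of (𝓞 F₀))} (𝒜 : Atlas π)
    {f : ℂ → (Spec (CommRingCat.of ℂ) ⟶ V)} (hf : IsHolomorphicMap σ π f) {d : ℕ}
    (b : 𝒜.β) (N D : 𝒜.ι b → Lp ℂ d) (u : Fin d → ℂ → ℂ) (hu : IsUC u) (hi : IndC u) (Ω : Set ℂ)
    (g : ℂ → (𝒜.B b →+* ℂ)) (h : CurPar 𝒜 f b N D u hu Ω g) (φ : 𝒜.B b →+* Qp ℂ d)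
    (hφ : IsGen (𝒜.ψ b) (σ.comp (algebraMap (𝓞 F₀) F₀)) {e | ∃ z ∈ Ω, e = (uz u hu z, g z)} φ)
    (z₀ : ℂ) :
    ∃ (b' : 𝒜.β) (φ' : 𝒜.B b' →+* Qp ℂ d) (X : 𝒜.ι b' → ℂ → ℂ),
      spt (𝒜.j b') φ' = spt (𝒜.j b) φ ∧ (∀ l, AnalyticAt ℂ (X l) z₀) ∧
      ∀ l (n m : Lp ℂ d), m ≠ 0 →
        φ' (𝒜.x b' l) = algebraMap (Lp ℂ d) (Qp ℂ d) n / algebraMap (Lp ℂ d) (Qp ℂ d) m →
        ∀ᶠ z in nhds z₀, X l z * evk (uz u hu z) m = evk (uz u hu z) n := by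
  have hη : spt (𝒜.j b) φ ≫ π =
      Spec.map (CommRingCat.ofHom (strQ (σ.comp (algebraMap (𝓞 F₀) F₀)) d)) := by
    unfold spt
    rw [Category.assoc, 𝒜.str b, ← Spec.map_comp, ← CommRingCat.ofHom_comp, hφ.str]
  set W : Set ℂ := {z | GoodAt 𝒜 f u hu (spt (𝒜.j b) φ) z} with hW
  -- if a chart ball meets `W` then it is contained in `W`
  have key : ∀ w, ∃ r : ℝ, 0 < r ∧
      ((∃ z₁ ∈ Metric.ball w r, z₁ ∈ W) → Metric.ball w r ⊆ W) := by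
    intro w
    obtain ⟨b'', r, g'', hr, hf'', hd''⟩ := exists_atlas_chart σ 𝒜 hf w
    refine ⟨r, hr, ?_⟩
    rintro ⟨z₁, hz₁, hz₁W⟩ z₂ hz₂
    obtain ⟨φ'', h1, h2⟩ := propagate σ 𝒜 hf u hu hi _ hη z₁ w r hz₁ hz₁W b'' g'' hf'' hd''
    refine ⟨b'', φ'', g'', h1, ?_, fun l n m hm hnm => ?_⟩
    · filter_upwards [Metric.isOpen_ball.mem_nhds hz₂] with z hz
      exact hf'' z hz
    · filter_upwards [Metric.isOpen_ball.mem_nhds hz₂] with z hz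
      exact h2 l n m hm hnm z hz
  have hopen : IsOpen W := by
    rw [Metric.isOpen_iff]
    intro w hw
    obtain ⟨r, hr, hk⟩ := key w
    exact ⟨r, hr, hk ⟨w, Metric.mem_ball_self hr, hw⟩⟩
  have hclosed : IsClosed W := by
    rw [← closure_subset_iff_isClosed]
    intro w hw
    obtain ⟨r, hr, hk⟩ := key w
    obtain ⟨z₁, hz₁, hz₁W⟩ := mem_closure_iff.mp hw (Metric.ball w r) Metric.isOpen_ball
      (Metric.mem_ball_self hr)
    exact hk ⟨z₁, hz₁, hz₁W⟩ (Metric.mem_ball_self hr)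
  have hne : W.Nonempty := by
    obtain ⟨hΩ, ⟨w, hw⟩, hfz, hval⟩ := h
    refine ⟨w, b, φ, g, rfl, ?_, fun l n m hm hnm => ?_⟩
    · filter_upwards [hΩ.mem_nhds hw] with z hz
      exact hfz z hz
    · obtain ⟨n₁, m₁, hm₁, h1, h2⟩ := hφ.spec (𝒜.x b l)
      have hinj : Function.Injective (algebraMap (Lp ℂ d) (Qp ℂ d)) :=
        IsFractionRing.injective _ _
      have hne' : ∀ m : Lp ℂ d, m ≠ 0 → algebraMap (Lp ℂ d) (Qp ℂ d) m ≠ 0 := fun m hm h =>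
        hm (hinj (by rw [h, map_zero]))
      have h3 : n * m₁ = n₁ * m := by
        rw [h1, div_eq_div_iff (hne' _ hm₁) (hne' _ hm), ← map_mul, ← map_mul] at hnm
        exact (hinj hnm).symm
      filter_upwards [hΩ.mem_nhds hw] with z hz
      obtain ⟨h4, h5⟩ := h2 (uz u hu z, g z) ⟨z, hz, rfl⟩
      have h6 := congrArg (evk (uz u hu z)) h3
      rw [map_mul, map_mul] at h6
      simp only at h4 h5
      rw [h5]
      field_simp
      linear_combination (-1) * h6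
  have huniv : W = Set.univ := IsClopen.eq_univ ⟨hclosed, hopen⟩ hne
  obtain ⟨b'', r, g'', hr, hf'', hd''⟩ := exists_atlas_chart σ 𝒜 hf z₀
  have hz₀W : z₀ ∈ W := by rw [huniv]; trivial
  obtain ⟨φ'', h1, h2⟩ := propagate σ 𝒜 hf u hu hi _ hη z₀ z₀ r (Metric.mem_ball_self hr)
    hz₀W b'' g'' hf'' hd''
  refine ⟨b'', φ'', fun l z => g'' z (𝒜.x b'' l), h1, fun l => ?_, fun l n m hm hnm => ?_⟩
  · exact (hd'' _).analyticAt (Metric.isOpen_ball.mem_nhds (Metric.mem_ball_self hr))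
  · filter_upwards [Metric.isOpen_ball.mem_nhds (Metric.mem_ball_self hr)] with z hz
    exact h2 l n m hm hnm z hz

end Pool.Agent.Work.MP_e97a4d_nt
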