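import Pool.Agent.Work.MP_e97a4d_nt.SIntDed

/-!
# VAlgGlue (M-L): extension of a rational map from a Dedekind scheme, without separatedness

(a) Two morphisms `c₀ : Spec (Away g₀) ⟶ V`, `c₁ : Spec (Away g₁) ⟶ V` with the same generic point `η`
agree on `Spec (Away h)` for some nonzero multiple `h` of `g₀ g₁`: let `U` be an affine open of `V`
containing the image of `η`; the preimages of `U` contain basic opens `D(h₀)`, `D(h₁)`; there `c₀`, `c₁`
are given by ring homomorphisms `Γ(V, U) → Away h₀, Away h₁ ⊆ Q`, which agree as homomorphisms to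
`Q` (the affine open `U` is a monomorphism), so `h = g₀ g₁ h₀ h₁` works.
(b) Take `g₀` for the prime `⊥`. The complement of `D(g₀)` is a finite set `S` of primes
(`finite_of_isClosed`). For `P ∈ S` choose `g₁, c₁` as in the hypothesis and `h` as in (a) for
`c₀, c₁`; the set of primes in `D(g₁)` which are in `S` or contain `h`, other than `P`, is finite and `P`
is maximal; the complement of the other primes is open. Then on this open set without `P` one has
`c₁ = c₀`. So `c₀` on `D(g₀)` and the `c_P` agree on all intersections.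
(c) Glue (`openCoverOfIsOpenCover`). The result has generic point `η` (look at `D(g₀)`).
-/

set_option autoImplicit false

noncomputable section

namespace Pool.Agent.Work.MP_e97a4d_nt

open AlgebraicGeometry CategoryTheory CategoryTheory.Limits

section

variable {R : Type} [CommRing R] [IsDedekindDomain R] {Q : Type} [Field Q] [Algebra R Q]
  [IsFractionRing R Q] {V : Scheme.{0}}

/-- the morphism from the principal open subscheme -/
private abbrev gU (s : R) : Spec (CommRingCat.of (Localization.Away s)) ⟶ Spec (CommRingCat.of R) :=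
  Spec.map (CommRingCat.ofHom (algebraMap R (Localization.Away s)))

private theorem range_gU (s : R) :
    Set.range (gU s) = (PrimeSpectrum.basicOpen s : Set (PrimeSpectrum R)) :=
  PrimeSpectrum.localization_away_comap_range (Localization.Away s) s

/-- lifting to a principal open subscheme -/
private def gLift (s : R) {T : Scheme.{0}} (t : T ⟶ Spec (CommRingCat.of R))
    (h : Set.range t ⊆ (PrimeSpectrum.basicOpen s : Set (PrimeSpectrum R))) :
    T ⟶ Spec (CommRingCat.of (Localization.Away s)) :=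
  IsOpenImmersion.lift (gU s) t (by rw [range_gU]; exact h)

private theorem gLift_fac (s : R) {T : Scheme.{0}} (t : T ⟶ Spec (CommRingCat.of R))
    (h : Set.range t ⊆ (PrimeSpectrum.basicOpen s : Set (PrimeSpectrum R))) :
    gLift s t h ≫ gU s = t := IsOpenImmersion.lift_fac _ _ _

private theorem gLift_unique (s : R) {T : Scheme.{0}} (t : T ⟶ Spec (CommRingCat.of R))
    (h : Set.range t ⊆ (PrimeSpectrum.basicOpen s : Set (PrimeSpectrum R)))
    (l : T ⟶ Spec (CommRingCat.of (Localization.Away s))) (hl : l ≫ gU s = t) :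
    l = gLift s t h := by
  rw [← cancel_mono (gU s), hl, gLift_fac]

private theorem gLift_comp (s : R) {T T' : Scheme.{0}} (t : T ⟶ Spec (CommRingCat.of R))
    (h : Set.range t ⊆ (PrimeSpectrum.basicOpen s : Set (PrimeSpectrum R)))
    (g : T' ⟶ T) (h' : Set.range (g ≫ t) ⊆ (PrimeSpectrum.basicOpen s : Set (PrimeSpectrum R))) :
    g ≫ gLift s t h = gLift s (g ≫ t) h' := by
  apply gLift_unique
  rw [Category.assoc, gLift_fac]

omit [IsDedekindDomain R] in
private theorem gK_injective [IsDomain R] (s : R) (hs : s ≠ 0) (κ : Localization.Away s →+* Q)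
    (hκ : κ.comp (algebraMap R (Localization.Away s)) = algebraMap R Q) :
    Function.Injective κ := by
  rw [injective_iff_map_eq_zero]
  intro c hc
  obtain ⟨⟨b, t⟩, hb⟩ := IsLocalization.surj (Submonoid.powers s) c
  have h1 := congrArg κ hb
  rw [map_mul, hc, zero_mul] at h1
  have h1' : (0 : Q) = algebraMap R Q b := h1.trans (RingHom.congr_fun hκ b)
  have h2 : b = 0 := IsFractionRing.injective R Q (by rw [← h1', map_zero])
  have h3 : IsUnit (algebraMap R (Localization.Away s) t) := IsLocalization.map_units _ t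
  have h4 : c * algebraMap R (Localization.Away s) t = 0 := by
    rw [hb]
    show algebraMap R (Localization.Away s) b = 0
    rw [h2, map_zero]
  exact h3.mul_left_eq_zero.1 h4

/-- a basic open set of a localization, inside the preimage of an open set -/
private theorem exists_basic (s : R) (hs : s ≠ 0) (κ : Localization.Away s →+* Q)
    (hκ : κ.comp (algebraMap R (Localization.Away s)) = algebraMap R Q)
    (c : Spec (CommRingCat.of (Localization.Away s)) ⟶ V) (U : V.Opens)
    (h : (Spec.map (CommRingCat.ofHom κ) ≫ c) (⊥ : PrimeSpectrum Q) ∈ U) :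
    ∃ b : R, b ≠ 0 ∧ ∀ q : PrimeSpectrum (Localization.Away s),
      algebraMap R (Localization.Away s) b ∉ q.asIdeal → c q ∈ U := by
  let p : PrimeSpectrum (Localization.Away s) := PrimeSpectrum.comap κ ⊥
  have hp : p ∈ (c ⁻¹ᵁ U : (Spec (CommRingCat.of (Localization.Away s))).Opens) := h
  obtain ⟨_, ⟨a, rfl⟩, hpa, haU⟩ :=
    PrimeSpectrum.isTopologicalBasis_basic_opens.exists_subset_of_mem_open hp (c ⁻¹ᵁ U).isOpen
  obtain ⟨⟨b, t⟩, hb⟩ := IsLocalization.surj (Submonoid.powers s) a
  have ht : IsUnit (algebraMap R (Localization.Away s) t) := IsLocalization.map_units _ t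
  refine ⟨b, ?_, fun q hq => haU ?_⟩
  · rintro rfl
    apply hpa
    show κ a = 0
    have h1 : a * algebraMap R (Localization.Away s) t = 0 := by
      rw [hb]; exact map_zero _
    rw [ht.mul_left_eq_zero.1 h1, map_zero]
  · intro (haq : a ∈ q.asIdeal)
    apply hq
    have h2 : algebraMap R (Localization.Away s) b = a * algebraMap R (Localization.Away s) t :=
      hb.symm
    rw [h2]
    exact Ideal.mul_mem_right _ _ haq

/-- comparison of two local sections with the same generic point -/
private theorem g_compat (η : Spec (CommRingCat.of Q) ⟶ V) (s s' : R) (hs0 : s ≠ 0) (hs0' : s' ≠ 0)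
    (κ : Localization.Away s →+* Q) (κ' : Localization.Away s' →+* Q)
    (hκ : κ.comp (algebraMap R (Localization.Away s)) = algebraMap R Q)
    (hκ' : κ'.comp (algebraMap R (Localization.Away s')) = algebraMap R Q)
    (c : Spec (CommRingCat.of (Localization.Away s)) ⟶ V)
    (c' : Spec (CommRingCat.of (Localization.Away s')) ⟶ V)
    (h : Spec.map (CommRingCat.ofHom κ) ≫ c = η) (h' : Spec.map (CommRingCat.ofHom κ') ≫ c' = η) :
    ∃ e : R, e ≠ 0 ∧ ∀ (T : Scheme.{0}) (t : T ⟶ Spec (CommRingCat.of R))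
      (_ : Set.range t ⊆ (PrimeSpectrum.basicOpen (s * s' * e) : Set (PrimeSpectrum R)))
      (h1 : Set.range t ⊆ (PrimeSpectrum.basicOpen s : Set (PrimeSpectrum R)))
      (h2 : Set.range t ⊆ (PrimeSpectrum.basicOpen s' : Set (PrimeSpectrum R))),
      gLift s t h1 ≫ c = gLift s' t h2 ≫ c' := by
  obtain ⟨U, hU, hηU, -⟩ := exists_isAffineOpen_mem_and_subset (X := V)
    (x := η (⊥ : PrimeSpectrum Q)) (U := ⊤) trivial
  obtain ⟨b, hb, hbU⟩ := exists_basic s hs0 κ hκ c U (by rw [h]; exact hηU)
  obtain ⟨b', hb', hbU'⟩ := exists_basic s' hs0' κ' hκ' c' U (by rw [h']; exact hηU)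
  refine ⟨b * b', mul_ne_zero hb hb', fun T t hr h1 h2 => ?_⟩
  set s₂ := s * s' * (b * b') with hs₂
  have hs₂0 : s₂ ≠ 0 := mul_ne_zero (mul_ne_zero hs0 hs0') (mul_ne_zero hb hb')
  let L₂ := Localization.Away s₂
  have hunit₂ : IsUnit (algebraMap R L₂ s₂) :=
    IsLocalization.map_units L₂ (⟨s₂, Submonoid.mem_powers s₂⟩ : Submonoid.powers s₂)
  have hunit : ∀ c, c ∣ s₂ → IsUnit (algebraMap R L₂ c) := fun c hc =>
    isUnit_of_dvd_unit (map_dvd _ hc) hunit₂
  have hds : s ∣ s₂ := ⟨s' * (b * b'), by rw [hs₂]; ring⟩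
  have hds' : s' ∣ s₂ := ⟨s * (b * b'), by rw [hs₂]; ring⟩
  have hdb : b ∣ s₂ := ⟨s * s' * b', by rw [hs₂]; ring⟩
  have hdb' : b' ∣ s₂ := ⟨s * s' * b, by rw [hs₂]; ring⟩
  let ρ : Localization.Away s →+* L₂ := IsLocalization.Away.lift s (hunit s hds)
  let ρ' : Localization.Away s' →+* L₂ := IsLocalization.Away.lift s' (hunit s' hds')
  have hρ : ρ.comp (algebraMap R (Localization.Away s)) = algebraMap R L₂ :=
    IsLocalization.Away.lift_comp _ _
  have hρ' : ρ'.comp (algebraMap R (Localization.Away s')) = algebraMap R L₂ :=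
    IsLocalization.Away.lift_comp _ _
  let κ₂ : L₂ →+* Q := IsLocalization.Away.lift s₂ (g := algebraMap R Q)
    (isUnit_iff_ne_zero.2 (fun h => hs₂0 (IsFractionRing.injective R Q (by rw [h, map_zero]))))
  have hκ₂ : κ₂.comp (algebraMap R L₂) = algebraMap R Q := IsLocalization.Away.lift_comp _ _
  have hinj : Function.Injective κ₂ := gK_injective s₂ hs₂0 κ₂ hκ₂
  have hcomp : κ₂.comp ρ = κ := by
    apply IsLocalization.ringHom_ext (Submonoid.powers s)
    rw [RingHom.comp_assoc, hρ, hκ₂, hκ]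
  have hcomp' : κ₂.comp ρ' = κ' := by
    apply IsLocalization.ringHom_ext (Submonoid.powers s')
    rw [RingHom.comp_assoc, hρ', hκ₂, hκ']
  -- the two morphisms agree over the small principal open subscheme
  have hrange : ∀ (s : R) (ρ : Localization.Away s →+* L₂)
      (_ : ρ.comp (algebraMap R (Localization.Away s)) = algebraMap R L₂) (b : R) (_ : b ∣ s₂)
      (c : Spec (CommRingCat.of (Localization.Away s)) ⟶ V)
      (_ : ∀ q : PrimeSpectrum (Localization.Away s),
        algebraMap R (Localization.Away s) b ∉ q.asIdeal → c q ∈ U),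
      Set.range (Spec.map (CommRingCat.ofHom ρ) ≫ c) ⊆ Set.range hU.fromSpec := by
    intro s ρ hρ b hdb c hbU
    rw [hU.range_fromSpec]
    rintro _ ⟨q, rfl⟩
    refine hbU (Spec.map (CommRingCat.ofHom ρ) q) ?_
    intro (hq : ρ (algebraMap R (Localization.Away s) b) ∈ q.asIdeal)
    have h3 : ρ (algebraMap R (Localization.Away s) b) = algebraMap R L₂ b := RingHom.congr_fun hρ b
    rw [h3] at hq
    exact q.2.ne_top (Ideal.eq_top_of_isUnit_mem _ hq (hunit b hdb))
  have hr1 := hrange s ρ hρ b hdb c hbU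
  have hr2 := hrange s' ρ' hρ' b' hdb' c' hbU'
  obtain ⟨γ, hγ⟩ := Spec.map_surjective (IsOpenImmersion.lift hU.fromSpec _ hr1)
  obtain ⟨γ', hγ'⟩ := Spec.map_surjective (IsOpenImmersion.lift hU.fromSpec _ hr2)
  have hγ1 : Spec.map γ ≫ hU.fromSpec = Spec.map (CommRingCat.ofHom ρ) ≫ c := by
    rw [hγ, IsOpenImmersion.lift_fac]
  have hγ1' : Spec.map γ' ≫ hU.fromSpec = Spec.map (CommRingCat.ofHom ρ') ≫ c' := by
    rw [hγ', IsOpenImmersion.lift_fac]
  have hγγ : γ = γ' := by
    have h3 : Spec.map (CommRingCat.ofHom κ₂) ≫ Spec.map γ =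
        Spec.map (CommRingCat.ofHom κ₂) ≫ Spec.map γ' := by
      rw [← cancel_mono hU.fromSpec, Category.assoc, Category.assoc, hγ1, hγ1',
        ← Category.assoc, ← Category.assoc, ← Spec.map_comp, ← Spec.map_comp,
        ← CommRingCat.ofHom_comp, ← CommRingCat.ofHom_comp, hcomp, hcomp', h, h']
    rw [← Spec.map_comp, ← Spec.map_comp] at h3
    have h4 := congrArg CommRingCat.Hom.hom (Spec.map_injective h3)
    ext x
    exact hinj (RingHom.congr_fun h4 x)
  have hl : gLift s t h1 = gLift s₂ t hr ≫ Spec.map (CommRingCat.ofHom ρ) := by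
    symm
    apply gLift_unique
    rw [Category.assoc, ← Spec.map_comp, ← CommRingCat.ofHom_comp, hρ]
    exact gLift_fac s₂ t hr
  have hl' : gLift s' t h2 = gLift s₂ t hr ≫ Spec.map (CommRingCat.ofHom ρ') := by
    symm
    apply gLift_unique
    rw [Category.assoc, ← Spec.map_comp, ← CommRingCat.ofHom_comp, hρ']
    exact gLift_fac s₂ t hr
  rw [hl, hl', Category.assoc, Category.assoc, ← hγ1, ← hγ1', hγγ]

end

theorem exists_glue {V : Scheme.{0}} {Rg : Type} [CommRing Rg] [IsDedekindDomain Rg]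
    {Q : Type} [Field Q] [Algebra Rg Q] [IsFractionRing Rg Q]
    (η : Spec (CommRingCat.of Q) ⟶ V)
    (h : ∀ P : PrimeSpectrum Rg, ∃ g : Rg, g ∉ P.asIdeal ∧
      ∃ (θ : Localization.Away g →+* Q) (c : Spec (CommRingCat.of (Localization.Away g)) ⟶ V),
        θ.comp (algebraMap Rg (Localization.Away g)) = algebraMap Rg Q ∧
          Spec.map (CommRingCat.ofHom θ) ≫ c = η) :
    ∃ c : Spec (CommRingCat.of Rg) ⟶ V,
      Spec.map (CommRingCat.ofHom (algebraMap Rg Q)) ≫ c = η := by
  classical
  choose s hs κ m hκ hm using h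
  have hs0 : ∀ p, s p ≠ 0 := fun p h => hs p (by rw [h]; exact zero_mem _)
  have hcomp := fun p => g_compat η (s ⊥) (s p) (hs0 ⊥) (hs0 p) (κ ⊥) (κ p) (hκ ⊥) (hκ p)
    (m ⊥) (m p) (hm ⊥) (hm p)
  choose e he hcompat using hcomp
  let B : PrimeSpectrum Rg → Set (PrimeSpectrum Rg) :=
    fun p => PrimeSpectrum.zeroLocus {s ⊥ * s p * e p} \ {p}
  have hs2 : ∀ p, s ⊥ * s p * e p ≠ 0 := fun p => mul_ne_zero (mul_ne_zero (hs0 ⊥) (hs0 p)) (he p)
  have hbot : ∀ p, (⊥ : PrimeSpectrum Rg) ∉ PrimeSpectrum.zeroLocus {s ⊥ * s p * e p} := by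
    intro p hmem
    rw [PrimeSpectrum.mem_zeroLocus] at hmem
    exact hs2 p (hmem (Set.mem_singleton _))
  have hBcl : ∀ p, IsClosed (B p) := by
    intro p
    have h1 : (PrimeSpectrum.zeroLocus {s ⊥ * s p * e p}).Finite :=
      Vp.finite_of_isClosed _ (PrimeSpectrum.isClosed_zeroLocus _) (hbot p)
    have h2 : B p = ⋃ q ∈ B p, ({q} : Set (PrimeSpectrum Rg)) :=
      (Set.biUnion_of_singleton _).symm
    rw [h2]
    refine (h1.subset Set.sdiff_subset).isClosed_biUnion fun q hq => ?_
    apply Vp.isClosed_singleton_of_ne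
    rintro rfl
    exact hbot p hq.1
  let ι := Option {p : PrimeSpectrum Rg // s ⊥ ∈ p.asIdeal}
  let pr : ι → PrimeSpectrum Rg := fun k => k.elim ⊥ (fun p => p.1)
  let O : ι → (Spec (CommRingCat.of Rg)).Opens := fun k =>
    k.elim (PrimeSpectrum.basicOpen (s ⊥))
      (fun p => PrimeSpectrum.basicOpen (s p.1) ⊓ ⟨(B p.1)ᶜ, (hBcl p.1).isOpen_compl⟩)
  have hOs : ∀ k, (O k : Set (Spec (CommRingCat.of Rg))) ⊆
      (PrimeSpectrum.basicOpen (s (pr k)) : Set (PrimeSpectrum Rg)) := by
    intro k
    cases k with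
    | none => exact le_rfl
    | some p => exact fun q hq => hq.1
  have hO : TopologicalSpace.IsOpenCover O := by
    rw [TopologicalSpace.IsOpenCover, eq_top_iff]
    intro q _
    rw [TopologicalSpace.Opens.mem_iSup]
    by_cases hq : s ⊥ ∈ q.asIdeal
    · exact ⟨some ⟨q, hq⟩, hs q, fun h => h.2 rfl⟩
    · exact ⟨none, hq⟩
  have hrk : ∀ k, Set.range (O k).ι ⊆
      (PrimeSpectrum.basicOpen (s (pr k)) : Set (PrimeSpectrum Rg)) := by
    intro k
    rw [Scheme.Opens.range_ι]
    exact hOs k
  let M : ∀ k, (O k).toScheme ⟶ V := fun k => gLift (s (pr k)) (O k).ι (hrk k) ≫ m (pr k)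
  -- over the intersections everything is equal to the first section
  have hsome : ∀ (p : {p : PrimeSpectrum Rg // s ⊥ ∈ p.asIdeal}) (T : Scheme.{0})
      (t : T ⟶ Spec (CommRingCat.of Rg))
      (h1 : Set.range t ⊆ (O (some p) : Set (Spec (CommRingCat.of Rg))))
      (h2 : ∀ q, t q ≠ p.1)
      (h3 : Set.range t ⊆ (PrimeSpectrum.basicOpen (s ⊥) : Set (PrimeSpectrum Rg)))
      (h4 : Set.range t ⊆ (PrimeSpectrum.basicOpen (s p.1) : Set (PrimeSpectrum Rg))),
      gLift (s ⊥) t h3 ≫ m ⊥ = gLift (s p.1) t h4 ≫ m p.1 := by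
    intro p T t h1 h2 h3 h4
    refine hcompat p.1 T t ?_ h3 h4
    rintro _ ⟨q, rfl⟩
    have h5 := (h1 ⟨q, rfl⟩).2
    intro h6
    apply h5
    refine ⟨?_, fun h => h2 q h⟩
    rw [PrimeSpectrum.mem_zeroLocus, Set.singleton_subset_iff]
    exact h6
  have hkey : ∀ (k l : ι), k ≠ l → ∀ (T : Scheme.{0}) (t : T ⟶ Spec (CommRingCat.of Rg))
      (hk : Set.range t ⊆ (O k : Set (Spec (CommRingCat.of Rg))))
      (hl : Set.range t ⊆ (O l : Set (Spec (CommRingCat.of Rg)))),
      gLift (s (pr k)) t (hk.trans (hOs k)) ≫ m (pr k) =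
        gLift (s (pr l)) t (hl.trans (hOs l)) ≫ m (pr l) := by
    intro k l hkl T t hk hl
    cases k with
    | none =>
      cases l with
      | none => exact absurd rfl hkl
      | some p =>
        refine hsome p T t hl (fun q hq => ?_) _ _
        have h1 : s ⊥ ∉ (t q).asIdeal := hk ⟨q, rfl⟩
        rw [hq] at h1
        exact h1 p.2
    | some p =>
      cases l with
      | none =>
        symm
        refine hsome p T t hk (fun q hq => ?_) _ _
        have h1 : s ⊥ ∉ (t q).asIdeal := hl ⟨q, rfl⟩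
        rw [hq] at h1
        exact h1 p.2
      | some p' =>
        have hpp : p.1 ≠ p'.1 := fun h => hkl (by rw [Subtype.ext h])
        -- a point of the second set other than its centre is in the first principal open set
        have h1 : ∀ (p p' : {p : PrimeSpectrum Rg // s ⊥ ∈ p.asIdeal}), p.1 ≠ p'.1 →
            Set.range t ⊆ (O (some p') : Set (Spec (CommRingCat.of Rg))) → ∀ q, t q ≠ p.1 := by
          intro p p' hpp hl q hq
          have h5 := (hl ⟨q, rfl⟩).2
          apply h5
          refine ⟨?_, fun h => hpp (hq.symm.trans h)⟩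
          rw [PrimeSpectrum.mem_zeroLocus, Set.singleton_subset_iff]
          have h6 : s ⊥ ∈ (t q).asIdeal := by rw [hq]; exact p.2
          exact Ideal.mul_mem_right _ _ (Ideal.mul_mem_right _ _ h6)
        have h2 := h1 p p' hpp hl
        have h3 := h1 p' p hpp.symm hk
        have h4 : Set.range t ⊆ (PrimeSpectrum.basicOpen (s ⊥) : Set (PrimeSpectrum Rg)) := by
          rintro _ ⟨q, rfl⟩
          have h5 := (hk ⟨q, rfl⟩).2
          intro h6
          apply h5
          refine ⟨?_, fun h => h2 q h⟩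
          rw [PrimeSpectrum.mem_zeroLocus, Set.singleton_subset_iff]
          exact Ideal.mul_mem_right _ _ (Ideal.mul_mem_right _ _ h6)
        exact (hsome p T t hk h2 h4 (hk.trans (hOs (some p)))).symm.trans
          (hsome p' T t hl h3 h4 (hl.trans (hOs (some p'))))
  let 𝒰 : (Spec (CommRingCat.of Rg)).OpenCover :=
    (Spec (CommRingCat.of Rg)).openCoverOfIsOpenCover O hO
  have hcompat2 : ∀ k l : ι, pullback.fst (O k).ι (O l).ι ≫ M k =
      pullback.snd (O k).ι (O l).ι ≫ M l := by
    intro k l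
    by_cases hkl : k = l
    · subst hkl
      rw [fst_eq_snd_of_mono_eq]
    · have hk : Set.range (pullback.fst (O k).ι (O l).ι ≫ (O k).ι) ⊆
          (O k : Set (Spec (CommRingCat.of Rg))) := by
        rintro _ ⟨t, rfl⟩
        rw [Scheme.Hom.comp_apply]
        exact (pullback.fst (O k).ι (O l).ι t).2
      have hl : Set.range (pullback.fst (O k).ι (O l).ι ≫ (O k).ι) ⊆
          (O l : Set (Spec (CommRingCat.of Rg))) := by
        rintro _ ⟨t, rfl⟩
        rw [pullback.condition, Scheme.Hom.comp_apply]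
        exact (pullback.snd (O k).ι (O l).ι t).2
      have h1 := hkey k l hkl _ (pullback.fst (O k).ι (O l).ι ≫ (O k).ι) hk hl
      have h2 : pullback.fst (O k).ι (O l).ι ≫ M k =
          gLift (s (pr k)) (pullback.fst (O k).ι (O l).ι ≫ (O k).ι) (hk.trans (hOs k)) ≫
            m (pr k) := by
        show pullback.fst (O k).ι (O l).ι ≫ gLift (s (pr k)) (O k).ι (hrk k) ≫ m (pr k) = _
        rw [← Category.assoc, gLift_comp]
      have h3 : pullback.snd (O k).ι (O l).ι ≫ M l =
          gLift (s (pr l)) (pullback.fst (O k).ι (O l).ι ≫ (O k).ι) (hl.trans (hOs l)) ≫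
            m (pr l) := by
        show pullback.snd (O k).ι (O l).ι ≫ gLift (s (pr l)) (O l).ι (hrk l) ≫ m (pr l) = _
        rw [← Category.assoc]
        congr 1
        apply gLift_unique
        rw [Category.assoc, gLift_fac, pullback.condition]
      rw [h2, h3, h1]
  let x : Spec (CommRingCat.of Rg) ⟶ V := 𝒰.glueMorphisms M hcompat2
  have hx : (O none).ι ≫ x = M none := Scheme.Cover.ι_glueMorphisms 𝒰 M hcompat2 none
  refine ⟨x, ?_⟩
  have h0 : Set.range (gU (s ⊥)) ⊆ Set.range (O none).ι := by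
    rw [range_gU, Scheme.Opens.range_ι]
    exact le_rfl
  have h1 : IsOpenImmersion.lift (O none).ι (gU (s ⊥)) h0 ≫ (O none).ι = gU (s ⊥) :=
    IsOpenImmersion.lift_fac _ _ _
  have h2 : gU (s ⊥) ≫ x = m ⊥ := by
    rw [← h1, Category.assoc, hx]
    show IsOpenImmersion.lift (O none).ι (gU (s ⊥)) h0 ≫
      gLift (s ⊥) (O none).ι (hrk none) ≫ m ⊥ = m ⊥
    rw [← Category.assoc]
    have h3 : IsOpenImmersion.lift (O none).ι (gU (s ⊥)) h0 ≫
        gLift (s ⊥) (O none).ι (hrk none) = 𝟙 _ := by
      rw [← cancel_mono (gU (s ⊥)), Category.assoc, gLift_fac, h1, Category.id_comp]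
    rw [h3, Category.id_comp]
  rw [← hκ ⊥, CommRingCat.ofHom_comp, Spec.map_comp, Category.assoc]
  exact (congrArg (fun c => Spec.map (CommRingCat.ofHom (κ ⊥)) ≫ c) h2).trans (hm ⊥)

end Pool.Agent.Work.MP_e97a4d_nt
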