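import Pool.Agent.Work.MP_e97a4d_nt.UP.VAlgCst
import Pool.Agent.Work.MP_e97a4d_nt.UP.VAlgGlue
import Pool.Agent.Work.MP_e97a4d_nt.UP.VClosed
import Pool.Agent.Work.MP_e97a4d_nt.SchemeLemmas

/-!
# VAlg (M-L): the algebraic end game

Let `K' = Qp k d`, `Rg = LaurentPolynomial K'` (a Dedekind domain, not a field, `VAlgLoc`), `ρ` as in
`exists_rho`, `Q' = FractionRing Rg`, `θ : Qp k (d + 1) →+* Q'` the homomorphism induced by the injective
`ρ` (`IsFractionRing.lift`), `η' = Spec.map θ ≫ η`.
Local extension of `η'` at a prime `P ≠ ⊥` of `Rg`: `exists_rho` gives `p`, prime and not associated to any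
`lincl p'`; the hypothesis `hprime` gives `b` and `φ (x l) = a l / c l` with `p ∤ c l` for all `l`. Let
`g = ∏ l, ρ (c l) ∉ P`. `θ ∘ φ b : B b → Q'` maps the generators to `ρ (a l) / ρ (c l)`, and the constants
`ψ b (r)` to constants (`hηπ` and `Spec.map_injective`), so its values are in the image of
`Localization.Away g`, and it factors through a homomorphism `B b → Localization.Away g`, which
composed with `j b` is the required extension. For `P = ⊥` use the extension for any other prime.
`exists_glue` gives `c : Spec Rg ⟶ V` with generic point `η'`. `c ≫ π` is the structure morphism, because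
this is true at the generic point and `Rg → Q'` is injective (`Spec.map_injective` after
`Spec.map_surjective`). `curve_alternative` with `L = K'` (`mk_qp_le`; algebra structure through
`F₀ → k → Lp k d → Qp k d`; if the instance is missing introduce it with `letI`):
first alternative: `η'` in `V'`; then `η` is in `V'`: in the chart `b` the ideal `I` of `V'` satisfies
`θ (φ b (I)) = 0`, so `φ b (I) = 0`; contradiction. Second alternative, for the charts `b` and
`θ ∘ φ b`: `θ (φ b x) = C κ`, `κ = a / c` with `a, c ∈ Lp k d`, and `C (a / c) = ρ (lincl a) / ρ (lincl c)`,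
so `φ b x = lincl a / lincl c` by injectivity of `θ`.
-/

set_option autoImplicit false

noncomputable section

namespace Pool.Agent.Work.MP_e97a4d_nt

open AlgebraicGeometry CategoryTheory IsDedekindDomain NumberField Pool.Agent.Work.UP

variable {F₀ : Type} [Field F₀] {V V' : Scheme.{0}}

theorem alg_main [NumberField F₀] (σ : F₀ →+* ℂ)
    (π : V ⟶ Spec (CommRingCat.of (𝓞 F₀))) (i : V' ⟶ V) [IsClosedImmersion i]
    (hGm : CondGm σ π i) (𝒜 : Atlas π) {k : Type} [Field k] [Algebra F₀ k]
    (hk : Cardinal.mk k ≤ Cardinal.continuum) {d : ℕ}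
    (η : Spec (CommRingCat.of (Qp k (d + 1))) ⟶ V)
    (hηπ : η ≫ π = Spec.map (CommRingCat.ofHom
      (strQ ((algebraMap F₀ k).comp (algebraMap (𝓞 F₀) F₀)) (d + 1))))
    (hη : ¬ ∃ p : Spec (CommRingCat.of (Qp k (d + 1))) ⟶ V', p ≫ i = η)
    (hprime : ∀ p : Lp k (d + 1), Prime p → (∃ p' : Lp k d, Associated p (lincl p')) ∨
      ∃ (b : 𝒜.β) (φ : 𝒜.B b →+* Qp k (d + 1)), spt (𝒜.j b) φ = η ∧
        ∀ l, ∃ a c : Lp k (d + 1), ¬ p ∣ c ∧ φ (𝒜.x b l) =
          algebraMap (Lp k (d + 1)) (Qp k (d + 1)) a / algebraMap (Lp k (d + 1)) (Qp k (d + 1)) c) :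
    ∀ (b : 𝒜.β) (φ : 𝒜.B b →+* Qp k (d + 1)), spt (𝒜.j b) φ = η → ∀ x : 𝒜.B b,
      ∃ a c : Lp k d, c ≠ 0 ∧ φ x = algebraMap (Lp k (d + 1)) (Qp k (d + 1)) (lincl a) /
        algebraMap (Lp k (d + 1)) (Qp k (d + 1)) (lincl c) := by
  classical
  obtain ⟨ρ, hρinj, hρl, hρP, hρf⟩ := exists_rho k d
  have hDed : IsDedekindDomain (LaurentPolynomial (Qp k d)) := laurent_dedekind (Qp k d)
  let Q' := FractionRing (LaurentPolynomial (Qp k d))
  let θ : Qp k (d + 1) →+* Q' := IsFractionRing.lift (A := Lp k (d + 1))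
    (g := (algebraMap (LaurentPolynomial (Qp k d)) Q').comp ρ)
    ((IsFractionRing.injective (LaurentPolynomial (Qp k d)) Q').comp hρinj)
  have hθ : ∀ f : Lp k (d + 1), θ (algebraMap (Lp k (d + 1)) (Qp k (d + 1)) f) =
      algebraMap (LaurentPolynomial (Qp k d)) Q' (ρ f) := fun f =>
    IsFractionRing.lift_algebraMap (A := Lp k (d + 1))
      (g := (algebraMap (LaurentPolynomial (Qp k d)) Q').comp ρ)
      ((IsFractionRing.injective (LaurentPolynomial (Qp k d)) Q').comp hρinj) f
  let algL : Algebra F₀ (Qp k d) :=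
    ((algebraMap (Lp k d) (Qp k d)).comp ((lC : k →+* Lp k d).comp (algebraMap F₀ k))).toAlgebra
  have halg : ∀ r : F₀, algebraMap F₀ (Qp k d) r =
      algebraMap (Lp k d) (Qp k d) (lC (algebraMap F₀ k r)) := fun r => rfl
  have hlC : ∀ x : k, (lincl (lC x : Lp k d) : Lp k (d + 1)) = lC x := by
    intro x
    show lincl (AddMonoidAlgebra.single 0 x : Lp k d) = AddMonoidAlgebra.single 0 x
    rw [lincl_single]
    congr 1
    funext l
    refine Fin.lastCases ?_ (fun l => ?_) l <;> simp
  -- the structure map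
  have hstr : ∀ r : 𝓞 F₀, θ (strQ ((algebraMap F₀ k).comp (algebraMap (𝓞 F₀) F₀)) (d + 1) r) =
      algebraMap (LaurentPolynomial (Qp k d)) Q'
        (LaurentPolynomial.C (algebraMap F₀ (Qp k d) (algebraMap (𝓞 F₀) F₀ r))) := by
    intro r
    show θ (algebraMap (Lp k (d + 1)) (Qp k (d + 1))
      (lC (algebraMap F₀ k (algebraMap (𝓞 F₀) F₀ r)))) = _
    rw [hθ, ← hlC, hρl, halg]
  have hchart : ∀ (b : 𝒜.β) (φ : 𝒜.B b →+* Qp k (d + 1)), spt (𝒜.j b) φ = η →
      φ.comp (𝒜.ψ b) = strQ ((algebraMap F₀ k).comp (algebraMap (𝓞 F₀) F₀)) (d + 1) := by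
    intro b φ hφ
    have h1 := hηπ
    rw [← hφ, Category.assoc, 𝒜.str b, ← Spec.map_comp] at h1
    exact congrArg CommRingCat.Hom.hom (Spec.map_injective h1)
  let η' : Spec (CommRingCat.of Q') ⟶ V := Spec.map (CommRingCat.ofHom θ) ≫ η
  -- local extension
  have hloc : ∀ P : PrimeSpectrum (LaurentPolynomial (Qp k d)), P ≠ ⊥ →
      ∃ g : LaurentPolynomial (Qp k d), g ∉ P.asIdeal ∧
        ∃ (κ : Localization.Away g →+* Q')
          (c : Spec (CommRingCat.of (Localization.Away g)) ⟶ V),
          κ.comp (algebraMap (LaurentPolynomial (Qp k d)) (Localization.Away g)) =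
            algebraMap (LaurentPolynomial (Qp k d)) Q' ∧
            Spec.map (CommRingCat.ofHom κ) ≫ c = η' := by
    intro P hP
    obtain ⟨p, hp, hnl, hpc⟩ := hρP P.asIdeal P.2 (fun h => hP (PrimeSpectrum.ext h))
    rcases hprime p hp with h | ⟨b, φ, hφ, hx⟩
    · exact absurd h hnl
    choose a c hc hac using hx
    have : Finite (𝒜.ι b) := 𝒜.finι b
    have : Fintype (𝒜.ι b) := Fintype.ofFinite _
    let g : LaurentPolynomial (Qp k d) := ∏ l, ρ (c l)
    have hg : g ∉ P.asIdeal := by
      intro hmem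
      obtain ⟨l, -, hl⟩ := (Ideal.IsPrime.prod_mem_iff (p := P.asIdeal)).1 hmem
      exact hpc (c l) (hc l) hl
    have hg0 : g ≠ 0 := fun h => hg (by rw [h]; exact zero_mem _)
    have hg0' : algebraMap (LaurentPolynomial (Qp k d)) Q' g ≠ 0 := fun h =>
      hg0 (IsFractionRing.injective (LaurentPolynomial (Qp k d)) Q' (by rw [h, map_zero]))
    let κ : Localization.Away g →+* Q' := IsLocalization.Away.lift g
      (g := algebraMap (LaurentPolynomial (Qp k d)) Q') (isUnit_iff_ne_zero.2 hg0')
    have hκ : κ.comp (algebraMap (LaurentPolynomial (Qp k d)) (Localization.Away g)) =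
        algebraMap (LaurentPolynomial (Qp k d)) Q' := IsLocalization.Away.lift_comp _ _
    have hκa : ∀ r, κ (algebraMap (LaurentPolynomial (Qp k d)) (Localization.Away g) r) =
        algebraMap (LaurentPolynomial (Qp k d)) Q' r := fun r => RingHom.congr_fun hκ r
    have hκinj : Function.Injective κ := by
      rw [injective_iff_map_eq_zero]
      intro z hz
      obtain ⟨⟨w, t⟩, hw⟩ := IsLocalization.surj (Submonoid.powers g) z
      have h1 := congrArg κ hw
      rw [map_mul, hz, zero_mul, hκa] at h1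
      have h2 : w = 0 := IsFractionRing.injective (LaurentPolynomial (Qp k d)) Q'
        (by rw [← h1, map_zero])
      have h3 : IsUnit (algebraMap (LaurentPolynomial (Qp k d)) (Localization.Away g) t) :=
        IsLocalization.map_units _ t
      have h4 : z * algebraMap (LaurentPolynomial (Qp k d)) (Localization.Away g) t = 0 := by
        rw [hw]
        show algebraMap (LaurentPolynomial (Qp k d)) (Localization.Away g) w = 0
        rw [h2, map_zero]
      exact h3.mul_left_eq_zero.1 h4
    have hmem : ∀ z : 𝒜.B b, (θ.comp φ) z ∈ κ.range := by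
      intro z
      obtain ⟨q, rfl⟩ := 𝒜.gen b z
      induction q using MvPolynomial.induction_on with
      | C r =>
        refine ⟨algebraMap _ _ (LaurentPolynomial.C (algebraMap F₀ (Qp k d)
          (algebraMap (𝓞 F₀) F₀ r))), ?_⟩
        rw [hκa, MvPolynomial.eval₂Hom_C, ← hstr r]
        show θ _ = θ (φ (𝒜.ψ b r))
        congr 1
        exact (RingHom.congr_fun (hchart b φ hφ) r).symm
      | add p q hp hq => rw [map_add, map_add]; exact add_mem hp hq
      | mul_X p l hp =>
        rw [map_mul, map_mul]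
        refine mul_mem hp ?_
        rw [MvPolynomial.eval₂Hom_X']
        obtain ⟨w, hw⟩ : ρ (c l) ∣ g := Finset.dvd_prod_of_mem (fun l => ρ (c l)) (Finset.mem_univ l)
        refine ⟨algebraMap _ _ (ρ (a l) * w) * IsLocalization.Away.invSelf g, ?_⟩
        have h1 : κ (IsLocalization.Away.invSelf g) *
            algebraMap (LaurentPolynomial (Qp k d)) Q' g = 1 := by
          rw [← hκa, ← map_mul, mul_comm, IsLocalization.Away.mul_invSelf, map_one]
        have hcl : algebraMap (LaurentPolynomial (Qp k d)) Q' (ρ (c l)) ≠ 0 := by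
          intro h
          apply hg0'
          rw [hw, map_mul, h, zero_mul]
        show κ _ = θ (φ (𝒜.x b l))
        rw [hac l, map_div₀, hθ, hθ, map_mul, hκa, eq_div_iff hcl]
        apply mul_right_cancel₀ hg0'
        calc algebraMap (LaurentPolynomial (Qp k d)) Q' (ρ (a l) * w) *
              κ (IsLocalization.Away.invSelf g) *
              algebraMap (LaurentPolynomial (Qp k d)) Q' (ρ (c l)) *
              algebraMap (LaurentPolynomial (Qp k d)) Q' g
            = algebraMap (LaurentPolynomial (Qp k d)) Q' (ρ (a l) * w) *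
              algebraMap (LaurentPolynomial (Qp k d)) Q' (ρ (c l)) *
              (κ (IsLocalization.Away.invSelf g) *
                algebraMap (LaurentPolynomial (Qp k d)) Q' g) := by ring
          _ = algebraMap (LaurentPolynomial (Qp k d)) Q' (ρ (a l)) *
              algebraMap (LaurentPolynomial (Qp k d)) Q' g := by
            rw [h1, hw, map_mul, map_mul]; ring
    let e : Localization.Away g ≃+* κ.range :=
      RingEquiv.ofBijective κ.rangeRestrict
        ⟨fun x y hxy => hκinj (congrArg Subtype.val hxy), κ.rangeRestrict_surjective⟩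
    let ω : 𝒜.B b →+* Localization.Away g :=
      (e.symm : κ.range →+* Localization.Away g).comp ((θ.comp φ).codRestrict κ.range hmem)
    have hω : κ.comp ω = θ.comp φ := by
      ext z
      have h1 : e (e.symm ((θ.comp φ).codRestrict κ.range hmem z)) =
          (θ.comp φ).codRestrict κ.range hmem z := e.apply_symm_apply _
      exact congrArg Subtype.val h1
    refine ⟨g, hg, κ, Spec.map (CommRingCat.ofHom ω) ≫ 𝒜.j b, hκ, ?_⟩
    show _ = Spec.map (CommRingCat.ofHom θ) ≫ η
    rw [← hφ, ← Category.assoc, ← Spec.map_comp, ← CommRingCat.ofHom_comp, hω,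
      CommRingCat.ofHom_comp, Spec.map_comp, Category.assoc]
  have hall : ∀ P : PrimeSpectrum (LaurentPolynomial (Qp k d)),
      ∃ g : LaurentPolynomial (Qp k d), g ∉ P.asIdeal ∧
        ∃ (κ : Localization.Away g →+* Q')
          (c : Spec (CommRingCat.of (Localization.Away g)) ⟶ V),
          κ.comp (algebraMap (LaurentPolynomial (Qp k d)) (Localization.Away g)) =
            algebraMap (LaurentPolynomial (Qp k d)) Q' ∧
            Spec.map (CommRingCat.ofHom κ) ≫ c = η' := by
    intro P
    by_cases hP : P = ⊥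
    · obtain ⟨P₁, hP₁, hP₁'⟩ := Ring.not_isField_iff_exists_prime.1 (laurent_not_field (Qp k d))
      obtain ⟨g, hg, h⟩ := hloc ⟨P₁, hP₁'⟩ (fun h => hP₁ (congrArg PrimeSpectrum.asIdeal h))
      refine ⟨g, ?_, h⟩
      rw [hP]
      intro h0
      apply hg
      have h1 : g = 0 := h0
      rw [h1]
      exact zero_mem _
    · exact hloc P hP
  obtain ⟨c, hc⟩ := exists_glue (Rg := LaurentPolynomial (Qp k d)) (Q := Q') η' hall
  have hcπ : c ≫ π = Spec.map (CommRingCat.ofHom
      ((LaurentPolynomial.C : Qp k d →+* LaurentPolynomial (Qp k d)).comp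
        ((algebraMap F₀ (Qp k d)).comp (algebraMap (𝓞 F₀) F₀)))) := by
    obtain ⟨τ, hτ⟩ := Spec.map_surjective (c ≫ π)
    have h1 : Spec.map (CommRingCat.ofHom (algebraMap (LaurentPolynomial (Qp k d)) Q')) ≫
        Spec.map τ = Spec.map (CommRingCat.ofHom (θ.comp
          (strQ ((algebraMap F₀ k).comp (algebraMap (𝓞 F₀) F₀)) (d + 1)))) := by
      rw [hτ, ← Category.assoc, hc]
      show (Spec.map (CommRingCat.ofHom θ) ≫ η) ≫ π = _
      rw [Category.assoc, hηπ, ← Spec.map_comp, ← CommRingCat.ofHom_comp]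
    rw [← Spec.map_comp] at h1
    have h2 := congrArg CommRingCat.Hom.hom (Spec.map_injective h1)
    rw [← hτ]
    congr 1
    refine CommRingCat.hom_ext (RingHom.ext fun r => ?_)
    apply IsFractionRing.injective (LaurentPolynomial (Qp k d)) Q'
    exact (RingHom.congr_fun h2 r).trans (hstr r)
  rcases curve_alternative σ π i hGm (L := Qp k d) (mk_qp_le hk d) c hcπ (Q := Q') with h | h
  · exfalso
    apply hη
    rw [hc] at h
    exact factors_of_injective i η (CommRingCat.ofHom θ) θ.injective h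
  · intro b φ hφ x
    have h1 : spt (𝒜.j b) (θ.comp φ) =
        Spec.map (CommRingCat.ofHom (algebraMap (LaurentPolynomial (Qp k d)) Q')) ≫ c := by
      rw [hc]
      show Spec.map (CommRingCat.ofHom (θ.comp φ)) ≫ 𝒜.j b = Spec.map (CommRingCat.ofHom θ) ≫ η
      rw [← hφ, CommRingCat.ofHom_comp, Spec.map_comp, Category.assoc]
    obtain ⟨κ, hκ⟩ := h (𝒜.B b) (𝒜.j b) (𝒜.oi b) (θ.comp φ) h1 x
    obtain ⟨a, m, hm, rfl⟩ := IsFractionRing.div_surjective (A := Lp k d) κ
    have hm0 : m ≠ 0 := nonZeroDivisors.ne_zero hm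
    refine ⟨a, m, hm0, θ.injective ?_⟩
    have hκ' : θ (φ x) = algebraMap (LaurentPolynomial (Qp k d)) Q' (LaurentPolynomial.C
        (algebraMap (Lp k d) (Qp k d) a / algebraMap (Lp k d) (Qp k d) m)) := hκ
    rw [hκ', map_div₀ θ, hθ, hθ, hρl, hρl]
    have hm1 : algebraMap (Lp k d) (Qp k d) m ≠ 0 := fun h0 =>
      hm0 (IsFractionRing.injective (Lp k d) (Qp k d) (by rw [h0, map_zero]))
    have hm2 : algebraMap (LaurentPolynomial (Qp k d)) Q'
        (LaurentPolynomial.C (algebraMap (Lp k d) (Qp k d) m)) ≠ 0 := by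
      intro h0
      apply hm1
      have h2 : LaurentPolynomial.C (algebraMap (Lp k d) (Qp k d) m) = 0 :=
        IsFractionRing.injective (LaurentPolynomial (Qp k d)) Q' (by rw [h0, map_zero])
      exact (LaurentPolynomial.C : Qp k d →+* LaurentPolynomial (Qp k d)).injective
        (by rw [h2, map_zero])
    rw [eq_div_iff hm2, ← map_mul, ← map_mul, div_mul_cancel₀ _ hm1]

end Pool.Agent.Work.MP_e97a4d_nt
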