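import Pool.Agent.Work.UP.LDefs

/-!
# VAlgEmb (M): embedding function fields into the complex numbers

`exists_emb`: `F₀` is countable (number field), so a transcendence basis `s` of `ℂ` over `F₀` (via `σ`) has
cardinality continuum (`ℂ` is algebraic over `F₀(s)`, whose cardinality is `max ℵ₀ (#s)`; Mathlib:
`IsAlgClosed.cardinal_le_max_transcendence_basis` and similar). Let `t` be a transcendence basis of `L`
over `F₀`; `#t ≤ #L ≤ continuum`, so there is an injection `t → s`, so an `F₀`-homomorphism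
`F₀(t) → ℂ` (`IntermediateField.adjoin`, `AlgebraicIndependent` elements: `MvPolynomial t F₀` injects
into `ℂ`, extend to the fraction field); `L` is algebraic over `F₀(t)` and `ℂ` is algebraically
closed: `IsAlgClosed.lift`.
`mk_qp_le`: `Lp k d` is a set of finitely supported functions on a countable set with values in `k`
(`Cardinal.mk_finsupp_le_max` or similar), the fraction field is a quotient of a subset of the
square.
-/

set_option autoImplicit false

noncomputable section

namespace Pool.Agent.Work.UP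

theorem exists_emb {F₀ : Type} [Field F₀] [NumberField F₀] (σ : F₀ →+* ℂ) {L : Type} [Field L]
    [Algebra F₀ L] (hL : Cardinal.mk L ≤ Cardinal.continuum) :
    ∃ ε : L →+* ℂ, ε.comp (algebraMap F₀ L) = σ := by
  letI : Algebra F₀ ℂ := σ.toAlgebra
  obtain ⟨s, hs⟩ := exists_isTranscendenceBasis F₀ ℂ
  obtain ⟨t, ht⟩ := exists_isTranscendenceBasis F₀ L
  have hF : Cardinal.mk F₀ ≤ Cardinal.aleph0 := by
    have h1 := Algebra.IsAlgebraic.cardinalMk_le_max ℚ F₀
    simpa using h1
  have hC : Cardinal.aleph0 < Cardinal.mk ℂ := by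
    rw [Cardinal.mk_complex]
    exact Cardinal.aleph0_lt_continuum
  have hCs := IsAlgClosed.cardinal_eq_cardinal_transcendence_basis_of_aleph0_lt' _ hs hF hC
  have hts : Cardinal.mk t ≤ Cardinal.mk s := by
    rw [← hCs, Cardinal.mk_complex]
    exact (Cardinal.mk_subtype_le _).trans hL
  obtain ⟨f⟩ := Cardinal.le_def _ _ |>.mp hts
  set g : Algebra.adjoin F₀ (Set.range ((↑) : t → L)) →ₐ[F₀] ℂ :=
    (MvPolynomial.aeval (fun i : t => ((f i : s) : ℂ))).comp
      (ht.1.aevalEquiv.symm : _ →ₐ[F₀] MvPolynomial t F₀) with hg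
  have hginj : Function.Injective g := by
    have h1 : AlgebraicIndependent F₀ (fun i : t => ((f i : s) : ℂ)) :=
      hs.1.comp f f.injective
    have h2 : Function.Injective (MvPolynomial.aeval (fun i : t => ((f i : s) : ℂ)) :
      MvPolynomial t F₀ →ₐ[F₀] ℂ) := h1
    have h3 : (g : _ → ℂ) = (MvPolynomial.aeval (fun i : t => ((f i : s) : ℂ)) :
      MvPolynomial t F₀ →ₐ[F₀] ℂ) ∘ ht.1.aevalEquiv.symm := rfl
    rw [h3]
    exact h2.comp ht.1.aevalEquiv.symm.injective
  letI : Algebra (Algebra.adjoin F₀ (Set.range ((↑) : t → L))) ℂ := g.toRingHom.toAlgebra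
  haveI : FaithfulSMul (Algebra.adjoin F₀ (Set.range ((↑) : t → L))) ℂ :=
    (faithfulSMul_iff_algebraMap_injective _ _).mpr hginj
  haveI : Algebra.IsAlgebraic (Algebra.adjoin F₀ (Set.range ((↑) : t → L))) L := ht.isAlgebraic
  refine ⟨(IsAlgClosed.lift : L →ₐ[Algebra.adjoin F₀ (Set.range ((↑) : t → L))] ℂ).toRingHom, ?_⟩
  ext x
  have h1 : algebraMap F₀ L x = algebraMap (Algebra.adjoin F₀ (Set.range ((↑) : t → L))) L
      (algebraMap F₀ _ x) := rfl
  rw [RingHom.comp_apply, h1]
  have h2 := AlgHom.commutes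
    (IsAlgClosed.lift : L →ₐ[Algebra.adjoin F₀ (Set.range ((↑) : t → L))] ℂ)
    (algebraMap F₀ _ x)
  refine h2.trans ?_
  exact g.commutes x

theorem mk_qp_le {k : Type} [Field k] (hk : Cardinal.mk k ≤ Cardinal.continuum) (d : ℕ) :
    Cardinal.mk (Qp k d) ≤ Cardinal.continuum := by
  rw [Cardinal.mk_fractionRing]
  rw [Cardinal.mk_congr (AddMonoidAlgebra.coeffEquiv (R := k) (M := Fin d → ℤ))]
  have h1 : Cardinal.mk (Fin d → ℤ) ≤ Cardinal.aleph0 := Cardinal.mk_le_aleph0
  rcases finite_or_infinite (Fin d → ℤ) with h | h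
  · haveI := Fintype.ofFinite (Fin d → ℤ)
    rw [Cardinal.mk_finsupp_of_fintype]
    calc Cardinal.mk k ^ Fintype.card (Fin d → ℤ)
        ≤ Cardinal.continuum ^ Fintype.card (Fin d → ℤ) := by gcongr
      _ ≤ Cardinal.continuum := by
        exact_mod_cast Cardinal.power_nat_le Cardinal.aleph0_le_continuum
  · rw [Cardinal.mk_finsupp_of_infinite]
    exact max_le (h1.trans Cardinal.aleph0_le_continuum) hk

end Pool.Agent.Work.UP
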