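import Pool.Agent.Work.UP.LUfd

/-!
# VAlgLoc (M): Laurent polynomials in one variable over the function field

`ρ (single s a) = C (single (s ∘ castSucc) a) * T (s last)` (a ring homomorphism by
`AddMonoidAlgebra.liftNCRingHom`; `C` also stands for the image in `Qp k d`). Injective: the
coefficient of `ρ f` at `n` is the (injective) image of the part of `f` with last exponent `n`.
Last statement: `f` has finitely many coefficients in the fraction field `Qp k d`; let `h` be a
common denominator. So `LaurentPolynomial (Qp k d)` is the localization of `Lp k (d + 1)` (via `ρ`) at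
`M = {lincl h | h ≠ 0}`.
Primes: let `P ≠ ⊥` be prime, `𝔮` its preimage in `Lp k (d + 1)`, a nonzero prime ideal disjoint from
`M`. `Lp k (d + 1)` is a UFD (`lp_ufd`), so `𝔮` contains a prime element `p`
(`Ideal.IsPrime.exists_mem_prime_of_ne_bot` or similar). `p` is not associated to `lincl p'` (this
would be in `M ∩ 𝔮`; `p' ≠ 0`). Claim `𝔮 = (p)`, which gives the assertion: `(ρ p)` is a nonzero prime
ideal of the localization (`IsLocalization.isPrime_of_isPrime_disjoint`; `(p)` is
disjoint from `M` because `(p) ≤ 𝔮`), contained in `P`; the ring `LaurentPolynomial` over a field is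
a principal ideal domain (localization of `K[X]`; or: every element is a monomial times
a polynomial), so nonzero primes are maximal and `(ρ p) = P`; and `𝔮 = (p)` because the preimage of
the extension of a prime disjoint from `M` is the prime itself
(`IsLocalization.comap_map_of_isPrime_disjoint`).
`laurent_dedekind`: localization of the Dedekind domain `L[X]` at the powers of `X`
(`LaurentPolynomial` has `IsLocalization.Away X` in Mathlib;
`IsLocalization.isDedekindDomain`).
-/

set_option autoImplicit false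

noncomputable section

namespace Pool.Agent.Work.UP

private theorem laurent_isDomain (L : Type) [Field L] : IsDomain (LaurentPolynomial L) := by
  haveI : NoZeroDivisors (LaurentPolynomial L) := inferInstance
  haveI : Nontrivial (LaurentPolynomial L) := inferInstance
  exact NoZeroDivisors.to_isDomain _

theorem laurent_dedekind (L : Type) [Field L] : IsDedekindDomain (LaurentPolynomial L) := by
  haveI := laurent_isDomain L
  exact IsLocalization.isDedekindDomain (Polynomial L)
    (M := Submonoid.powers (Polynomial.X : Polynomial L))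
    (powers_le_nonZeroDivisors_of_noZeroDivisors Polynomial.X_ne_zero) (LaurentPolynomial L)

theorem laurent_not_field (L : Type) [Field L] : ¬ IsField (LaurentPolynomial L) := by
  intro h
  have hne : (LaurentPolynomial.T 1 + 1 : LaurentPolynomial L) ≠ 0 := by
    intro h0
    have h3 : (1 : LaurentPolynomial L) = AddMonoidAlgebra.single 0 1 := rfl
    have h4 : (LaurentPolynomial.T 1 : LaurentPolynomial L) = AddMonoidAlgebra.single 1 1 := rfl
    rw [h3, h4] at h0
    have h5 : (AddMonoidAlgebra.single (1 : ℤ) (1 : L) : AddMonoidAlgebra L ℤ) =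
        - AddMonoidAlgebra.single (0 : ℤ) (1 : L) := eq_neg_of_add_eq_zero_left h0
    have h2 := congrArg (fun f : AddMonoidAlgebra L ℤ => f.coeff 1) h5
    simp only [AddMonoidAlgebra.coeff_single, AddMonoidAlgebra.coeff_neg, Finsupp.single_eq_same,
      Finsupp.neg_apply] at h2
    rw [Finsupp.single_eq_of_ne (by norm_num)] at h2
    simp at h2
  obtain ⟨g, hg⟩ := h.mul_inv_cancel hne
  have h1 := congrArg (LaurentPolynomial.eval₂ (RingHom.id L) (-1 : Lˣ)) hg
  rw [map_mul, map_add, LaurentPolynomial.eval₂_T, map_one] at h1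
  simp at h1

/-- splitting off the last exponent -/
private def splitL (d : ℕ) : (Fin (d + 1) → ℤ) ≃+ ℤ × (Fin d → ℤ) where
  toFun s := (s (Fin.last d), fun i => s i.castSucc)
  invFun x := Fin.snoc x.2 x.1
  left_inv s := by
    funext i
    refine Fin.lastCases ?_ (fun i => ?_) i <;> simp
  right_inv x := by
    ext i <;> simp
  map_add' s t := rfl

private def rhoD (k : Type) [Field k] (d : ℕ) : Lp k (d + 1) →+* LaurentPolynomial (Qp k d) :=
  ((AddMonoidAlgebra.mapRingHom ℤ (algebraMap (Lp k d) (Qp k d))).comp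
    (AddMonoidAlgebra.curryRingEquiv (R := k) (M := ℤ) (N := Fin d → ℤ)).toRingHom).comp
      (AddMonoidAlgebra.domCongr k k (splitL d)).toRingEquiv.toRingHom

private theorem rhoD_single {k : Type} [Field k] {d : ℕ} (s : Fin (d + 1) → ℤ) (a : k) :
    rhoD k d (AddMonoidAlgebra.single s a) = AddMonoidAlgebra.single (s (Fin.last d))
      (algebraMap (Lp k d) (Qp k d) (AddMonoidAlgebra.single (fun i => s i.castSucc) a)) := by
  have h1 : AddMonoidAlgebra.domCongr k k (splitL d) (AddMonoidAlgebra.single s a) =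
      AddMonoidAlgebra.single (splitL d s) a := AddMonoidAlgebra.domCongr_single _ _ _
  show (AddMonoidAlgebra.mapRingHom ℤ (algebraMap (Lp k d) (Qp k d)))
    (AddMonoidAlgebra.curryRingEquiv (AddMonoidAlgebra.domCongr k k (splitL d)
      (AddMonoidAlgebra.single s a))) = _
  rw [h1, AddMonoidAlgebra.curryRingEquiv_single, AddMonoidAlgebra.mapRingHom_single]
  rfl

private theorem rhoD_inj (k : Type) [Field k] (d : ℕ) : Function.Injective (rhoD k d) := by
  have h1 : Function.Injective (AddMonoidAlgebra.mapRingHom ℤ (algebraMap (Lp k d) (Qp k d))) := by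
    intro x y hxy
    apply AddMonoidAlgebra.ext
    ext n : 1
    have h2 := congrArg (fun f : AddMonoidAlgebra (Qp k d) ℤ => f.coeff n) hxy
    simp at h2
    exact h2
  unfold rhoD
  rw [RingHom.coe_comp, RingHom.coe_comp]
  exact (h1.comp (RingEquiv.injective _)).comp (RingEquiv.injective _)

private theorem rhoD_lincl {k : Type} [Field k] {d : ℕ} (f : Lp k d) :
    rhoD k d (lincl f) = LaurentPolynomial.C (algebraMap (Lp k d) (Qp k d) f) := by
  have h : (rhoD k d).comp lincl =
      (LaurentPolynomial.C : Qp k d →+* LaurentPolynomial (Qp k d)).comp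
        (algebraMap (Lp k d) (Qp k d)) := by
    apply lp_hom_ext
    intro s a
    rw [RingHom.comp_apply, lincl_single, rhoD_single, RingHom.comp_apply]
    simp
  exact RingHom.congr_fun h f

private theorem rhoD_surj {k : Type} [Field k] {d : ℕ} (f : LaurentPolynomial (Qp k d)) :
    ∃ (g : Lp k (d + 1)) (h : Lp k d), h ≠ 0 ∧
      f * LaurentPolynomial.C (algebraMap (Lp k d) (Qp k d) h) = rhoD k d g := by
  induction f using LaurentPolynomial.induction_on' with
  | add p q hp hq =>
    obtain ⟨g1, h1, h1n, e1⟩ := hp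
    obtain ⟨g2, h2, h2n, e2⟩ := hq
    refine ⟨g1 * lincl h2 + g2 * lincl h1, h1 * h2, mul_ne_zero h1n h2n, ?_⟩
    have e3 : rhoD k d (g1 * lincl h2 + g2 * lincl h1) =
        rhoD k d g1 * rhoD k d (lincl h2) + rhoD k d g2 * rhoD k d (lincl h1) := by
      rw [map_add, map_mul, map_mul]
    rw [e3, rhoD_lincl, rhoD_lincl, ← e1, ← e2, map_mul, map_mul]
    ring
  | C_mul_T n a =>
    obtain ⟨x, y, hy, rfl⟩ := IsFractionRing.div_surjective (A := Lp k d) a
    have hy0 : y ≠ 0 := nonZeroDivisors.ne_zero hy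
    have hy1 : algebraMap (Lp k d) (Qp k d) y ≠ 0 :=
      (map_ne_zero_iff _ (IsFractionRing.injective _ _)).mpr hy0
    refine ⟨lincl x * AddMonoidAlgebra.single (Fin.snoc 0 n) 1, y, hy0, ?_⟩
    rw [map_mul, rhoD_lincl, rhoD_single]
    have h3 : (AddMonoidAlgebra.single ((Fin.snoc (0 : Fin d → ℤ) n : Fin (d + 1) → ℤ) (Fin.last d))
        (algebraMap (Lp k d) (Qp k d) (AddMonoidAlgebra.single
          (fun i => (Fin.snoc (0 : Fin d → ℤ) n : Fin (d + 1) → ℤ) i.castSucc) 1)) :
            LaurentPolynomial (Qp k d)) = LaurentPolynomial.T n := by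
      have h4 : (fun i : Fin d => (Fin.snoc (0 : Fin d → ℤ) n : Fin (d + 1) → ℤ) i.castSucc) = 0 := by
        funext i; simp
      rw [h4, Fin.snoc_last]
      have h5 : (AddMonoidAlgebra.single (0 : Fin d → ℤ) (1 : k)) = (1 : Lp k d) := rfl
      rw [h5, map_one]
      rfl
    rw [h3, mul_right_comm, ← map_mul, div_mul_cancel₀ _ hy1]

theorem exists_rho (k : Type) [Field k] (d : ℕ) :
    ∃ ρ : Lp k (d + 1) →+* LaurentPolynomial (Qp k d), Function.Injective ρ ∧
      (∀ f : Lp k d, ρ (lincl f) = LaurentPolynomial.C (algebraMap (Lp k d) (Qp k d) f)) ∧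
      (∀ P : Ideal (LaurentPolynomial (Qp k d)), P.IsPrime → P ≠ ⊥ →
        ∃ p : Lp k (d + 1), Prime p ∧ (¬ ∃ p' : Lp k d, Associated p (lincl p')) ∧
          ∀ c, ¬ p ∣ c → ρ c ∉ P) ∧
      ∀ f : LaurentPolynomial (Qp k d), ∃ (g : Lp k (d + 1)) (h : Lp k d), h ≠ 0 ∧
        f * LaurentPolynomial.C (algebraMap (Lp k d) (Qp k d) h) = ρ g := by
  refine ⟨rhoD k d, rhoD_inj k d, rhoD_lincl, ?_, rhoD_surj⟩
  intro P hP hPne
  haveI := hP
  haveI := laurent_isDomain (Qp k d)
  haveI := laurent_dedekind (Qp k d)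
  haveI := lp_ufd k (d + 1)
  -- constants are units
  have hunit : ∀ h : Lp k d, h ≠ 0 →
      IsUnit (LaurentPolynomial.C (algebraMap (Lp k d) (Qp k d) h) :
        LaurentPolynomial (Qp k d)) := by
    intro h hh
    have h1 : algebraMap (Lp k d) (Qp k d) h ≠ 0 :=
      (map_ne_zero_iff _ (IsFractionRing.injective _ _)).mpr hh
    exact (IsUnit.mk0 _ h1).map LaurentPolynomial.C
  have hlinj : Function.Injective (lincl : Lp k d →+* Lp k (d + 1)) := by
    intro x y hxy
    have h1 := congrArg (rhoD k d) hxy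
    rw [rhoD_lincl, rhoD_lincl] at h1
    have h2 : Function.Injective
        (LaurentPolynomial.C : Qp k d →+* LaurentPolynomial (Qp k d)) := RingHom.injective _
    exact IsFractionRing.injective (Lp k d) (Qp k d) (h2 h1)
  -- the preimage
  set 𝔮 : Ideal (Lp k (d + 1)) := P.comap (rhoD k d) with h𝔮
  haveI : 𝔮.IsPrime := Ideal.IsPrime.comap _
  have h𝔮ne : 𝔮 ≠ ⊥ := by
    obtain ⟨f, hfP, hf0⟩ := Submodule.exists_mem_ne_zero_of_ne_bot hPne
    obtain ⟨g, h, hh, hg⟩ := rhoD_surj f
    have hgne : g ≠ 0 := by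
      rintro rfl
      rw [map_zero] at hg
      rcases mul_eq_zero.mp hg with h1 | h1
      · exact hf0 h1
      · exact (hunit h hh).ne_zero h1
    have hgm : g ∈ 𝔮 := by
      rw [h𝔮, Ideal.mem_comap, ← hg]
      exact P.mul_mem_right _ hfP
    intro hbot
    rw [hbot] at hgm
    exact hgne ((Submodule.mem_bot _).mp hgm)
  obtain ⟨p, hpm, hp⟩ := Ideal.IsPrime.exists_mem_prime_of_ne_bot (I := 𝔮) inferInstance h𝔮ne
  have hdis : ∀ h : Lp k d, h ≠ 0 → lincl h ∉ 𝔮 := by
    intro h hh hm
    rw [h𝔮, Ideal.mem_comap, rhoD_lincl] at hm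
    exact hP.ne_top (Ideal.eq_top_of_isUnit_mem _ hm (hunit h hh))
  refine ⟨p, hp, ?_, ?_⟩
  · rintro ⟨p', hp'⟩
    have hp'0 : p' ≠ 0 := by
      rintro rfl
      rw [map_zero] at hp'
      exact hp.ne_zero (hp'.eq_zero_iff.mpr rfl)
    apply hdis p' hp'0
    exact Ideal.mem_of_dvd _ hp'.dvd hpm
  · intro c hc hcP
    apply hc
    -- localization
    letI : Algebra (Lp k (d + 1)) (LaurentPolynomial (Qp k d)) := (rhoD k d).toAlgebra
    let M : Submonoid (Lp k (d + 1)) := (nonZeroDivisors (Lp k d)).map (lincl : Lp k d →+* Lp k (d + 1))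
    have hloc : IsLocalization M (LaurentPolynomial (Qp k d)) := by
      refine ⟨⟨?_, ?_, ?_⟩⟩
      · rintro ⟨_, h, hh, rfl⟩
        have h1 := hunit h (nonZeroDivisors.ne_zero hh)
        rw [← rhoD_lincl] at h1
        exact h1
      · intro f
        obtain ⟨g, h, hh, hg⟩ := rhoD_surj f
        refine ⟨⟨g, ⟨lincl h, ⟨h, mem_nonZeroDivisors_of_ne_zero hh, rfl⟩⟩⟩, ?_⟩
        show f * rhoD k d (lincl h) = rhoD k d g
        rw [rhoD_lincl, hg]
      · intro x y hxy
        refine ⟨1, ?_⟩
        have : x = y := rhoD_inj k d hxy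
        rw [this]
    haveI := hloc
    have hIp : (Ideal.span {p} : Ideal (Lp k (d + 1))).IsPrime :=
      (Ideal.span_singleton_prime hp.ne_zero).mpr hp
    have hle : Ideal.span {p} ≤ 𝔮 := by
      rw [Ideal.span_le]; simpa using hpm
    have hdisj : Disjoint (M : Set (Lp k (d + 1))) (Ideal.span {p} : Ideal (Lp k (d + 1))) := by
      rw [Set.disjoint_left]
      rintro _ ⟨h, hh, rfl⟩ hm
      exact hdis h (nonZeroDivisors.ne_zero hh) (hle hm)
    have hprime : (Ideal.map (algebraMap (Lp k (d + 1)) (LaurentPolynomial (Qp k d)))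
        (Ideal.span {p})).IsPrime :=
      IsLocalization.isPrime_of_isPrime_disjoint M _ _ hIp hdisj
    have hne : (Ideal.map (algebraMap (Lp k (d + 1)) (LaurentPolynomial (Qp k d)))
        (Ideal.span {p})) ≠ ⊥ := by
      rw [Ideal.map_span, Set.image_singleton]
      intro h0
      rw [Ideal.span_singleton_eq_bot] at h0
      exact hp.ne_zero (rhoD_inj k d (by rw [map_zero]; exact h0))
    have hmax := hprime.isMaximal hne
    have hleP : (Ideal.map (algebraMap (Lp k (d + 1)) (LaurentPolynomial (Qp k d)))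
        (Ideal.span {p})) ≤ P := by
      rw [Ideal.map_le_iff_le_comap]
      exact hle
    have heq := hmax.eq_of_le hP.ne_top hleP
    have hc2 : c ∈ Ideal.under (Lp k (d + 1))
        (Ideal.map (algebraMap (Lp k (d + 1)) (LaurentPolynomial (Qp k d))) (Ideal.span {p})) := by
      rw [heq]
      exact hcP
    rw [IsLocalization.under_map_of_isPrime_disjoint M _ hIp hdisj] at hc2
    exact Ideal.mem_span_singleton.mp hc2

end Pool.Agent.Work.UP
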