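import Pool.Agent.Work.MP_e97a4d_nt.UP.Defs
import Pool.Agent.Work.MP_e97a4d_nt.UP.VAlgEmb
import Pool.Agent.Work.MP_e97a4d_nt.UP.VAlgLoc
import Pool.Agent.Work.MP_e97a4d_nt.Charts

/-!
# VAlgCst (M-L): a morphism from the multiplicative group over a field is constant or in `V'`

Let `ε : L →+* ℂ` be an embedding over `σ` (`exists_emb`) and `cC : Gm ⟶ V` the composition of `c` with
`Spec.map` of the map `LaurentPolynomial L → LaurentPolynomial ℂ` induced by `ε`
(`AddMonoidAlgebra.mapRingHom`, injective). It satisfies `cC ≫ π = GmStr ≫ specσ σ`.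
Local description: let `(B, j, φ)` be an open chart with `spt j φ = η := Spec.map (algebraMap) ≫ c`.
The preimage of the range of `j` under `c` is open and contains the generic point, so it contains
`D(f)` for some `f ≠ 0`, and `c` on `D(f)` is given by `θ : B →+* Localization.Away f`
(`IsOpenImmersion.lift`, `Spec.map_surjective`), with `φ = (Away f → Q) ∘ θ` (`j` is a monomorphism). For
`u : ℂˣ` with `(ε f) (u) ≠ 0`: `GmPt u ≫ cC = spt j (P u)` with `P u (x) = (ε a) (u) / (ε f) (u) ^ n` if
`θ x = a / f ^ n`. A nonzero Laurent polynomial over `ℂ` has finitely many zeros.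
Case 1: `GmPt u ≫ cC` is the same for all `u`. Then `P u` is independent of `u` (where defined), so for
`x ∈ B`, `θ x = a / f ^ n`: there is `λ ∈ ℂ` with `ε a = λ ε (f ^ n)` (difference has infinitely many
zeros). Some coefficient of `f ^ n` is nonzero, so `λ = ε κ` with `κ ∈ L` the quotient of the
coefficients of `a` and `f ^ n`, and `a = κ f ^ n` by injectivity: `φ x = κ`.
Case 2: otherwise `CondGm` shows that all `GmPt u ≫ cC` are in `V'`. Take a chart `(B, j, φ)` at the
generic point (an affine open around the image of `η`; `exists_chart_data` or directly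
`exists_isAffineOpen_mem_and_subset`), and the ideal `I` of `exists_ideal_chart i j`. If `x ∈ I` and
`φ x ≠ 0`, `θ x = a / f ^ n` with `a ≠ 0`, choose `u` with `(ε a)(u) ≠ 0`, `(ε f) (u) ≠ 0`:
`P u (x) ≠ 0`, contradiction to `GmPt u ≫ cC ∈ V'`. So `φ` vanishes on `I` and `η` is in `V'`.
-/

set_option autoImplicit false

noncomputable section

namespace Pool.Agent.Work.MP_e97a4d_nt

open AlgebraicGeometry CategoryTheory IsDedekindDomain NumberField Pool.Agent.Work.UP

variable {F₀ : Type} [Field F₀] {V V' : Scheme.{0}}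

/-- A nonzero Laurent polynomial over the complex numbers has a value that is not zero. -/
private theorem exists_good (f : LaurentPolynomial ℂ) (hf : f ≠ 0) : ∃ u : ℂˣ, evL u f ≠ 0 := by
  by_contra hcon
  push Not at hcon
  have h1 := laurent_finite_roots f hf
  have h2 : {m : ℕ | LaurentPolynomial.eval₂ (RingHom.id ℂ) (twoU ℂ ^ m) f = 0} = Set.univ := by
    ext m
    simp only [Set.mem_ofPred_eq, Set.mem_univ, iff_true]
    exact hcon (twoU ℂ ^ m)
  rw [h2] at h1
  exact Set.infinite_univ h1

/-- A chart at the generic point of a curve. -/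
private theorem chart_at {R : Type} [CommRing R] (c : Spec (CommRingCat.of R) ⟶ V)
    {Q : Type} [Field Q] (g : R →+* Q) (hg : Function.Injective g)
    (B : CommRingCat.{0}) (j : Spec B ⟶ V) [IsOpenImmersion j] (φ : B →+* Q)
    (h : spt j φ = Spec.map (CommRingCat.ofHom g) ≫ c) :
    ∃ (f : R) (θ : B →+* Localization.Away f), f ≠ 0 ∧
      Spec.map (CommRingCat.ofHom θ) ≫ j =
        Spec.map (CommRingCat.ofHom (algebraMap R (Localization.Away f))) ≫ c := by
  let p : PrimeSpectrum R := PrimeSpectrum.comap g ⊥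
  have hpU : c p ∈ j.opensRange := by
    refine ⟨PrimeSpectrum.comap φ ⊥, ?_⟩
    have h1 := congrArg (fun F : Spec (CommRingCat.of Q) ⟶ V => F (⊥ : PrimeSpectrum Q)) h
    exact h1
  have h1 : p ∈ (c ⁻¹ᵁ j.opensRange : (Spec (CommRingCat.of R)).Opens) := hpU
  obtain ⟨_, ⟨b, rfl⟩, hpb, hbU⟩ := PrimeSpectrum.isTopologicalBasis_basic_opens.exists_subset_of_mem_open
    h1 (c ⁻¹ᵁ j.opensRange).isOpen
  have hgb : g b ≠ 0 := by
    intro h
    exact hpb (by
      show g b ∈ (⊥ : Ideal Q)
      rw [h]; exact zero_mem _)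
  have hq : Set.range (Spec.map (CommRingCat.ofHom (algebraMap R (Localization.Away b))) ≫ c) ⊆
      Set.range j := by
    rintro _ ⟨y, rfl⟩
    have h2 : Spec.map (CommRingCat.ofHom (algebraMap R (Localization.Away b))) y ∈
        (PrimeSpectrum.basicOpen b : Set (PrimeSpectrum R)) := by
      intro (h : algebraMap R (Localization.Away b) b ∈ y.asIdeal)
      exact y.2.ne_top (Ideal.eq_top_of_isUnit_mem _ h
        (IsLocalization.map_units (Localization.Away b)
          (⟨b, Submonoid.mem_powers b⟩ : Submonoid.powers b)))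
    exact hbU h2
  obtain ⟨θ, hθ⟩ := Spec.map_surjective (IsOpenImmersion.lift j _ hq)
  refine ⟨b, θ.hom, fun hb => hgb (by rw [hb, map_zero]), ?_⟩
  have h3 : CommRingCat.ofHom θ.hom = θ := rfl
  rw [h3, hθ, IsOpenImmersion.lift_fac]

/-- The points of the curve in the chart. -/
private theorem point_at {R : Type} [CommRing R] (c : Spec (CommRingCat.of R) ⟶ V)
    (B : CommRingCat.{0}) (j : Spec B ⟶ V) (f : R) (θ : B →+* Localization.Away f)
    (h : Spec.map (CommRingCat.ofHom θ) ≫ j =
        Spec.map (CommRingCat.ofHom (algebraMap R (Localization.Away f))) ≫ c)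
    {k : Type} [Field k] (χ : R →+* k) (hχ : χ f ≠ 0) :
    ∃ P : B →+* k, Spec.map (CommRingCat.ofHom χ) ≫ c = spt j P ∧
      ∀ (x : B) (a : R) (n : ℕ), θ x * algebraMap R _ (f ^ n) = algebraMap R _ a →
        P x * χ f ^ n = χ a := by
  set χ' : Localization.Away f →+* k :=
    IsLocalization.Away.lift f (g := χ) (isUnit_iff_ne_zero.2 hχ) with hχ'
  have h1 : χ'.comp (algebraMap R (Localization.Away f)) = χ := IsLocalization.Away.lift_comp _ _
  refine ⟨χ'.comp θ, ?_, ?_⟩
  · have h2 : Spec.map (CommRingCat.ofHom χ) =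
        Spec.map (CommRingCat.ofHom χ') ≫
          Spec.map (CommRingCat.ofHom (algebraMap R (Localization.Away f))) := by
      rw [← Spec.map_comp, ← CommRingCat.ofHom_comp, h1]
    have h3 : spt j (χ'.comp θ) = Spec.map (CommRingCat.ofHom χ') ≫
        Spec.map (CommRingCat.ofHom θ) ≫ j := by
      unfold spt
      rw [CommRingCat.ofHom_comp, Spec.map_comp, Category.assoc]
    rw [h2, h3, Category.assoc, h]
  · intro x a n hx
    have h2 := congrArg χ' hx
    rw [map_mul] at h2
    have h3 : ∀ r, χ' (algebraMap R (Localization.Away f) r) = χ r := fun r =>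
      RingHom.congr_fun h1 r
    rw [h3, h3, map_pow] at h2
    exact h2

private theorem exists_num {R : Type} [CommRing R] (f : R) (y : Localization.Away f) :
    ∃ (a : R) (n : ℕ), y * algebraMap R _ (f ^ n) = algebraMap R _ a := by
  obtain ⟨⟨a, s⟩, h⟩ := IsLocalization.surj (Submonoid.powers f) y
  obtain ⟨n, hn⟩ := s.2
  refine ⟨a, n, ?_⟩
  rw [← h]
  congr 2

theorem curve_alternative [NumberField F₀] (σ : F₀ →+* ℂ)
    (π : V ⟶ Spec (CommRingCat.of (𝓞 F₀))) (i : V' ⟶ V) [IsClosedImmersion i]
    (hGm : CondGm σ π i) {L : Type} [Field L] [Algebra F₀ L]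
    (hL : Cardinal.mk L ≤ Cardinal.continuum)
    (c : Spec (CommRingCat.of (LaurentPolynomial L)) ⟶ V)
    (hc : c ≫ π = Spec.map (CommRingCat.ofHom
      ((LaurentPolynomial.C : L →+* LaurentPolynomial L).comp
        ((algebraMap F₀ L).comp (algebraMap (𝓞 F₀) F₀)))))
    {Q : Type} [Field Q] [Algebra (LaurentPolynomial L) Q]
    [IsFractionRing (LaurentPolynomial L) Q] :
    (∃ p : Spec (CommRingCat.of Q) ⟶ V',
      p ≫ i = Spec.map (CommRingCat.ofHom (algebraMap (LaurentPolynomial L) Q)) ≫ c) ∨
    ∀ (B : CommRingCat.{0}) (j : Spec B ⟶ V) (_ : IsOpenImmersion j) (φ : B →+* Q),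
      spt j φ = Spec.map (CommRingCat.ofHom (algebraMap (LaurentPolynomial L) Q)) ≫ c →
      ∀ x : B, ∃ κ : L, φ x = algebraMap (LaurentPolynomial L) Q (LaurentPolynomial.C κ) := by
  classical
  obtain ⟨ε, hε⟩ := exists_emb σ hL
  have hεi : Function.Injective ε := ε.injective
  set m : LaurentPolynomial L →+* LaurentPolynomial ℂ := AddMonoidAlgebra.mapRingHom ℤ ε with hm
  have hmi : Function.Injective m := mapRingHom_injective' ε hεi
  have hmC : ∀ a : L, m (LaurentPolynomial.C a) = LaurentPolynomial.C (ε a) := by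
    intro a
    exact AddMonoidAlgebra.mapRingHom_single ..
  have hQi : Function.Injective (algebraMap (LaurentPolynomial L) Q) :=
    IsFractionRing.injective _ _
  set cC : Gm ⟶ V := Spec.map (CommRingCat.ofHom m) ≫ c with hcC
  have hcC1 : cC ≫ π = GmStr ≫ specσ σ := by
    rw [hcC, Category.assoc, hc, ← Spec.map_comp, ← CommRingCat.ofHom_comp]
    unfold GmStr specσ
    rw [← Spec.map_comp, ← CommRingCat.ofHom_comp]
    congr 2
    refine RingHom.ext fun x => ?_
    show m (LaurentPolynomial.C (algebraMap F₀ L (algebraMap (𝓞 F₀) F₀ x))) = _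
    rw [hmC]
    have h1 := RingHom.congr_fun hε (algebraMap (𝓞 F₀) F₀ x)
    rw [RingHom.comp_apply] at h1
    rw [h1]
    rfl
  have hpt : ∀ u : ℂˣ, GmPt u ≫ cC = Spec.map (CommRingCat.ofHom ((evL u).comp m)) ≫ c := by
    intro u
    rw [hcC, CommRingCat.ofHom_comp, Spec.map_comp, Category.assoc]
  by_cases hconst : ∃ u v : ℂˣ, GmPt u ≫ cC ≠ GmPt v ≫ cC
  · left
    have hV' : ∀ u : ℂˣ, ∃ p' : Spec (CommRingCat.of ℂ) ⟶ V', p' ≫ i = GmPt u ≫ cC :=
      fun u => hGm _ ⟨cC, hcC1, ⟨u, rfl⟩, hconst⟩
    -- a chart at the generic point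
    obtain ⟨U, hU, b, θ, hgb, hθ⟩ : ∃ (U : V.Opens) (hU : IsAffineOpen U) (b : LaurentPolynomial L)
        (θ : Γ(V, U) ⟶ CommRingCat.of (Localization.Away b)), b ≠ 0 ∧
        Spec.map θ ≫ hU.fromSpec = Spec.map (CommRingCat.ofHom
          (algebraMap (LaurentPolynomial L) (Localization.Away b))) ≫ c := by
      let p : PrimeSpectrum (LaurentPolynomial L) :=
        PrimeSpectrum.comap (algebraMap (LaurentPolynomial L) Q) ⊥
      obtain ⟨U, hU, hpU, -⟩ :=
        exists_isAffineOpen_mem_and_subset (X := V) (x := c p) (U := ⊤) trivial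
      have h1 : p ∈ (c ⁻¹ᵁ U : (Spec (CommRingCat.of (LaurentPolynomial L))).Opens) := hpU
      obtain ⟨_, ⟨b, rfl⟩, hpb, hbU⟩ :=
        PrimeSpectrum.isTopologicalBasis_basic_opens.exists_subset_of_mem_open
          h1 (c ⁻¹ᵁ U).isOpen
      have hgb : algebraMap (LaurentPolynomial L) Q b ≠ 0 := by
        intro h
        exact hpb (by
          show algebraMap (LaurentPolynomial L) Q b ∈ (⊥ : Ideal Q)
          rw [h]; exact zero_mem _)
      have hq : Set.range (Spec.map (CommRingCat.ofHom
          (algebraMap (LaurentPolynomial L) (Localization.Away b))) ≫ c) ⊆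
          Set.range hU.fromSpec := by
        rintro _ ⟨y, rfl⟩
        rw [hU.range_fromSpec]
        have h2 : Spec.map (CommRingCat.ofHom
            (algebraMap (LaurentPolynomial L) (Localization.Away b))) y ∈
            (PrimeSpectrum.basicOpen b : Set (PrimeSpectrum (LaurentPolynomial L))) := by
          intro (h : algebraMap (LaurentPolynomial L) (Localization.Away b) b ∈ y.asIdeal)
          exact y.2.ne_top (Ideal.eq_top_of_isUnit_mem _ h
            (IsLocalization.map_units (Localization.Away b)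
              (⟨b, Submonoid.mem_powers b⟩ : Submonoid.powers b)))
        exact hbU h2
      obtain ⟨θ, hθ⟩ := Spec.map_surjective (IsOpenImmersion.lift hU.fromSpec _ hq)
      exact ⟨U, hU, b, θ, fun h => hgb (by rw [h, map_zero]), by rw [hθ, IsOpenImmersion.lift_fac]⟩
    have hθ' : Spec.map (CommRingCat.ofHom θ.hom) ≫ hU.fromSpec = Spec.map (CommRingCat.ofHom
          (algebraMap (LaurentPolynomial L) (Localization.Away b))) ≫ c := hθ
    obtain ⟨I, hI⟩ := exists_ideal_chart i hU.fromSpec
    obtain ⟨P, hP, hPx⟩ := point_at c _ hU.fromSpec b θ.hom hθ'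
      (algebraMap (LaurentPolynomial L) Q) (fun h => hgb (hQi (by rw [h, map_zero])))
    rw [hP]
    refine (hI Q P).mpr fun x hx => ?_
    by_contra hne
    obtain ⟨a, n, han⟩ := exists_num b (θ.hom x)
    have h1 := hPx x a n han
    have ha : a ≠ 0 := by
      rintro rfl
      rw [map_zero] at h1
      rcases mul_eq_zero.mp h1 with h2 | h2
      · exact hne h2
      · exact pow_ne_zero n (fun h => hgb (hQi (by rw [h, map_zero]))) h2
    obtain ⟨u, hu⟩ := exists_good (m (a * b)) (fun h => by
      have := hmi (h.trans (map_zero m).symm)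
      rcases mul_eq_zero.mp this with h2 | h2
      · exact ha h2
      · exact hgb h2)
    rw [map_mul, map_mul] at hu
    obtain ⟨P', hP', hPx'⟩ := point_at c _ hU.fromSpec b θ.hom hθ' ((evL u).comp m)
      (right_ne_zero_of_mul hu)
    have h2 : P' x = 0 := by
      refine (hI ℂ P').mp ?_ x hx
      obtain ⟨p', hp'⟩ := hV' u
      exact ⟨p', by rw [hp', hpt, hP']⟩
    have h3 := hPx' x a n han
    rw [h2, zero_mul] at h3
    exact left_ne_zero_of_mul hu h3.symm
  · right
    push Not at hconst
    intro B j hj φ hφ x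
    obtain ⟨f, θ, hf, hθ⟩ := chart_at c (algebraMap (LaurentPolynomial L) Q) hQi B j φ hφ
    obtain ⟨a, n, han⟩ := exists_num f (θ x)
    -- the value of `φ x`
    obtain ⟨P, hP, hPx⟩ := point_at c B j f θ hθ (algebraMap (LaurentPolynomial L) Q)
      (fun h => hf (hQi (by rw [h, map_zero])))
    have hPφ : P = φ := Spec_map_comp_inj j P φ (hP.symm.trans hφ.symm)
    have hφx := hPx x a n han
    rw [hPφ] at hφx
    -- the values at the complex points
    have hmf : m f ≠ 0 := fun h => hf (hmi (h.trans (map_zero m).symm))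
    obtain ⟨u₀, hu₀⟩ := exists_good (m f) hmf
    obtain ⟨P₀, hP₀, hPx₀⟩ := point_at c B j f θ hθ ((evL u₀).comp m) hu₀
    set lam : ℂ := P₀ x with hlam
    have hall : ∀ u : ℂˣ, evL u (m f) ≠ 0 → evL u (m a) = lam * evL u (m f) ^ n := by
      intro u hu
      obtain ⟨P₁, hP₁, hPx₁⟩ := point_at c B j f θ hθ ((evL u).comp m) hu
      have h1 : P₁ = P₀ := Spec_map_comp_inj j P₁ P₀ (hP₁.symm.trans (Eq.trans (by
        rw [← hpt, ← hpt, hconst u u₀]) hP₀))
      have h2 := hPx₁ x a n han
      rw [h1] at h2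
      exact h2.symm
    have hzero : m a = LaurentPolynomial.C lam * m f ^ n := by
      by_contra hne
      have h1 : (m a - LaurentPolynomial.C lam * m f ^ n) * m f ≠ 0 :=
        mul_ne_zero (sub_ne_zero.mpr hne) hmf
      obtain ⟨u, hu⟩ := exists_good _ h1
      rw [map_mul] at hu
      have h2 := hall u (right_ne_zero_of_mul hu)
      apply left_ne_zero_of_mul hu
      rw [map_sub, map_mul, map_pow, h2]
      have h3 : evL u (LaurentPolynomial.C lam) = lam := by
        show LaurentPolynomial.eval₂ (RingHom.id ℂ) u (LaurentPolynomial.C lam) = lam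
        rw [LaurentPolynomial.eval₂_C]
        rfl
      rw [h3, sub_self]
    -- descend
    have hfn : f ^ n ≠ 0 := pow_ne_zero n hf
    obtain ⟨k, hk⟩ : ∃ k, (f ^ n).coeff k ≠ 0 := by
      by_contra hcon
      push Not at hcon
      apply hfn
      ext k
      exact hcon k
    refine ⟨a.coeff k / (f ^ n).coeff k, ?_⟩
    have hlamε : lam = ε (a.coeff k / (f ^ n).coeff k) := by
      have h1 := congrArg (fun q : LaurentPolynomial ℂ => q.coeff k) hzero
      rw [← map_pow, hm, AddMonoidAlgebra.coeff_mapRingHom] at h1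
      have h2 : ∀ q : LaurentPolynomial ℂ, (LaurentPolynomial.C lam * q).coeff k =
          lam * q.coeff k := by
        intro q
        rw [← LaurentPolynomial.smul_eq_C_mul]
        rfl
      rw [h2, AddMonoidAlgebra.coeff_mapRingHom] at h1
      have h3 : ε ((f ^ n).coeff k) ≠ 0 := fun h => hk (hεi (h.trans (map_zero ε).symm))
      rw [map_div₀, h1, mul_div_cancel_right₀ _ h3]
    have ha : a = LaurentPolynomial.C (a.coeff k / (f ^ n).coeff k) * f ^ n := by
      apply hmi
      rw [map_mul, hmC, ← hlamε, map_pow]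
      exact hzero
    have hfQ : algebraMap (LaurentPolynomial L) Q f ^ n ≠ 0 :=
      pow_ne_zero n (fun h => hf (hQi (by rw [h, map_zero])))
    apply mul_right_cancel₀ hfQ
    rw [hφx, ← map_pow, ← map_mul, ← ha]

end Pool.Agent.Work.MP_e97a4d_nt
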