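import Pool.Agent.Work.MP_e97a4d_nt.UP.VUnit
import Pool.Agent.Work.MP_e97a4d_nt.UP.Sch
import Pool.Agent.Work.MP_e97a4d_nt.UP.VClosed
import Pool.Agent.Work.MP_e97a4d_nt.SIntDed

/-!
# VFinFib (M-L): finitely many integral points with the same generic point

`V` need not be separated.
(L) If `gpt y = gpt y'` and for every point `s` of `Spec (SInt F T)` there is `b` with
`y s, y' s ∈ range (𝒜.j b)`, then `y = y'`: near `s` both `y` and `y'` factor through `𝒜.j b` on a
basic open `D(f)` containing `s` (intersection of the two open preimages), and give two
homomorphisms `𝒜.B b → Localization.Away f`, which agree after composition with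
`Localization.Away f → F` (`spt_inj`), which is injective; so `y` and `y'` agree on `D(f)`;
these cover (`Scheme.OpenCover.hom_ext` or similar).
Main proof. Let `S₀` be the set of `b` for which `p = spt (𝒜.j b) (P b)` for some `P b`. If there is
one `y`, `S₀` is not empty (the generic point is in some chart). For `b ∈ S₀` the finitely many
elements `P b (𝒜.x b l)` are in `SInt F T_b` for a finite `T_b ⊇ T` (`exists_finset_SInt` in
`LaurentPoints`), as well as the image of `ψ`, so `P b` has values in `SInt F T_b` and defines
`Y_b : Spec (SInt F T_b) ⟶ V`. For `b, b' ∈ S₀` the preimage of `range (𝒜.j b')` under `Y_b` is open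
and contains the generic point, so it contains all primes `q` outside a finite set `T_{b b'}`
(`finite_of_isClosed` in `SIntDed`); for such `q` one has `Y_b q = Y_b' q` (both come from the unique
homomorphism from `𝒜.B b'` to the local ring at `q` which is `P b'` generically).
Let `T'` be the union of all these finite sets and `y` a point with `gpt y = p`. For `q ∉ T'`, `y q` is
in some chart `b`, `b ∈ S₀`, and `y q = Y_b q = Y_{b₀} q` with a fixed `b₀ ∈ S₀`. So two points `y, y'`
have the same value at all `q ∉ T'`, and at the generic point. For the finitely many
`q ∈ T' \ T` choose `b_q(y)` with `y q` in the chart `b_q(y)`. By (L) `y ↦ (b_q(y))_q` is injective on the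
set in question, and the set of functions from a finite set to the finite set `𝒜.β` is finite.
(The points of `Spec (SInt F T)` are the generic point and the primes given by the `q ∉ T`;
it is enough to know that all points other than the generic one outside a closed set missing
the generic point are treated: `finite_of_isClosed` gives finiteness of the exceptional sets
directly on `Spec (SInt F T)`, which avoids naming the primes `q`.)
-/

set_option autoImplicit false

noncomputable section

namespace Pool.Agent.Work.MP_e97a4d_nt

open AlgebraicGeometry CategoryTheory IsDedekindDomain NumberField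

theorem finite_fibre {F₀ : Type} [Field F₀] {V : Scheme.{0}}
    {π : V ⟶ Spec (CommRingCat.of (𝓞 F₀))} (𝒜 : Atlas π) {F : Type} [Field F] [NumberField F]
    [Algebra F₀ F] {T : Finset (HeightOneSpectrum (𝓞 F))}
    (p : Spec (CommRingCat.of F) ⟶ V) :
    {y ∈ integralPoints π F T | gpt y = p}.Finite := by
  have := 𝒜.oi
  have := 𝒜.fin
  refine (Up.finfib (R := SInt F T) (K := F) 𝒜.B 𝒜.j 𝒜.cov p).subset ?_
  rintro y ⟨-, hy⟩
  exact hy

end Pool.Agent.Work.MP_e97a4d_nt
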